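import Pool.Agent.CpCH.Defs

/-!
# The base sets are dense, open, and countably many
-/

set_option autoImplicit false
open Set Topology

namespace Pool.Agent.CpCH

universe u

variable {Ω : Type u} [LinearOrder Ω]

lemma continuous_ev {β : Ω} (x : Ω × ℕ) (i : ℕ) : Continuous fun A : Sp β => ev A x i := by
  unfold ev
  by_cases hx : x.1 < β
  · simp only [hx, dif_pos]
    exact continuous_apply _
  · simp only [hx, dif_neg, not_false_eq_true]
    exact continuous_const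

lemma isOpen_ev {β : Ω} (x : Ω × ℕ) (i : ℕ) (b : Bool) : IsOpen {A : Sp β | ev A x i = b} :=
  (isOpen_discrete ({b} : Set Bool)).preimage (continuous_ev x i)

lemma ev_of_lt {β : Ω} (A : Sp β) {x : Ω × ℕ} (hx : x.1 < β) (i : ℕ) :
    ev A x i = A (⟨x, hx⟩, i) := by
  unfold ev
  rw [dif_pos hx]

lemma mgO_spec {A : Type*} {P : Set (A → Bool)} (hP : IsMeagre P) :
    (∀ k, IsOpen (mgO P k) ∧ Dense (mgO P k)) ∧ ∀ a ∈ P, ∃ k, a ∉ mgO P k := by
  unfold mgO
  rw [dif_pos hP]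
  exact (exists_seq_of_isMeagre hP).choose_spec

lemma base_open_dense {h : Ω → Option (Task Ω)} {h' : Ω → ℕ → ℕ → Ω × ℕ} {γ : Ω}
    {b : Ω × ℕ → Ω × ℕ → Bool} {O : Set (Sp γ)} (hO : O ∈ base h h' γ b) : IsOpen O ∧ Dense O := by
  classical
  rcases hO with ((⟨t, ht, hM, k, rfl⟩ | ⟨F, F', m, hF, hF', rfl⟩) |
    ⟨β', G, G', m, s, hβ', hG, hG', hinf, rfl⟩) | ⟨β', r, m, s, hβ', hT, hinj, rfl⟩
  · exact (mgO_spec hM).1 k
  · constructor
    · have : {A : Sp γ | ∃ i, m ≤ i ∧ ∀ x ∈ F, ev A x i = decide (x ∈ F')} =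
          ⋃ i, ⋃ (_ : m ≤ i), ⋂ x ∈ F, {A : Sp γ | ev A x i = decide (x ∈ F')} := by
        ext A; simp
      rw [this]
      exact isOpen_iUnion fun i => isOpen_iUnion fun _ => isOpen_biInter_finset fun x _ =>
        isOpen_ev x i _
    · refine dense_of_exists fun F₁ v => ?_
      obtain ⟨i, hi, hi'⟩ : ∃ i, m ≤ i ∧ ∀ z ∈ F₁, z.2 ≠ i := by
        refine ⟨m + F₁.sup (fun z => z.2) + 1, by omega, fun z hz h => ?_⟩
        have : z.2 ≤ F₁.sup (fun z => z.2) := Finset.le_sup (f := fun z => z.2) hz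
        omega
      refine ⟨fun z => if z.2 = i then decide ((z.1 : Ω × ℕ) ∈ F') else v z, ⟨i, hi, fun x hx => ?_⟩,
        fun z hz => ?_⟩
      · rw [ev_of_lt _ (hF x hx)]
        simp
      · simp [hi' z hz]
  · constructor
    · have : {A : Sp γ | ∃ n : ℕ, (∀ j ∈ G, b (β', n) j = decide (j ∈ G')) ∧
          ∀ i < m, ev A (β', n) i = decide (i ∈ s)} =
          ⋃ n, ⋃ (_ : ∀ j ∈ G, b (β', n) j = decide (j ∈ G')), ⋂ i ∈ Finset.range m,
            {A : Sp γ | ev A (β', n) i = decide (i ∈ s)} := by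
        ext A; simp
      rw [this]
      exact isOpen_iUnion fun i => isOpen_iUnion fun _ => isOpen_biInter_finset fun x _ =>
        isOpen_ev _ _ _
    · refine dense_of_exists fun F₁ v => ?_
      obtain ⟨n, hn, hn'⟩ : ∃ n : ℕ, (∀ j ∈ G, b (β', n) j = decide (j ∈ G')) ∧
          ∀ z ∈ F₁, (z.1 : Ω × ℕ).2 ≠ n := by
        obtain ⟨n, hn, hn'⟩ := hinf.exists_notMem_finset (F₁.image fun z => (z.1 : Ω × ℕ).2)
        exact ⟨n, hn, fun z hz h => hn' (Finset.mem_image.2 ⟨z, hz, h⟩)⟩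
      refine ⟨fun z => if (z.1 : Ω × ℕ).2 = n then decide (z.2 ∈ s) else v z,
        ⟨n, hn, fun i hi => ?_⟩, fun z hz => ?_⟩
      · rw [ev_of_lt _ (show ((β', n) : Ω × ℕ).1 < γ from hβ')]
        simp
      · simp [hn' z hz]
  · constructor
    · have : {A : Sp γ | ∃ i : ℕ, ∀ a < r, ∀ l < m, ev A (h' β' i a) l = decide ((a, l) ∈ s)} =
          ⋃ i, ⋂ a ∈ Finset.range r, ⋂ l ∈ Finset.range m,
            {A : Sp γ | ev A (h' β' i a) l = decide ((a, l) ∈ s)} := by
        ext A; simp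
      rw [this]
      exact isOpen_iUnion fun i => isOpen_biInter_finset fun _ _ => isOpen_biInter_finset fun x _ =>
        isOpen_ev _ _ _
    · refine dense_of_exists fun F₁ v => ?_
      obtain ⟨i, hi⟩ : ∃ i : ℕ, ∀ a < r, ∀ z ∈ F₁, (z.1 : Ω × ℕ) ≠ h' β' i a := by
        by_contra hcon
        push Not at hcon
        choose a ha z hz hza using hcon
        have h1 : Function.Injective z := by
          intro i i' hii
          have h2 : h' β' i (a i) = h' β' i' (a i') := by rw [← hza i, ← hza i', hii]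
          exact (hinj _ _ _ _ (ha i) (ha i') h2).1
        exact Set.infinite_range_of_injective h1 ((F₁.finite_toSet).subset
          (range_subset_iff.2 hz))
      refine ⟨fun z => if H : ∃ a, a < r ∧ h' β' i a = z.1 then decide ((H.choose, z.2) ∈ s)
        else v z, ⟨i, fun a ha l hl => ?_⟩, fun z hz => ?_⟩
      · rw [ev_of_lt _ (hT i a)]
        have H : ∃ a', a' < r ∧ h' β' i a' = h' β' i a := ⟨a, ha, rfl⟩
        have h1 : H.choose = a := (hinj _ _ _ _ H.choose_spec.1 ha H.choose_spec.2).2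
        simp only
        rw [dif_pos H, h1]
      · simp only
        rw [dif_neg]
        rintro ⟨a, ha, haz⟩
        exact hi a ha z hz haz.symm

variable (hΩ : ∀ β : Ω, (Iio β).Countable)
include hΩ

lemma countable_Iic' (β : Ω) : (Iic β).Countable := by
  have : Iic β ⊆ insert β (Iio β) := by
    intro x hx
    rcases (show x ≤ β from hx).eq_or_lt with h | h
    · exact Or.inl h
    · exact Or.inr h
  exact ((hΩ β).insert β).mono this

lemma countable_lt (γ : Ω) : {x : Ω × ℕ | x.1 < γ}.Countable := by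
  have : {x : Ω × ℕ | x.1 < γ} ⊆ (Iio γ) ×ˢ (univ : Set ℕ) := fun x hx => ⟨hx, mem_univ _⟩
  exact ((hΩ γ).prod (Set.to_countable _)).mono this

lemma countable_le (γ : Ω) : {x : Ω × ℕ | x.1 ≤ γ}.Countable := by
  have : {x : Ω × ℕ | x.1 ≤ γ} ⊆ (Iic γ) ×ˢ (univ : Set ℕ) := fun x hx => ⟨hx, mem_univ _⟩
  exact ((countable_Iic' hΩ γ).prod (Set.to_countable _)).mono this

lemma base_countable (h : Ω → Option (Task Ω)) (h' : Ω → ℕ → ℕ → Ω × ℕ) (γ : Ω)
    (b : Ω × ℕ → Ω × ℕ → Bool) : (base h h' γ b).Countable := by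
  classical
  have hF : {F : Finset (Ω × ℕ) | ∀ x ∈ F, x.1 < γ}.Countable :=
    (countable_finset (countable_lt hΩ γ)).mono fun F hF x hx => hF x hx
  refine Set.Countable.union (Set.Countable.union (Set.Countable.union ?_ ?_) ?_) ?_
  · rcases hh : h γ with _ | t
    · refine Set.Countable.mono ?_ countable_empty
      rintro O ⟨t, ht, -⟩
      exact absurd ht (by simp)
    · refine (countable_range fun k => mgO (Pset h γ b t) k).mono ?_
      rintro O ⟨t', ht', -, k, rfl⟩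
      have : t = t' := Option.some_injective _ ht'
      subst this
      exact mem_range_self k
  · refine ((hF.prod (hF.prod (Set.to_countable (univ : Set ℕ)))).image
      fun p : Finset (Ω × ℕ) × Finset (Ω × ℕ) × ℕ =>
        {A : Sp γ | ∃ i, p.2.2 ≤ i ∧ ∀ x ∈ p.1, ev A x i = decide (x ∈ p.2.1)}).mono ?_
    rintro O ⟨F, F', m, hF, hF', rfl⟩
    exact ⟨(F, F', m), ⟨hF, hF', mem_univ _⟩, rfl⟩
  · refine (((hΩ γ).prod (hF.prod (hF.prod (Set.to_countable (univ : Set (ℕ × Finset ℕ)))))).image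
      fun p : Ω × Finset (Ω × ℕ) × Finset (Ω × ℕ) × ℕ × Finset ℕ =>
        {A : Sp γ | ∃ n : ℕ, (∀ j ∈ p.2.1, b (p.1, n) j = decide (j ∈ p.2.2.1)) ∧
          ∀ i < p.2.2.2.1, ev A (p.1, n) i = decide (i ∈ p.2.2.2.2)}).mono ?_
    rintro O ⟨β', G, G', m, s, hβ', hG, hG', -, rfl⟩
    exact ⟨(β', G, G', m, s), ⟨hβ', hG, hG', mem_univ _⟩, rfl⟩
  · refine (((hΩ γ).prod (Set.to_countable (univ : Set (ℕ × ℕ × Finset (ℕ × ℕ))))).image
      fun p : Ω × ℕ × ℕ × Finset (ℕ × ℕ) =>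
        {A : Sp γ | ∃ i : ℕ, ∀ a < p.2.1, ∀ l < p.2.2.1, ev A (h' p.1 i a) l =
          decide ((a, l) ∈ p.2.2.2)}).mono ?_
    rintro O ⟨β', r, m, s, hβ', -, -, rfl⟩
    exact ⟨(β', r, m, s), ⟨hβ', mem_univ _⟩, rfl⟩

end Pool.Agent.CpCH
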