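import Pool.Agent.CpCH.NonMeagre

/-!
# All closed subspaces of `C_p(X)^ω` are separable
-/

set_option autoImplicit false
open Set Topology

namespace Pool.Agent.CpCH

open Pool.Agent.CpPN (Cp)

universe u

variable {Ω : Type u} [LinearOrder Ω]

open Classical in
/-- the levels of a finite task together with an ordinal -/
noncomputable def lvQ (ι : (Box Ω × Finset (Pat Ω)) × Ω) : Finset Ω :=
  (ι.1.1.image fun c => c.1.1) ∪
    (ι.1.2.biUnion fun c => (c.1.image Prod.fst) ∪ (c.2.1.image Prod.fst)) ∪ {ι.2}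

lemma countable_lvQ (hΩ : ∀ β : Ω, (Iio β).Countable) (β : Ω) :
    {ι : (Box Ω × Finset (Pat Ω)) × Ω | ∀ o ∈ lvQ ι, o < β}.Countable := by
  classical
  have h2 : {G : Finset (Ω × ℕ) | ∀ c ∈ G, c ∈ {x : Ω × ℕ | x.1 < β}}.Countable :=
    countable_finset (countable_lt hΩ β)
  have h3 : {c : Pat Ω | (∀ j ∈ c.1, j.1 < β) ∧ ∀ j ∈ c.2.1, j.1 < β}.Countable := by
    refine (h2.prod (h2.prod (Set.to_countable
      (univ : Set (Finset ℕ × Finset ℕ × ℕ × ℚ × ℚ))))).mono ?_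
    rintro c ⟨hc1, hc2⟩
    exact ⟨hc1, hc2, mem_univ _⟩
  refine (((countable_box hΩ β).prod (countable_finset h3)).prod (hΩ β)).mono ?_
  intro ι hι
  refine ⟨⟨fun c hc => hι _ ?_, fun c hc => ⟨fun j hj => hι _ ?_, fun j hj => hι _ ?_⟩⟩, hι _ ?_⟩
  · exact Finset.mem_union_left _ (Finset.mem_union_left _ (Finset.mem_image.2 ⟨c, hc, rfl⟩))
  · exact Finset.mem_union_left _ (Finset.mem_union_right _ (Finset.mem_biUnion.2 ⟨c, hc,
      Finset.mem_union_left _ (Finset.mem_image.2 ⟨j, hj, rfl⟩)⟩))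
  · exact Finset.mem_union_left _ (Finset.mem_union_right _ (Finset.mem_biUnion.2 ⟨c, hc,
      Finset.mem_union_right _ (Finset.mem_image.2 ⟨j, hj, rfl⟩)⟩))
  · exact Finset.mem_union_right _ (Finset.mem_singleton_self _)

variable {h : Ω → Option (Task Ω)} {h' : Ω → ℕ → ℕ → Ω × ℕ} {C : Ω × ℕ → Ω × ℕ → Bool}

theorem cs_seq [WellFoundedLT Ω] [Uncountable Ω] (hΩ : ∀ β : Ω, (Iio β).Countable)
    (hh : ∀ o : Option (Task Ω), ∀ β, ∃ β', β < β' ∧ h β' = o)
    (hh' : Function.Surjective h') (hC : ∀ β, Req h h' β C) (L : Set (ℕ → Cp (Xs h C)))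
    (hL : IsClosed L) : ∃ D : Set (ℕ → Cp (Xs h C)), D ⊆ L ∧ D.Countable ∧ L ⊆ closure D := by
  classical
  obtain ⟨K, hK⟩ := exists_K hΩ hh' hC Lᶜ hL.isOpen_compl
  obtain ⟨γ₁, hγ₁⟩ : ∃ γ₁ : Ω, ∀ i, ∀ c ∈ K i, c.1.1 < γ₁ := by
    obtain ⟨b, hb⟩ := exists_gt_countable hΩ 
      (S := ⋃ i, (fun c : (Ω × ℕ) × ℕ × ℚ × ℚ => c.1.1) '' ((K i : Box Ω) : Set ((Ω × ℕ) × ℕ × ℚ × ℚ)))
      (countable_iUnion fun i => (Finset.countable_toSet _).image _)
    exact ⟨b, fun i c hc => hb _ (mem_iUnion.2 ⟨i, ⟨c, hc, rfl⟩⟩)⟩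
  -- closing off
  choose Φ hΦ using fun ι : (Box Ω × Finset (Pat Ω)) × Ω => hh (some (K, ι.1.1, ι.1.2)) ι.2
  obtain ⟨γ, hγ₁γ, hγ⟩ := exists_closed hΩ lvQ (countable_lvQ hΩ) Φ γ₁
  -- the dense set
  let good : Ω → Prop := fun β => (∃ β', β' < β) ∧ (∃ w, Sol h β (bc h C β) (ee C β) w) ∧
    ∃ q, h β = some (K, q)
  have hW : ∀ β : Ω, ∃ W : ℕ → Cp (Xs h C), good β →
      (∀ k (x : Ω × ℕ), x.1 < β → val W x k = Wf h β (bc h C β) (ee C β) x k) ∧
      ∀ k (x : Ω × ℕ), ∀ G : Finset (Ω × ℕ), (∀ j ∈ G, j.1 ≤ β) → ∀ p q : ℝ,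
        (∀ y : Ω × ℕ, y.1 < β → (∀ j ∈ G, Bv h C y j = Bv h C x j) →
          p ≤ Wf h β (bc h C β) (ee C β) y k ∧ Wf h β (bc h C β) (ee C β) y k ≤ q) →
        p ≤ val W x k ∧ val W x k ≤ q := by
    intro β
    by_cases hg : good β
    · obtain ⟨W, hW1, hW2, hW3⟩ := exists_W hC hg.1 hg.2.1
      exact ⟨fun k => ⟨W k, hW1 k⟩, fun _ => ⟨fun k x hx => hW2 k (Xs.mk x) hx,
        fun k x G hG p q hpq => hW3 k (Xs.mk x) G hG p q hpq⟩⟩
    · exact ⟨fun _ => ⟨fun _ => 0, continuous_const⟩, fun h => absurd h hg⟩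
  choose WW hWW using hW
  refine ⟨WW '' {β | β < γ ∧ good β}, ?_, ?_, ?_⟩
  · rintro _ ⟨β, ⟨-, hg⟩, rfl⟩
    obtain ⟨t, ht, hSupp, hRel, hSat⟩ := Wf_spec hg.2.1
    obtain ⟨q, hq⟩ := hg.2.2
    have htq : t = (K, q) := Option.some_injective _ (ht.symm.trans hq)
    subst htq
    by_contra hcon
    obtain ⟨i, hi⟩ := (hK (WW β)).1 hcon
    refine hSat.box i fun c hc => ?_
    have h1 := hi c hc
    rw [(hWW β hg).1 c.2.1 c.1 (hSupp.box i c hc)] at h1
    exact h1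
  · exact ((hΩ γ).mono fun β hβ => hβ.1).image _
  · intro w hw
    rw [mem_closure_iff]
    intro o ho hwo
    obtain ⟨F, N, ε, hε, hF⟩ := exists_nhd_seq ho hwo
    choose p q hp hq hpq using fun (x : Ω × ℕ) (k : ℕ) => exists_rat_interval (val w x k) ε hε
    -- supports
    have hsupp : ∀ x : Xs h C, ∃ G : Finset (Ω × ℕ), ∀ y : Xs h C,
        (∀ j ∈ G, Bv h C y.pt j = Bv h C x.pt j) → ∀ k < N,
          (p x.pt k : ℝ) < val w y.pt k ∧ val w y.pt k < (q x.pt k : ℝ) := by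
      intro x
      have h1 : IsOpen {y : Xs h C | ∀ k < N, (p x.pt k : ℝ) < val w y.pt k ∧
          val w y.pt k < (q x.pt k : ℝ)} := by
        have : {y : Xs h C | ∀ k < N, (p x.pt k : ℝ) < val w y.pt k ∧
            val w y.pt k < (q x.pt k : ℝ)} = ⋂ k ∈ Finset.range N,
            ({y : Xs h C | (p x.pt k : ℝ) < (w k).1 y} ∩ {y | (w k).1 y < (q x.pt k : ℝ)}) := by
          ext y
          simp only [mem_ofPred_eq, mem_iInter, Finset.mem_range, mem_inter_iff]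
          rfl
        rw [this]
        exact isOpen_biInter_finset fun k _ => (isOpen_lt continuous_const (w k).2).inter
          (isOpen_lt (w k).2 continuous_const)
      exact exists_finset_nhd h1 fun k _ => ⟨hp x.pt k, hq x.pt k⟩
    choose Gs hGs using hsupp
    let F₀ : Finset (Ω × ℕ) := (F.image Xs.pt).filter fun x => x.1 < γ
    let F₁ : Finset (Ω × ℕ) := (F.image Xs.pt).filter fun x => γ ≤ x.1
    let G : Finset (Ω × ℕ) := F₁.biUnion fun x => Gs (Xs.mk x)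
    let Gγ : Finset (Ω × ℕ) := G.filter fun j => j.1 < γ
    let lH : List (Ω × ℕ) := (G.filter fun j => γ ≤ j.1).toList
    have hlHγ : ∀ j ∈ lH, γ ≤ j.1 := fun j hj => (Finset.mem_filter.1 (Finset.mem_toList.1 hj)).2
    let m : ℕ := lH.length
    let s : Ω × ℕ → ℕ → Bool := fun x i => Bv h C x (lH.getD i (γ₁, 0))
    have hs : ∀ x i (hi : i < lH.length), s x i = Bv h C x lH[i] := fun x i hi => by
      simp only [s, List.getD_eq_getElem?_getD, List.getElem?_eq_getElem hi, Option.getD_some]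
    obtain ⟨β₀, hβ₀γ₁, hβ₀γ, hβ₀⟩ := exists_level_bound_lt hγ₁γ (F₀ ∪ Gγ) (by
      intro x hx
      rcases Finset.mem_union.1 hx with hx | hx
      · exact (Finset.mem_filter.1 hx).2
      · exact (Finset.mem_filter.1 hx).2)
    let q1 : Box Ω := (F₀ ×ˢ Finset.range N).image fun c => (c.1, c.2, p c.1 c.2, q c.1 c.2)
    let q2 : Finset (Pat Ω) := (F₁ ×ˢ Finset.range N).image fun c =>
      (Gγ, Gγ.filter (fun j => Bv h C c.1 j = true), Finset.range m,
        (Finset.range m).filter (fun i => s c.1 i = true), c.2, p c.1 c.2, q c.1 c.2)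
    have hlv : ∀ β < γ, ∀ o ∈ lvQ ((q1, q2), β), o < γ := by
      intro β hβ o ho
      rcases Finset.mem_union.1 ho with ho | ho
      · rcases Finset.mem_union.1 ho with ho | ho
        · obtain ⟨c, hc, rfl⟩ := Finset.mem_image.1 ho
          obtain ⟨c', hc', rfl⟩ := Finset.mem_image.1 hc
          exact (Finset.mem_filter.1 (Finset.mem_product.1 hc').1).2
        · obtain ⟨c, hc, ho⟩ := Finset.mem_biUnion.1 ho
          obtain ⟨c', hc', rfl⟩ := Finset.mem_image.1 hc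
          rcases Finset.mem_union.1 ho with ho | ho
          · obtain ⟨j, hj, rfl⟩ := Finset.mem_image.1 ho
            exact (Finset.mem_filter.1 hj).2
          · obtain ⟨j, hj, rfl⟩ := Finset.mem_image.1 ho
            exact (Finset.mem_filter.1 (Finset.mem_filter.1 hj).1).2
      · rw [Finset.mem_singleton.1 ho]; exact hβ
    have hcl : ∀ β < γ, ∃ β', β < β' ∧ β' < γ ∧ h β' = some (K, q1, q2) := fun β hβ =>
      ⟨Φ ((q1, q2), β), (hΦ ((q1, q2), β)).1, hγ _ (hlv β hβ), (hΦ ((q1, q2), β)).2⟩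
    obtain ⟨β₁, hβ₁, hβ₁γ, hβ₁t⟩ := hcl β₀ hβ₀γ
    have hinf : {δ | β₀ < δ ∧ δ < γ ∧ h δ = h β₁}.Infinite := by
      intro hfin
      obtain ⟨M, hM, hMmax⟩ := hfin.toFinset.exists_max_image id
        ⟨β₁, hfin.mem_toFinset.2 ⟨hβ₁, hβ₁γ, rfl⟩⟩
      have hM' := hfin.mem_toFinset.1 hM
      obtain ⟨β₂, h1, h2, h3⟩ := hcl M hM'.2.1
      have h4 : β₂ ∈ hfin.toFinset := hfin.mem_toFinset.2
        ⟨hM'.1.trans h1, h2, h3.trans hβ₁t.symm⟩
      exact absurd (hMmax β₂ h4) (not_le.2 h1)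
    obtain ⟨βb, hβb, hβbF⟩ := exists_level_bound γ F₁
    obtain ⟨δ, ⟨hδ₀, hδγ, hδh⟩, hδF⟩ := ((hC βb).p2 γ hβb β₀ β₁ hinf F₁
      (fun x hx => ⟨(Finset.mem_filter.1 hx).2, hβbF x hx⟩) m s).nonempty
    have hδt : h δ = some (K, q1, q2) := hδh.trans hβ₁t
    have hGγδ : ∀ j ∈ Gγ, j.1 < δ := fun j hj =>
      (hβ₀ j (Finset.mem_union_right _ hj)).trans_lt hδ₀
    have hF₀δ : ∀ x ∈ F₀, x.1 < δ := fun x hx =>
      (hβ₀ x (Finset.mem_union_left _ hx)).trans_lt hδ₀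
    have hSupp : Supp ((K, q1, q2) : Task Ω) δ := by
      constructor
      · intro i c hc
        exact (hγ₁ i c hc).trans (hβ₀γ₁.trans_lt hδ₀)
      · intro c hc
        obtain ⟨c', hc', rfl⟩ := Finset.mem_image.1 hc
        exact hF₀δ _ (Finset.mem_product.1 hc').1
      · intro c hc j hj
        obtain ⟨c', hc', rfl⟩ := Finset.mem_image.1 hc
        exact hGγδ j hj
    have hNM : ¬ IsMeagre (Pset h δ (bc h C δ) (K, q1, q2)) := by
      refine not_meagre hΩ hC hδt w lH (Finset.nodup_toList _)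
        (fun j hj => hδγ.le.trans (hlHγ j hj)) fun e heδ hel => ?_
      constructor
      · intro i hi
        exact (hK w).2 ⟨i, hi⟩ hw
      · intro c hc
        obtain ⟨c', hc', rfl⟩ := Finset.mem_image.1 hc
        exact ⟨hp _ _, hq _ _⟩
      · intro c hc y hy
        obtain ⟨⟨x, k⟩, hc', rfl⟩ := Finset.mem_image.1 hc
        obtain ⟨hx, hk⟩ := Finset.mem_product.1 hc'
        refine hGs (Xs.mk x) (Xs.mk y) (fun j hj => ?_) k (Finset.mem_range.1 hk)
        show Bv h C y j = Bv h C x j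
        have hjG : j ∈ G := Finset.mem_biUnion.2 ⟨x, hx, hj⟩
        rcases lt_or_ge j.1 γ with hlt | hge
        · have hjG' : j ∈ Gγ := Finset.mem_filter.2 ⟨hjG, hlt⟩
          have h1 := hy.2.1 j hjG'
          rw [bc_of_lt hy.1 (hGγδ j hjG')] at h1
          rw [h1]
          refine decide_eq_bool ?_
          exact ⟨fun h => (Finset.mem_filter.1 h).2, fun h => Finset.mem_filter.2 ⟨hjG', h⟩⟩
        · have hjl : j ∈ lH := Finset.mem_toList.2 (Finset.mem_filter.2 ⟨hjG, hge⟩)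
          obtain ⟨i, hi, hij⟩ := List.getElem_of_mem hjl
          have h1 := hy.2.2 i (Finset.mem_range.2 hi)
          rw [ev_of_lt _ hy.1] at h1
          have h2 : C y j = C y (e i) := by rw [hel i hi, hij]
          rw [Bv_of_le (hy.1.le.trans (hδγ.le.trans hge)), h2]
          refine Eq.trans h1 ?_
          refine decide_eq_bool ?_
          rw [Finset.mem_filter, hs x i hi, hij]
          exact ⟨fun h => h.2, fun h => ⟨Finset.mem_range.2 hi, h⟩⟩
    obtain ⟨w', hRel', hSat'⟩ := (hC δ).s1 _ hδt hNM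
    have hSol : ∃ w, Sol h δ (bc h C δ) (ee C δ) w := ⟨w', _, hδt, hSupp, hRel', hSat'⟩
    have hgood : good δ := ⟨⟨β₀, hδ₀⟩, hSol, ⟨_, hδt⟩⟩
    obtain ⟨t, ht, -, -, hSat⟩ := Wf_spec hSol
    have htq : t = (K, q1, q2) := Option.some_injective _ (ht.symm.trans hδt)
    subst htq
    refine ⟨WW δ, hF _ fun x hx k hk => ?_, ⟨δ, ⟨hδγ, hgood⟩, rfl⟩⟩
    show |val (WW δ) x.pt k - val w x.pt k| < ε
    have h1 := hp x.pt k
    have h2 := hq x.pt k
    have h3 := hpq x.pt k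
    rcases lt_or_ge x.pt.1 γ with hlt | hge
    · have hxF : x.pt ∈ F₀ := Finset.mem_filter.2 ⟨Finset.mem_image_of_mem _ hx, hlt⟩
      rw [(hWW δ hgood).1 k x.pt (hF₀δ _ hxF)]
      have h4 := hSat.pts (x.pt, k, p x.pt k, q x.pt k) (Finset.mem_image.2
        ⟨(x.pt, k), Finset.mem_product.2 ⟨hxF, Finset.mem_range.2 hk⟩, rfl⟩)
      rw [abs_lt]
      constructor <;> linarith [h4.1, h4.2]
    · have hxF : x.pt ∈ F₁ := Finset.mem_filter.2 ⟨Finset.mem_image_of_mem _ hx, hge⟩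
      have h4 := (hWW δ hgood).2 k x.pt (Gγ ∪ (Finset.range m).image fun i => (δ, i)) (by
        intro j hj
        rcases Finset.mem_union.1 hj with hj | hj
        · exact (hGγδ j hj).le
        · obtain ⟨i, -, rfl⟩ := Finset.mem_image.1 hj
          exact le_rfl) (p x.pt k) (q x.pt k) (by
        intro y hy hyG
        have h5 := hSat.pat _ (Finset.mem_image.2 ⟨(x.pt, k), Finset.mem_product.2
          ⟨hxF, Finset.mem_range.2 hk⟩, rfl⟩) y ⟨hy, fun j hj => ?_, fun i hi => ?_⟩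
        · exact ⟨h5.1.le, h5.2.le⟩
        · rw [bc_of_lt hy (hGγδ j hj), hyG j (Finset.mem_union_left _ hj)]
          refine (decide_eq_bool ?_).symm
          exact ⟨fun h => (Finset.mem_filter.1 h).2, fun h => Finset.mem_filter.2 ⟨hj, h⟩⟩
        · have hδA : h ((δ, i) : Ω × ℕ).1 ≠ none := by
            show h δ ≠ none
            rw [hδt]; simp
          have h6 := hyG (δ, i) (Finset.mem_union_right _ (Finset.mem_image.2 ⟨i, hi, rfl⟩))
          rw [Bv_of_ne hδA, Bv_of_ne hδA, hδF x.pt hxF i (Finset.mem_range.1 hi)] at h6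
          rw [ev_ee hy, h6]
          refine (decide_eq_bool ?_).symm
          exact ⟨fun h => (Finset.mem_filter.1 h).2, fun h => Finset.mem_filter.2 ⟨hi, h⟩⟩)
      rw [abs_lt]
      constructor <;> linarith [h4.1, h4.2]

end Pool.Agent.CpCH
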