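import Pool.Agent.CpCH.PN
import Pool.Agent.CpCH.Main
import Pool.Agent.CpPN.Embed

/-!
# The continuum hypothesis gives a counterexample
-/

set_option autoImplicit false
open Set Topology

namespace Pool.Agent.CpCH

open Pool.Agent.CpPN (Cp CS LC)
open Cardinal

universe u

/-- finite powers are retracts of the countable power -/
theorem cs_fin {E : Type u} [TopologicalSpace E] [Nonempty E] (hcs : CS (ℕ → E)) (n : ℕ) :
    CS (Fin n → E) := by
  classical
  intro L hL
  let π : (ℕ → E) → (Fin n → E) := fun f i => f i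
  have hπ : Continuous π := continuous_pi fun i => continuous_apply _
  obtain ⟨D, hD, hDc, hDL⟩ := hcs (π ⁻¹' L) (hL.preimage hπ)
  refine ⟨π '' D, ?_, hDc.image _, ?_⟩
  · rintro _ ⟨f, hf, rfl⟩
    exact hD hf
  · intro g hg
    let f : ℕ → E := fun k => if hk : k < n then g ⟨k, hk⟩ else Classical.arbitrary E
    have hf : π f = g := by
      funext i
      show (if hk : (i : ℕ) < n then g ⟨i, hk⟩ else Classical.arbitrary E) = g i
      rw [dif_pos i.2]
    have h1 : f ∈ closure D := hDL (by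
      show π f ∈ L
      rw [hf]; exact hg)
    rw [← hf]
    exact image_closure_subset_closure_image hπ ⟨f, h1, rfl⟩

section card

/-- the order type `ω₁` -/
abbrev Om : Type := (aleph 1).ord.ToType

lemma countable_Om (β : Om) : (Iio β).Countable := by
  have h1 : #(Iio β) < aleph 1 := mk_Iio_toType_ord_lt β
  have h2 : (aleph 1 : Cardinal.{0}) = Order.succ ℵ₀ := succ_aleph0.symm
  rw [← le_aleph0_iff_set_countable]
  exact Order.lt_succ_iff.1 (h1.trans_eq h2)

instance uncountable_Om : Uncountable Om := by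
  rw [← aleph0_lt_mk_iff, mk_ord_toType]
  exact aleph0_lt_aleph_one

lemma mk_Om : #Om = aleph 1 := mk_ord_toType _

lemma mk_OmN : #(Om × ℕ) = aleph 1 := by
  rw [mk_prod, lift_id, lift_id, mk_Om, mk_nat]
  exact mul_eq_left (aleph0_le_aleph 1) (aleph0_le_aleph 1) aleph0_ne_zero

lemma infinite_OmN : Infinite (Om × ℕ) := inferInstance

lemma mk_Box_le : #(Box Om) ≤ aleph 1 := by
  have : Infinite ((Om × ℕ) × ℕ × ℚ × ℚ) := inferInstance
  unfold Box
  rw [mk_finset_of_infinite, mk_prod, lift_id, lift_id, mk_OmN]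
  refine mul_le_of_le (aleph0_le_aleph 1) le_rfl ?_
  exact (mk_le_aleph0).trans (aleph0_le_aleph 1)

lemma mk_finset_le : #(Finset (Om × ℕ)) ≤ aleph 1 := by
  rw [mk_finset_of_infinite, mk_OmN]

lemma mk_Pat_le : #(Pat Om) ≤ aleph 1 := by
  unfold Pat
  rw [mk_prod, lift_id, lift_id]
  refine mul_le_of_le (aleph0_le_aleph 1) mk_finset_le ?_
  rw [mk_prod, lift_id, lift_id]
  refine mul_le_of_le (aleph0_le_aleph 1) mk_finset_le ?_
  exact (mk_le_aleph0).trans (aleph0_le_aleph 1)

lemma mk_finsetPat_le : #(Finset (Pat Om)) ≤ aleph 1 := by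
  have : Infinite (Pat Om) := inferInstance
  rw [mk_finset_of_infinite]
  exact mk_Pat_le

variable (hCH : aleph 1 = (continuum : Cardinal.{0}))

include hCH

lemma mk_seq_le {α : Type} (hα : #α ≤ aleph 1) : #(ℕ → α) ≤ aleph 1 := by
  rw [← power_def, mk_nat]
  calc #α ^ ℵ₀ ≤ (aleph 1) ^ ℵ₀ := power_le_power_right hα
    _ = continuum ^ ℵ₀ := by rw [hCH]
    _ = continuum := continuum_power_aleph0
    _ = aleph 1 := hCH.symm
    _ ≤ _ := le_rfl

lemma mk_Task_le : #(Option (Task Om) × Om) ≤ aleph 1 := by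
  rw [mk_prod, lift_id, lift_id, mk_option]
  refine mul_le_of_le (aleph0_le_aleph 1) ?_ mk_Om.le
  refine add_le_of_le (aleph0_le_aleph 1) ?_ (one_le_aleph0.trans (aleph0_le_aleph 1))
  unfold Task
  rw [mk_prod, lift_id, lift_id]
  refine mul_le_of_le (aleph0_le_aleph 1) (mk_seq_le hCH mk_Box_le) ?_
  rw [mk_prod, lift_id, lift_id]
  exact mul_le_of_le (aleph0_le_aleph 1) mk_Box_le mk_finsetPat_le

theorem exists_h : ∃ h : Om → Option (Task Om), ∀ o : Option (Task Om), ∀ β, ∃ β', β < β' ∧ h β' = o := by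
  have h1 : #(Option (Task Om) × Om) ≤ #Om := (mk_Task_le hCH).trans mk_Om.ge
  obtain ⟨g, hg⟩ : ∃ g : Om → Option (Task Om) × Om, Function.Surjective g := by
    have : Nonempty (Option (Task Om) × Om) := inferInstance
    obtain ⟨f⟩ := h1
    exact ⟨Function.invFun f, Function.invFun_surjective f.injective⟩
  refine ⟨fun β => (g β).1, fun o β => ?_⟩
  by_contra hcon
  push Not at hcon
  have h2 : (Set.univ : Set Om) ⊆ (fun β' => (g β').2) '' (Iic β) := by
    intro γ _
    obtain ⟨β', hβ'⟩ := hg (o, γ)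
    refine ⟨β', ?_, congrArg Prod.snd hβ'⟩
    by_contra h3
    exact hcon β' (not_le.1 h3) (congrArg Prod.fst hβ')
  have h3 : (Iic β).Countable := by
    rw [← Iio_insert]
    exact (countable_Om β).insert _
  exact not_countable_univ ((h3.image _).mono h2)

theorem exists_h' : ∃ h' : Om → ℕ → ℕ → Om × ℕ, Function.Surjective h' := by
  have h1 : #(ℕ → ℕ → Om × ℕ) ≤ #Om :=
    (mk_seq_le hCH (mk_seq_le hCH mk_OmN.le)).trans mk_Om.ge
  obtain ⟨f⟩ := h1
  have : Nonempty (ℕ → ℕ → Om × ℕ) := ⟨fun _ _ => Classical.arbitrary _⟩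
  exact ⟨Function.invFun f, Function.invFun_surjective f.injective⟩

/-- CH gives a counterexample. -/
theorem exists_counterexample : ∃ (X : Type) (_ : TopologicalSpace X), T35Space X ∧
    PerfectlyNormalSpace (Cp (Cp X)) ∧ (∀ n, CS (Fin n → Cp X)) ∧ CS (ℕ → Cp X) ∧ 
    (∀ x : X, ∃ U : Set X, IsOpen U ∧ x ∈ U ∧ U.Countable) ∧ ¬ CS (Cp (Cp (Cp X))) := by
  obtain ⟨h, hh⟩ := exists_h hCH
  obtain ⟨h', hh'⟩ := exists_h' hCH
  obtain ⟨C, hC⟩ := exists_matrix countable_Om h h'
  have hA : ∀ β, ∃ β', β < β' ∧ h β' = none := hh none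
  have : T35Space (Xs h C) := t35_Xs hC hA
  have hcs : CS (ℕ → Cp (Xs h C)) := fun L hL => cs_seq countable_Om hh hh' hC L hL
  have hne : Nonempty (Cp (Xs h C)) := ⟨⟨fun _ => 0, continuous_const⟩⟩
  have hfin : ∀ n, CS (Fin n → Cp (Xs h C)) := cs_fin hcs
  have hPN : PerfectlyNormalSpace (Cp (Cp (Xs h C))) := perfectlyNormal_of_CS hfin
  have hlc : ∀ x : Xs h C, ∃ U : Set (Xs h C), IsOpen U ∧ x ∈ U ∧ U.Countable :=
    locallyCountable_Xs hC hA countable_Om
  refine ⟨Xs h C, inferInstance, inferInstance, hPN, hfin, hcs, hlc, fun hCS => ?_⟩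
  have := hPN
  let T : Set (ℕ → Xs h C) := {f | ∀ i, f i = f 0}
  have hT : IsClosed T := by
    have : T = ⋂ i, {f | f i = f 0} := by ext f; simp [T]
    rw [this]
    exact isClosed_iInter fun i => isClosed_eq (continuous_apply i) (continuous_apply 0)
  have h1 := Pool.Agent.CpPN.countable_LC hCS T hT
  have h2 : LC T = Set.univ := by
    refine eq_univ_of_forall fun z => ?_
    obtain ⟨U, hU, hzU, hUc⟩ := hlc (z.1 0)
    refine ⟨{z' : T | z'.1 0 ∈ U}, hU.preimage ((continuous_apply 0).comp continuous_subtype_val),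
      hzU, ?_⟩
    refine MapsTo.countable_of_injOn (f := fun z' : T => z'.1 0) (t := U) (fun z' hz' => hz') ?_ hUc
    intro z' _ z'' _ hzz
    refine Subtype.ext (funext fun i => ?_)
    rw [z'.2 i, z''.2 i]
    exact hzz
  rw [h2] at h1
  have h3 : (Set.univ : Set (Xs h C)).Countable := by
    refine (h1.image fun z : T => z.1 0).mono fun x _ => ?_
    exact ⟨⟨fun _ => x, fun _ => rfl⟩, Set.mem_univ _, rfl⟩
  have h4 : (Set.univ : Set (Om × ℕ)).Countable := h3
  have h5 : (Set.univ : Set Om).Countable := by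
    refine (h4.image Prod.fst).mono ?_
    intro β _
    exact ⟨(β, 0), Set.mem_univ _, rfl⟩
  exact not_countable_univ h5

end card

end Pool.Agent.CpCH
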