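import Mathlib

/-!
# Baire category in `2^A`, and a transfinite recursion lemma
-/

set_option autoImplicit false
open Set Topology

namespace Pool.Agent.CpCH

section cantor
variable {A : Type*}

lemma isOpen_coord (x : A) (b : Bool) : IsOpen {a : A → Bool | a x = b} := by
  have h : Continuous fun a : A → Bool => a x := continuous_apply x
  exact (isOpen_discrete ({b} : Set Bool)).preimage h

lemma exists_mem_of_dense {O : Set (A → Bool)} (hO : Dense O) (F : Finset A) (v : A → Bool) :
    ∃ a ∈ O, ∀ x ∈ F, a x = v x := by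
  have h1 : IsOpen {a : A → Bool | ∀ x ∈ F, a x = v x} := by
    have : {a : A → Bool | ∀ x ∈ F, a x = v x} = ⋂ x ∈ F, {a | a x = v x} := by
      ext a; simp
    rw [this]
    exact isOpen_biInter_finset fun x _ => isOpen_coord x (v x)
  obtain ⟨a, ha, haO⟩ := hO.inter_open_nonempty _ h1 ⟨v, fun x _ => rfl⟩
  exact ⟨a, haO, ha⟩

lemma exists_finset_of_open {O : Set (A → Bool)} (hO : IsOpen O) {a : A → Bool} (ha : a ∈ O) :
    ∃ F : Finset A, ∀ a' : A → Bool, (∀ x ∈ F, a' x = a x) → a' ∈ O := by
  rw [isOpen_pi_iff] at hO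
  obtain ⟨I, u, hu, hI⟩ := hO a ha
  refine ⟨I, fun a' ha' => hI fun x hx => ?_⟩
  rw [ha' x hx]
  exact (hu x hx).2

lemma dense_of_exists {O : Set (A → Bool)}
    (h : ∀ (F : Finset A) (v : A → Bool), ∃ a ∈ O, ∀ x ∈ F, a x = v x) : Dense O := by
  refine dense_iff_inter_open.2 fun U hU hne => ?_
  obtain ⟨v, hv⟩ := hne
  obtain ⟨F, hF⟩ := exists_finset_of_open hU hv
  obtain ⟨a, ha, hav⟩ := h F v
  exact ⟨a, hF a hav, ha⟩

lemma isOpen_of_exists {O : Set (A → Bool)}
    (h : ∀ a ∈ O, ∃ F : Finset A, ∀ a' : A → Bool, (∀ x ∈ F, a' x = a x) → a' ∈ O) : IsOpen O := by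
  refine isOpen_iff_mem_nhds.2 fun a ha => ?_
  obtain ⟨F, hF⟩ := h a ha
  have h1 : IsOpen {a' : A → Bool | ∀ x ∈ F, a' x = a x} := by
    have : {a' : A → Bool | ∀ x ∈ F, a' x = a x} = ⋂ x ∈ F, {a' | a' x = a x} := by
      ext a; simp
    rw [this]
    exact isOpen_biInter_finset fun x _ => isOpen_coord x (a x)
  exact Filter.mem_of_superset (h1.mem_nhds fun x _ => rfl) hF

lemma mem_residual_of {O : Set (A → Bool)} (ho : IsOpen O)
    (h : ∀ (F : Finset A) (v : A → Bool), ∃ a ∈ O, ∀ x ∈ F, a x = v x) :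
    O ∈ residual (A → Bool) :=
  residual_of_dense_open ho (dense_of_exists h)

/-- a form of the Kuratowski-Ulam theorem -/
lemma residual_section {A' : Type*} [Countable A] (σ : A → A' ⊕ A) (hσ : Function.Injective σ)
    {O : Set (A → Bool)} (ho : IsOpen O) (hd : Dense O) :
    {E : A' → Bool | Dense {a : A → Bool | (fun z => Sum.elim E a (σ z)) ∈ O}} ∈
      residual (A' → Bool) := by
  classical
  have key : ∀ F F' : Finset A,
      {E : A' → Bool | ∃ a : A → Bool, (∀ z ∈ F, a z = decide (z ∈ F')) ∧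
        (fun z => Sum.elim E a (σ z)) ∈ O} ∈ residual (A' → Bool) := by
    intro F F'
    refine mem_residual_of (isOpen_of_exists ?_) ?_
    · rintro E ⟨a, ha, hO⟩
      obtain ⟨F₁, hF₁⟩ := exists_finset_of_open ho hO
      refine ⟨F₁.biUnion fun z => Sum.elim (fun y => {y}) (fun _ => ∅) (σ z), fun E' hE' =>
        ⟨a, ha, hF₁ _ fun z hz => ?_⟩⟩
      rcases hs : σ z with y | z'
      · show E' y = E y
        refine hE' y (Finset.mem_biUnion.2 ⟨z, hz, ?_⟩)
        rw [hs]
        exact Finset.mem_singleton_self y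
      · rfl
    · intro F₁ v
      let v' : A' ⊕ A → Bool := Sum.elim v fun z => decide (z ∈ F')
      let Φ : Finset (A' ⊕ A) := F₁.disjSum F
      obtain ⟨a, haO, ha⟩ := exists_mem_of_dense hd (Φ.preimage σ hσ.injOn) (fun z => v' (σ z))
      let y : A' ⊕ A → Bool := Function.extend σ a v'
      have hy : ∀ z, y (σ z) = a z := fun z => hσ.extend_apply a v' z
      have hyΦ : ∀ s ∈ Φ, y s = v' s := by
        intro s hs
        by_cases hr : ∃ z, σ z = s
        · obtain ⟨z, rfl⟩ := hr
          rw [hy, ha z (Finset.mem_preimage.2 hs)]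
        · exact Function.extend_apply' _ _ _ hr
      refine ⟨fun x => y (Sum.inl x), ⟨fun z => y (Sum.inr z), ?_, ?_⟩, ?_⟩
      · intro z hz
        exact hyΦ _ (Finset.inr_mem_disjSum.2 hz)
      · have : (fun z => Sum.elim (fun x => y (Sum.inl x)) (fun z => y (Sum.inr z)) (σ z)) = a := by
          funext z
          rw [← hy z]
          rcases σ z with s | s <;> rfl
        rw [this]; exact haO
      · intro x hx
        exact hyΦ _ (Finset.inl_mem_disjSum.2 hx)
  have h2 : (⋂ p : Finset A × Finset A, {E : A' → Bool | ∃ a : A → Bool,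
      (∀ z ∈ p.1, a z = decide (z ∈ p.2)) ∧ (fun z => Sum.elim E a (σ z)) ∈ O}) ∈
      residual (A' → Bool) := countable_iInter_mem.2 fun p => key p.1 p.2
  refine Filter.mem_of_superset h2 fun E hE => dense_of_exists fun F v => ?_
  obtain ⟨a, ha, haO⟩ := mem_iInter.1 hE (F, F.filter fun z => v z = true)
  refine ⟨a, haO, fun z hz => ?_⟩
  rw [ha z hz]
  simp [hz]

/-- a nonmeagre set meets every residual set -/
lemma exists_of_not_isMeagre {P G : Set (A → Bool)} (hP : ¬ IsMeagre P)
    (hG : G ∈ residual (A → Bool)) : ∃ a ∈ G, a ∈ P := by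
  by_contra h
  push Not at h
  refine hP ?_
  refine Filter.mem_of_superset hG fun a ha => h a ha

lemma exists_of_residual {G : Set (A → Bool)} (hG : G ∈ residual (A → Bool)) : ∃ a, a ∈ G := by
  have h1 : Dense G := dense_of_mem_residual hG
  obtain ⟨a, ha, -⟩ := exists_mem_of_dense h1 ∅ (fun _ => false)
  exact ⟨a, ha⟩

/-- dense open sets avoiding a meagre set -/
lemma exists_seq_of_isMeagre {P : Set (A → Bool)} (hP : IsMeagre P) :
    ∃ O : ℕ → Set (A → Bool), (∀ k, IsOpen (O k) ∧ Dense (O k)) ∧ ∀ a ∈ P, ∃ k, a ∉ O k := by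
  have h1 : Pᶜ ∈ residual (A → Bool) := hP
  obtain ⟨S, hSo, hSd, hSc, hS⟩ := mem_residual_iff.1 h1
  rcases S.eq_empty_or_nonempty with he | hne
  · refine ⟨fun _ => univ, fun _ => ⟨isOpen_univ, dense_univ⟩, fun a ha => ?_⟩
    exfalso
    have : a ∈ ⋂₀ S := by rw [he]; simp
    exact hS this ha
  · obtain ⟨O, hO⟩ := hSc.exists_eq_range hne
    refine ⟨O, fun k => ⟨hSo _ (by rw [hO]; exact mem_range_self k),
      hSd _ (by rw [hO]; exact mem_range_self k)⟩, fun a ha => ?_⟩
    by_contra hcon
    push Not at hcon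
    have : a ∈ ⋂₀ S := by
      rw [hO]
      rintro _ ⟨k, rfl⟩
      exact hcon k
    exact hS this ha

end cantor

/-- Transfinite recursion with requirements. -/
lemma exists_rec {Ω A V : Type*} [LinearOrder Ω] [WellFoundedLT Ω] (lvl : A → Ω)
    (Req : Ω → (A → V) → Prop) (v0 : V)
    (hinv : ∀ β C C', (∀ a, lvl a ≤ β → C a = C' a) → Req β C → Req β C')
    (hex : ∀ β C, (∀ γ < β, Req γ C) → ∃ C', (∀ a, lvl a < β → C' a = C a) ∧ Req β C') :
    ∃ C, ∀ β, Req β C := by
  classical
  let step : ∀ β : Ω, (∀ γ : Ω, γ < β → (A → V)) → (A → V) := fun β F =>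
    if H : ∃ C', (∀ a, lvl a < β → C' a = (fun a => if h : lvl a < β then F (lvl a) h a else v0) a) ∧
      Req β C' then H.choose else fun _ => v0
  let F : Ω → (A → V) := (wellFounded_lt (α := Ω)).fix step
  have hF : ∀ β, F β = step β (fun γ _ => F γ) := fun β => WellFounded.fix_eq _ _ _
  let C : A → V := fun a => F (lvl a) a
  have main : ∀ β, (∀ a, lvl a < β → F β a = C a) ∧ Req β (F β) := by
    intro β
    induction β using WellFoundedLT.induction with
    | ind β ih =>
      have h1 : ∀ γ < β, Req γ (fun a => if h : lvl a < β then F (lvl a) a else v0) := by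
        intro γ hγ
        refine hinv γ (F γ) _ (fun a ha => ?_) (ih γ hγ).2
        have h2 : lvl a < β := lt_of_le_of_lt ha hγ
        simp only [h2, dif_pos]
        rcases ha.lt_or_eq with h | h
        · exact (ih γ hγ).1 a h
        · rw [h]
      obtain ⟨C', hC'⟩ := hex β _ h1
      have H : ∃ C', (∀ a, lvl a < β → C' a =
          (fun a => if h : lvl a < β then F (lvl a) a else v0) a) ∧ Req β C' := ⟨C', hC'⟩
      have h3 : F β = H.choose := by
        rw [hF β]
        exact dif_pos H
      rw [h3]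
      refine ⟨fun a ha => ?_, H.choose_spec.2⟩
      rw [H.choose_spec.1 a ha]
      simp only [ha, dif_pos]
      rfl
  refine ⟨C, fun β => hinv β (F β) C (fun a ha => ?_) (main β).2⟩
  rcases ha.lt_or_eq with h | h
  · exact (main β).1 a h
  · show F β a = F (lvl a) a
    rw [h]

/-- finite subsets of a countable set -/
lemma countable_finset {α : Type*} {S : Set α} (hS : S.Countable) :
    {F : Finset α | ∀ x ∈ F, x ∈ S}.Countable := by
  have h1 := Set.countable_ofPred_finite_subset hS
  refine h1.preimage_of_injOn (f := fun F : Finset α => (F : Set α)) ?_ |>.mono ?_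
  · exact Finset.coe_injective.injOn
  · intro F hF
    exact ⟨F.finite_toSet, fun x hx => hF x hx⟩

/-- finitely supported partial functions into a countable set -/
lemma countable_fs {α : Type*} {S : Set α} (hS : S.Countable) :
    {e : ℕ → Option α | {i | e i ≠ none}.Finite ∧ ∀ i j, e i = some j → j ∈ S}.Countable := by
  classical
  have : Countable S := hS.to_subtype
  have h1 : (range fun (l : List (Option S)) (i : ℕ) => ((l[i]?).join).map Subtype.val).Countable :=
    countable_range _
  refine h1.mono ?_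
  rintro e ⟨hfin, hS'⟩
  obtain ⟨N, hN⟩ : ∃ N, ∀ i, e i ≠ none → i < N := by
    obtain ⟨N, hN⟩ := hfin.bddAbove
    exact ⟨N + 1, fun i hi => Nat.lt_succ_of_le (hN hi)⟩
  have h2 : ∀ i, ∃ o : Option S, o.map Subtype.val = e i := by
    intro i
    rcases he : e i with _ | j
    · exact ⟨none, rfl⟩
    · exact ⟨some ⟨j, hS' i j he⟩, rfl⟩
  choose o ho using h2
  refine ⟨(List.range N).map o, ?_⟩
  funext i
  by_cases hi : i < N
  · have : ((List.range N).map o)[i]? = some (o i) := by
      simp [hi]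
    simp only [this, Option.join_some, ho]
  · have : ((List.range N).map o)[i]? = none := by
      simp [hi]
    simp only [this, Option.join_none, Option.map_none]
    by_contra h
    exact hi (hN i fun h' => h h'.symm)

end Pool.Agent.CpCH
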