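import Pool.Agent.CpCH.Step

/-!
# Combinatorial consequences of the requirements
-/

set_option autoImplicit false
open Set Topology

namespace Pool.Agent.CpCH

universe u

variable {Ω : Type u} [LinearOrder Ω] {h : Ω → Option (Task Ω)} {h' : Ω → ℕ → ℕ → Ω × ℕ}
  {C : Ω × ℕ → Ω × ℕ → Bool}

lemma decide_eq_bool {P : Prop} [Decidable P] {b : Bool} (h : P ↔ b = true) : decide P = b := by
  cases b <;> simp_all

lemma Bv_of_le {x j : Ω × ℕ} (hxj : x.1 ≤ j.1) : Bv h C x j = C x j := by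
  unfold Bv
  rw [if_neg (fun h => absurd h.2 (not_lt.2 hxj))]

lemma Bv_of_ne {x j : Ω × ℕ} (hj : h j.1 ≠ none) : Bv h C x j = C x j := by
  unfold Bv
  rw [if_neg (fun h => hj h.1)]

lemma Bv_of_none {x j : Ω × ℕ} (hj : h j.1 = none) (hlt : j.1 < x.1) : Bv h C x j = false := by
  unfold Bv
  rw [if_pos ⟨hj, hlt⟩]

lemma bc_of_lt {β : Ω} {x j : Ω × ℕ} (hx : x.1 < β) (hj : j.1 < β) :
    bc h C β x j = Bv h C x j := by
  unfold bc
  rw [if_pos ⟨hx, hj⟩]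

lemma ev_ee {β : Ω} {x : Ω × ℕ} (hx : x.1 < β) (i : ℕ) : ev (ee C β) x i = C x (β, i) := by
  rw [ev_of_lt _ hx]
  rfl

/-- a bound for the levels of a finite set -/
lemma exists_level_bound (γ : Ω) (F : Finset (Ω × ℕ)) : ∃ β, γ ≤ β ∧ ∀ x ∈ F, x.1 ≤ β := by
  classical
  have : Nonempty Ω := ⟨γ⟩
  obtain ⟨M, hM⟩ := (insert γ (F.image Prod.fst)).exists_le
  exact ⟨M, hM γ (Finset.mem_insert_self _ _), fun x hx =>
    hM _ (Finset.mem_insert_of_mem (Finset.mem_image_of_mem _ hx))⟩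

/-- a strict bound below `γ` for the levels of a finite set below `γ` -/
lemma exists_level_bound_lt {γ β₀ : Ω} (hβ₀ : β₀ < γ) (F : Finset (Ω × ℕ))
    (hF : ∀ x ∈ F, x.1 < γ) : ∃ β, β₀ ≤ β ∧ β < γ ∧ ∀ x ∈ F, x.1 ≤ β := by
  classical
  obtain ⟨M, hM, hmax⟩ := (insert β₀ (F.image Prod.fst)).exists_max_image id
    ⟨β₀, Finset.mem_insert_self _ _⟩
  refine ⟨M, hmax β₀ (Finset.mem_insert_self _ _), ?_, fun x hx =>
    hmax _ (Finset.mem_insert_of_mem (Finset.mem_image_of_mem _ hx))⟩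
  rcases Finset.mem_insert.1 hM with h | h
  · rw [h]; exact hβ₀
  · obtain ⟨x, hx, rfl⟩ := Finset.mem_image.1 h
    exact hF x hx

variable (hC : ∀ β, Req h h' β C)
include hC

lemma exists_set (β : Ω) (F F' : Finset (Ω × ℕ)) (hF : ∀ x ∈ F, x.1 < β)
    (hF' : ∀ x ∈ F', x.1 < β) (m : ℕ) : ∃ i, m ≤ i ∧ ∀ x ∈ F, C x (β, i) = decide (x ∈ F') := by
  have h1 : {A : Sp β | ∃ i, m ≤ i ∧ ∀ x ∈ F, ev A x i = decide (x ∈ F')} ∈
      base h h' β (bc h C β) := Or.inl (Or.inl (Or.inr ⟨F, F', m, hF, hF', rfl⟩))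
  obtain ⟨i, hi, hi'⟩ := (hC β).s3 _ h1
  exact ⟨i, hi, fun x hx => by rw [← hi' x hx, ev_ee (hF x hx)]⟩

lemma s2_list {γ : Ω} {O : Set (Sp γ)} (hO : O ∈ base h h' γ (bc h C γ)) (l : List (Ω × ℕ))
    (hl : l.Nodup) (hlγ : ∀ j ∈ l, γ ≤ j.1) : ∃ A : Sp γ, mrg C (fun i => l[i]?) A ∈ O := by
  classical
  obtain ⟨β, hβ, hlβ⟩ := exists_level_bound γ l.toFinset
  have h1 := (hC β).s2 γ hβ O hO (fun i => l[i]?) ?_ ?_ ?_
  · obtain ⟨A, hA, -⟩ := exists_mem_of_dense h1 ∅ (fun _ => false)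
    exact ⟨A, hA⟩
  · refine (Set.finite_lt_nat l.length).subset fun i hi => ?_
    by_contra hcon
    exact hi (List.getElem?_eq_none (not_lt.1 hcon))
  · intro i j hij
    have : j ∈ l := List.mem_of_getElem? hij
    exact ⟨hlγ j this, hlβ j (List.mem_toFinset.2 this)⟩
  · intro i i' j hi hi'
    obtain ⟨h1, h2⟩ := List.getElem?_eq_some_iff.1 hi
    obtain ⟨h3, h4⟩ := List.getElem?_eq_some_iff.1 hi'
    exact (hl.getElem_inj_iff (hi := h1) (hj := h3)).1 (h2.trans h4.symm)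

/-- Lemma E -/
lemma exists_point (γ : Ω) (K : Finset (Ω × ℕ)) (s : Ω × ℕ → Bool)
    (hs : ∀ j ∈ K, j.1 < γ → h j.1 = none → s j = false) :
    ∃ x : Ω × ℕ, γ ≤ x.1 ∧ ∀ j ∈ K, Bv h C x j = s j := by
  classical
  obtain ⟨β, hβ, hKβ⟩ : ∃ β, γ ≤ β ∧ ∀ j ∈ K, j.1 < γ ∨ β ≤ j.1 := by
    rcases (K.filter fun j => γ ≤ j.1).eq_empty_or_nonempty with he | hne
    · refine ⟨γ, le_rfl, fun j hj => ?_⟩
      rcases lt_or_ge j.1 γ with h | h
      · exact Or.inl h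
      · exact Or.inr h
    · obtain ⟨j₀, hj₀, hmin⟩ := (K.filter fun j => γ ≤ j.1).exists_min_image (fun j => j.1) hne
      refine ⟨j₀.1, (Finset.mem_filter.1 hj₀).2, fun j hj => ?_⟩
      rcases lt_or_ge j.1 γ with h | h
      · exact Or.inl h
      · exact Or.inr (hmin j (Finset.mem_filter.2 ⟨hj, h⟩))
  let K₁ := K.filter fun j => j.1 ≤ β
  let K₂ := K.filter fun j => β < j.1
  have hN := (hC β).p3 K₁ (fun j hj => (Finset.mem_filter.1 hj).2) s
  have hBN : ∀ n : ℕ, (∀ j ∈ K₁, C (β, n) j = s j) → ∀ j ∈ K₁, Bv h C (β, n) j = s j := by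
    intro n hn j hj
    have hj' := Finset.mem_filter.1 hj
    by_cases hc : h j.1 = none ∧ j.1 < β
    · rw [Bv_of_none hc.1 hc.2]
      rcases hKβ j hj'.1 with h1 | h1
      · exact (hs j hj'.1 h1 hc.1).symm
      · exact absurd hc.2 (not_lt.2 h1)
    · unfold Bv
      rw [if_neg hc]
      exact hn j hj
  rcases K₂.eq_empty_or_nonempty with he | hne
  · obtain ⟨n, hn⟩ := hN.nonempty
    refine ⟨(β, n), hβ, fun j hj => hBN n hn j (Finset.mem_filter.2 ⟨hj, ?_⟩)⟩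
    by_contra hcon
    have : j ∈ K₂ := Finset.mem_filter.2 ⟨hj, not_le.1 hcon⟩
    rw [he] at this
    exact absurd this (Finset.notMem_empty j)
  · obtain ⟨j₀, hj₀, hmin⟩ := K₂.exists_min_image (fun j => j.1) hne
    have hj₀β : β < j₀.1 := (Finset.mem_filter.1 hj₀).2
    let l := K₂.toList
    let S : Finset ℕ := (Finset.range l.length).filter fun i => ∃ hi : i < l.length, s l[i] = true
    have hO : {A : Sp j₀.1 | ∃ n : ℕ, (∀ j ∈ K₁, bc h C j₀.1 (β, n) j =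
        decide (j ∈ K₁.filter fun j => s j = true)) ∧
        ∀ i < l.length, ev A (β, n) i = decide (i ∈ S)} ∈ base h h' j₀.1 (bc h C j₀.1) := by
      refine Or.inl (Or.inr ⟨β, K₁, K₁.filter fun j => s j = true, l.length, S, hj₀β,
        fun j hj => (Finset.mem_filter.1 hj).2.trans_lt hj₀β,
        fun j hj => ((Finset.mem_filter.1 (Finset.mem_filter.1 hj).1).2.trans_lt hj₀β), ?_, rfl⟩)
      refine hN.mono fun n hn j hj => ?_
      rw [bc_of_lt (show ((β, n) : Ω × ℕ).1 < j₀.1 from hj₀β)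
        ((Finset.mem_filter.1 hj).2.trans_lt hj₀β), hBN n hn j hj]
      have : (j ∈ K₁.filter fun j => s j = true) ↔ s j = true := by
        rw [Finset.mem_filter]; exact ⟨fun h => h.2, fun h => ⟨hj, h⟩⟩
      rw [decide_eq_bool this]
    obtain ⟨A, n, hn1, hn2⟩ := s2_list hC hO l K₂.nodup_toList
      (fun j hj => hmin j (Finset.mem_toList.1 hj))
    refine ⟨(β, n), hβ, fun j hj => ?_⟩
    by_cases hjβ : j.1 ≤ β
    · have hjK : j ∈ K₁ := Finset.mem_filter.2 ⟨hj, hjβ⟩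
      have h1 := hn1 j hjK
      rw [bc_of_lt (show ((β, n) : Ω × ℕ).1 < j₀.1 from hj₀β) (hjβ.trans_lt hj₀β)] at h1
      rw [h1]
      have : (j ∈ K₁.filter fun j => s j = true) ↔ s j = true := by
        rw [Finset.mem_filter]; exact ⟨fun h => h.2, fun h => ⟨hjK, h⟩⟩
      rw [decide_eq_bool this]
    · have hjK : j ∈ l := Finset.mem_toList.2 (Finset.mem_filter.2 ⟨hj, not_le.1 hjβ⟩)
      obtain ⟨i, hi, hij⟩ := List.getElem_of_mem hjK
      have h1 := hn2 i hi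
      rw [ev_of_lt _ (show ((β, n) : Ω × ℕ).1 < j₀.1 from hj₀β)] at h1
      have h2 : mrg C (fun i => l[i]?) A (⟨(β, n), hj₀β⟩, i) = C (β, n) j := by
        unfold mrg
        simp only [List.getElem?_eq_getElem hi, hij]
      rw [h2] at h1
      rw [Bv_of_le (show ((β, n) : Ω × ℕ).1 ≤ j.1 from (not_le.1 hjβ).le), h1]
      have : i ∈ S ↔ s j = true := by
        simp only [S, Finset.mem_filter, Finset.mem_range]
        constructor
        · rintro ⟨_, hi', h3⟩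
          rw [← hij]; exact h3
        · intro h3
          exact ⟨hi, hi, by rw [hij]; exact h3⟩
      rw [decide_eq_bool this]

/-- Lemma Q -/
lemma exists_old_point {β : Ω} (hβ : ∃ β', β' < β) (x : Ω × ℕ) (G : Finset (Ω × ℕ))
    (hG : ∀ j ∈ G, j.1 ≤ β) : ∃ y : Ω × ℕ, y.1 < β ∧ ∀ j ∈ G, Bv h C y j = Bv h C x j := by
  classical
  rcases lt_or_ge x.1 β with hx | hx
  · exact ⟨x, hx, fun _ _ => rfl⟩
  obtain ⟨β₁, hβ₁⟩ := hβ
  let G₁ := G.filter fun j => j.1 < β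
  obtain ⟨β', -, hβ', hG₁⟩ := exists_level_bound_lt hβ₁ G₁ (fun j hj => (Finset.mem_filter.1 hj).2)
  have hN := (hC β').p3 G₁ hG₁ (Bv h C x)
  have hBN : ∀ n : ℕ, (∀ j ∈ G₁, C (β', n) j = Bv h C x j) →
      ∀ j ∈ G₁, Bv h C (β', n) j = Bv h C x j := by
    intro n hn j hj
    by_cases hc : h j.1 = none ∧ j.1 < β'
    · rw [Bv_of_none hc.1 hc.2, Bv_of_none hc.1 ((Finset.mem_filter.1 hj).2.trans_le hx)]
    · rw [← hn j hj]
      unfold Bv
      rw [if_neg hc]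
  let m := (G.sup fun j => j.2) + 1
  let S : Finset ℕ := (Finset.range m).filter fun i => Bv h C x (β, i) = true
  have hO : {A : Sp β | ∃ n : ℕ, (∀ j ∈ G₁, bc h C β (β', n) j =
      decide (j ∈ G₁.filter fun j => Bv h C x j = true)) ∧
      ∀ i < m, ev A (β', n) i = decide (i ∈ S)} ∈ base h h' β (bc h C β) := by
    refine Or.inl (Or.inr ⟨β', G₁, G₁.filter fun j => Bv h C x j = true, m, S, hβ',
      fun j hj => (Finset.mem_filter.1 hj).2,
      fun j hj => (Finset.mem_filter.1 (Finset.mem_filter.1 hj).1).2, ?_, rfl⟩)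
    refine hN.mono fun n hn j hj => ?_
    rw [bc_of_lt (show ((β', n) : Ω × ℕ).1 < β from hβ') (Finset.mem_filter.1 hj).2, hBN n hn j hj]
    have : (j ∈ G₁.filter fun j => Bv h C x j = true) ↔ Bv h C x j = true := by
      rw [Finset.mem_filter]; exact ⟨fun h => h.2, fun h => ⟨hj, h⟩⟩
    rw [decide_eq_bool this]
  obtain ⟨n, hn1, hn2⟩ := (hC β).s3 _ hO
  refine ⟨(β', n), hβ', fun j hj => ?_⟩
  rcases (hG j hj).lt_or_eq with hlt | heq
  · have hj₁ : j ∈ G₁ := Finset.mem_filter.2 ⟨hj, hlt⟩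
    have h1 := hn1 j hj₁
    rw [bc_of_lt (show ((β', n) : Ω × ℕ).1 < β from hβ') hlt] at h1
    rw [h1]
    have : (j ∈ G₁.filter fun j => Bv h C x j = true) ↔ Bv h C x j = true := by
      rw [Finset.mem_filter]; exact ⟨fun h => h.2, fun h => ⟨hj₁, h⟩⟩
    rw [decide_eq_bool this]
  · have hjm : j.2 < m := Nat.lt_succ_of_le (Finset.le_sup (f := fun j : Ω × ℕ => j.2) hj)
    have h1 := hn2 j.2 hjm
    rw [ev_ee (show ((β', n) : Ω × ℕ).1 < β from hβ')] at h1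
    have hjj : j = (β, j.2) := Prod.ext heq rfl
    rw [hjj, Bv_of_le (show ((β', n) : Ω × ℕ).1 ≤ ((β, j.2) : Ω × ℕ).1 from hβ'.le), h1]
    have : j.2 ∈ S ↔ Bv h C x (β, j.2) = true := by
      simp only [S, Finset.mem_filter, Finset.mem_range]
      exact ⟨fun h => h.2, fun h => ⟨hjm, h⟩⟩
    rw [decide_eq_bool this]

end Pool.Agent.CpCH
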