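import Pool.Agent.CpCH.Cat

/-!
# The requirements of the transfinite construction

Points and (indices of) clopen sets are both pairs `(β, n)`, with a level `β` in a well-ordered set
`Ω` of type `ω₁` and `n ∈ ℕ`. A matrix `C x j` says whether the point `x` belongs to the clopen set
`j`; the sets on a level `β` with `h β = none` are cut off above level `β`.
-/

set_option autoImplicit false
open Set Topology

namespace Pool.Agent.CpCH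

universe u

section types
variable (Ω : Type u)

/-- a basic open box in the space of functions `x k ↦ w x k` -/
abbrev Box := Finset ((Ω × ℕ) × ℕ × ℚ × ℚ)

/-- a finite pattern `(G, G₁, H, H₁, k, p, q)` -/
abbrev Pat := Finset (Ω × ℕ) × Finset (Ω × ℕ) × Finset ℕ × Finset ℕ × ℕ × ℚ × ℚ

/-- a task -/
abbrev Task := (ℕ → Box Ω) × Box Ω × Finset (Pat Ω)

end types

variable {Ω : Type u} [LinearOrder Ω]

/-- the space of sequences of subsets of the set of points below level `β` -/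
abbrev Sp (β : Ω) := {x : Ω × ℕ // x.1 < β} × ℕ → Bool

open Classical in
/-- extension by `false` -/
noncomputable def ev {β : Ω} (A : Sp β) (x : Ω × ℕ) (i : ℕ) : Bool :=
  if hx : x.1 < β then A (⟨x, hx⟩, i) else false

open Classical in
/-- the matrix with the sets of type A cut off -/
noncomputable def Bv (h : Ω → Option (Task Ω)) (C : Ω × ℕ → Ω × ℕ → Bool) (x j : Ω × ℕ) : Bool :=
  if h j.1 = none ∧ j.1 < x.1 then false else C x j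

open Classical in
/-- the part below `β` -/
noncomputable def bc (h : Ω → Option (Task Ω)) (C : Ω × ℕ → Ω × ℕ → Bool) (β : Ω)
    (x j : Ω × ℕ) : Bool :=
  if x.1 < β ∧ j.1 < β then Bv h C x j else false

/-- the sets of level `β` on the points below `β` -/
def ee (C : Ω × ℕ → Ω × ℕ → Bool) (β : Ω) : Sp β := fun z => C z.1 (β, z.2)

/-- `y` is a point below `β` matching the pattern -/
def mt (β : Ω) (b : Ω × ℕ → Ω × ℕ → Bool) (A : Sp β) (G : Finset (Ω × ℕ)) (g : Ω × ℕ → Bool)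
    (H : Finset ℕ) (u : ℕ → Bool) (y : Ω × ℕ) : Prop :=
  y.1 < β ∧ (∀ j ∈ G, b y j = g j) ∧ ∀ i ∈ H, ev A y i = u i

/-- `w` is continuous on the points below `β`, and generically continuous beyond -/
structure Rel (h : Ω → Option (Task Ω)) (β : Ω) (b : Ω × ℕ → Ω × ℕ → Bool) (A : Sp β)
    (w : Ω × ℕ → ℕ → ℝ) : Prop where
  cont : ∀ y : Ω × ℕ, y.1 < β → ∀ k m : ℕ, ∃ G : Finset (Ω × ℕ), (∀ j ∈ G, j.1 < β) ∧
    ∃ H : Finset ℕ, ∀ y', mt β b A G (b y) H (ev A y) y' → |w y' k - w y k| < 1 / ((m : ℝ) + 1)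
  ext : ∀ (G : Finset (Ω × ℕ)) (g : Ω × ℕ → Bool) (H : Finset ℕ) (u : ℕ → Bool) (k m : ℕ),
    (∀ j ∈ G, j.1 < β) → (∀ j ∈ G, h j.1 = none → g j = false) →
    ∃ (G' : Finset (Ω × ℕ)) (g' : Ω × ℕ → Bool) (H' : Finset ℕ) (u' : ℕ → Bool),
      G ⊆ G' ∧ H ⊆ H' ∧ (∀ j ∈ G', j.1 < β) ∧ (∀ j ∈ G', h j.1 = none → g' j = false) ∧
      (∀ j ∈ G, g' j = g j) ∧ (∀ i ∈ H, u' i = u i) ∧
      ∀ y y', mt β b A G' g' H' u' y → mt β b A G' g' H' u' y' →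
        |w y k - w y' k| < 1 / ((m : ℝ) + 1)

/-- `w` lies in the closed set given by the boxes of the task, and has the finite properties of
the task -/
structure Sat (β : Ω) (b : Ω × ℕ → Ω × ℕ → Bool) (A : Sp β) (w : Ω × ℕ → ℕ → ℝ) (t : Task Ω) :
    Prop where
  box : ∀ i, ¬ ∀ c ∈ t.1 i, ((c.2.2.1 : ℚ) : ℝ) < w c.1 c.2.1 ∧ w c.1 c.2.1 < ((c.2.2.2 : ℚ) : ℝ)
  pts : ∀ c ∈ t.2.1, ((c.2.2.1 : ℚ) : ℝ) < w c.1 c.2.1 ∧ w c.1 c.2.1 < ((c.2.2.2 : ℚ) : ℝ)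
  pat : ∀ c ∈ t.2.2, ∀ y, mt β b A c.1 (fun j => decide (j ∈ c.2.1)) c.2.2.1
    (fun i => decide (i ∈ c.2.2.2.1)) y →
      ((c.2.2.2.2.2.1 : ℚ) : ℝ) < w y c.2.2.2.2.1 ∧ w y c.2.2.2.2.1 < ((c.2.2.2.2.2.2 : ℚ) : ℝ)

/-- the task is about things below `β` -/
structure Supp (t : Task Ω) (β : Ω) : Prop where
  box : ∀ i, ∀ c ∈ t.1 i, c.1.1 < β
  pts : ∀ c ∈ t.2.1, c.1.1 < β
  pat : ∀ c ∈ t.2.2, ∀ j ∈ c.1, j.1 < β

/-- the sequences of sets for which the task has a solution -/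
def Pset (h : Ω → Option (Task Ω)) (β : Ω) (b : Ω × ℕ → Ω × ℕ → Bool) (t : Task Ω) : Set (Sp β) :=
  {A | ∃ w, Rel h β b A w ∧ Sat β b A w t}

/-- the task at level `β` is solved by `w` -/
def Sol (h : Ω → Option (Task Ω)) (β : Ω) (b : Ω × ℕ → Ω × ℕ → Bool) (A : Sp β)
    (w : Ω × ℕ → ℕ → ℝ) : Prop :=
  ∃ t, h β = some t ∧ Supp t β ∧ Rel h β b A w ∧ Sat β b A w t

open Classical in
/-- the chosen solution -/
noncomputable def Wf (h : Ω → Option (Task Ω)) (β : Ω) (b : Ω × ℕ → Ω × ℕ → Bool) (A : Sp β) :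
    Ω × ℕ → ℕ → ℝ :=
  if H : ∃ w, Sol h β b A w then H.choose else fun _ _ => 0

lemma Wf_spec {h : Ω → Option (Task Ω)} {β : Ω} {b : Ω × ℕ → Ω × ℕ → Bool} {A : Sp β}
    (H : ∃ w, Sol h β b A w) : Sol h β b A (Wf h β b A) := by
  unfold Wf
  rw [dif_pos H]
  exact H.choose_spec

open Classical in
/-- dense open sets avoiding a meagre set -/
noncomputable def mgO {A : Type*} (P : Set (A → Bool)) : ℕ → Set (A → Bool) :=
  if H : IsMeagre P then (exists_seq_of_isMeagre H).choose else fun _ => univ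

/-- the dense open sets considered at level `γ` -/
def base (h : Ω → Option (Task Ω)) (h' : Ω → ℕ → ℕ → Ω × ℕ) (γ : Ω)
    (b : Ω × ℕ → Ω × ℕ → Bool) : Set (Set (Sp γ)) :=
  {O | ∃ t, h γ = some t ∧ IsMeagre (Pset h γ b t) ∧ ∃ k, O = mgO (Pset h γ b t) k} ∪
  {O | ∃ (F F' : Finset (Ω × ℕ)) (m : ℕ), (∀ x ∈ F, x.1 < γ) ∧ (∀ x ∈ F', x.1 < γ) ∧
    O = {A | ∃ i, m ≤ i ∧ ∀ x ∈ F, ev A x i = decide (x ∈ F')}} ∪
  {O | ∃ (β' : Ω) (G G' : Finset (Ω × ℕ)) (m : ℕ) (s : Finset ℕ), β' < γ ∧ (∀ x ∈ G, x.1 < γ) ∧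
    (∀ x ∈ G', x.1 < γ) ∧ {n : ℕ | ∀ j ∈ G, b (β', n) j = decide (j ∈ G')}.Infinite ∧
    O = {A | ∃ n : ℕ, (∀ j ∈ G, b (β', n) j = decide (j ∈ G')) ∧
      ∀ i < m, ev A (β', n) i = decide (i ∈ s)}} ∪
  {O | ∃ (β' : Ω) (r m : ℕ) (s : Finset (ℕ × ℕ)), β' < γ ∧ (∀ i a, (h' β' i a).1 < γ) ∧
    (∀ i a i' a', a < r → a' < r → h' β' i a = h' β' i' a' → i = i' ∧ a = a') ∧
    O = {A | ∃ i : ℕ, ∀ a < r, ∀ l < m, ev A (h' β' i a) l = decide ((a, l) ∈ s)}}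

/-- fixed coordinates `e`, the others from `A` -/
def mrg {γ : Ω} (C : Ω × ℕ → Ω × ℕ → Bool) (e : ℕ → Option (Ω × ℕ)) (A : Sp γ) : Sp γ :=
  fun z => match e z.2 with
    | some j => C z.1 j
    | none => A z

/-- the requirements at level `β` -/
structure Req (h : Ω → Option (Task Ω)) (h' : Ω → ℕ → ℕ → Ω × ℕ) (β : Ω)
    (C : Ω × ℕ → Ω × ℕ → Bool) : Prop where
  s1 : ∀ t, h β = some t → ¬ IsMeagre (Pset h β (bc h C β) t) → ee C β ∈ Pset h β (bc h C β) t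
  s2 : ∀ γ ≤ β, ∀ O ∈ base h h' γ (bc h C γ), ∀ e : ℕ → Option (Ω × ℕ), {i | e i ≠ none}.Finite →
    (∀ i j, e i = some j → γ ≤ j.1 ∧ j.1 ≤ β) → (∀ i i' j, e i = some j → e i' = some j → i = i') →
    Dense {A : Sp γ | mrg C e A ∈ O}
  s3 : ∀ O ∈ base h h' β (bc h C β), ee C β ∈ O
  p1 : ∀ γ ≤ β, (∃ w, Sol h γ (bc h C γ) (ee C γ) w) → ∀ n k m : ℕ, ∃ G : Finset (Ω × ℕ),
    (∀ j ∈ G, j.1 ≤ γ) ∧ ∀ y y' : Ω × ℕ, y.1 < γ → y'.1 < γ →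
      (∀ j ∈ G, Bv h C y j = Bv h C (β, n) j) → (∀ j ∈ G, Bv h C y' j = Bv h C (β, n) j) →
      |Wf h γ (bc h C γ) (ee C γ) y k - Wf h γ (bc h C γ) (ee C γ) y' k| < 1 / ((m : ℝ) + 1)
  p2 : ∀ γ ≤ β, ∀ β₀ β₁, {δ | β₀ < δ ∧ δ < γ ∧ h δ = h β₁}.Infinite →
    ∀ F : Finset (Ω × ℕ), (∀ x ∈ F, γ ≤ x.1 ∧ x.1 ≤ β) → ∀ (m : ℕ) (s : Ω × ℕ → ℕ → Bool),
    {δ | (β₀ < δ ∧ δ < γ ∧ h δ = h β₁) ∧ ∀ x ∈ F, ∀ i < m, C x (δ, i) = s x i}.Infinite
  p3 : ∀ G : Finset (Ω × ℕ), (∀ j ∈ G, j.1 ≤ β) → ∀ g : Ω × ℕ → Bool,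
    {n : ℕ | ∀ j ∈ G, C (β, n) j = g j}.Infinite

/-- the level of a cell -/
def lvl (a : (Ω × ℕ) × (Ω × ℕ)) : Ω := max a.1.1 a.2.1

section agree
variable {h : Ω → Option (Task Ω)} {h' : Ω → ℕ → ℕ → Ω × ℕ} {β : Ω} {C C' : Ω × ℕ → Ω × ℕ → Bool}

lemma Bv_congr {x j : Ω × ℕ} (hC : C x j = C' x j) : Bv h C x j = Bv h C' x j := by
  unfold Bv
  rw [hC]

lemma bc_congr (hC : ∀ x j : Ω × ℕ, x.1 < β → j.1 < β → C x j = C' x j) : bc h C β = bc h C' β := by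
  funext x j
  unfold bc
  by_cases hx : x.1 < β ∧ j.1 < β
  · rw [if_pos hx, if_pos hx, Bv_congr (hC x j hx.1 hx.2)]
  · rw [if_neg hx, if_neg hx]

lemma ee_congr (hC : ∀ x j : Ω × ℕ, x.1 < β → j.1 = β → C x j = C' x j) : ee C β = ee C' β := by
  funext z
  exact hC _ _ z.1.2 rfl

lemma mrg_congr {γ : Ω} (hγ : γ ≤ β) (hC : ∀ x j : Ω × ℕ, x.1 ≤ β → j.1 ≤ β → C x j = C' x j)
    {e : ℕ → Option (Ω × ℕ)} (he : ∀ i j, e i = some j → j.1 ≤ β) (A : Sp γ) :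
    mrg C e A = mrg C' e A := by
  funext z
  unfold mrg
  rcases hez : e z.2 with _ | j
  · rfl
  · exact hC _ _ ((z.1.2.le).trans hγ) (he _ _ hez)

theorem Req_congr (hC : ∀ x j : Ω × ℕ, x.1 ≤ β → j.1 ≤ β → C x j = C' x j)
    (hR : Req h h' β C) : Req h h' β C' := by
  have hbc : ∀ γ ≤ β, bc h C γ = bc h C' γ := fun γ hγ =>
    bc_congr fun x j hx hj => hC x j (hx.le.trans hγ) (hj.le.trans hγ)
  have hee : ∀ γ ≤ β, ee C γ = ee C' γ := fun γ hγ =>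
    ee_congr fun x j hx hj => hC x j (hx.le.trans hγ) (hj.le.trans hγ)
  constructor
  · rw [← hbc β le_rfl, ← hee β le_rfl]
    exact hR.s1
  · intro γ hγ O hO e hfin he hinj
    rw [← hbc γ hγ] at hO
    have := hR.s2 γ hγ O hO e hfin he hinj
    have h2 : {A : Sp γ | mrg C e A ∈ O} = {A : Sp γ | mrg C' e A ∈ O} := by
      ext A
      rw [mem_ofPred_eq, mem_ofPred_eq, mrg_congr hγ hC (fun i j hij => (he i j hij).2)]
    rw [← h2]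
    exact this
  · rw [← hbc β le_rfl, ← hee β le_rfl]
    exact hR.s3
  · intro γ hγ hS n k m
    rw [← hbc γ hγ, ← hee γ hγ] at hS ⊢
    obtain ⟨G, hG, hG'⟩ := hR.p1 γ hγ hS n k m
    refine ⟨G, hG, fun y y' hy hy' h1 h2 => hG' y y' hy hy' ?_ ?_⟩
    · intro j hj
      rw [Bv_congr (hC y j (hy.le.trans hγ) ((hG j hj).trans hγ)), h1 j hj,
        Bv_congr (hC (β, n) j le_rfl ((hG j hj).trans hγ)).symm]
    · intro j hj
      rw [Bv_congr (hC y' j (hy'.le.trans hγ) ((hG j hj).trans hγ)), h2 j hj,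
        Bv_congr (hC (β, n) j le_rfl ((hG j hj).trans hγ)).symm]
  · intro γ hγ β₀ β₁ hinf F hF m s
    have := hR.p2 γ hγ β₀ β₁ hinf F hF m s
    refine this.mono ?_
    rintro δ ⟨hδ, hδ'⟩
    refine ⟨hδ, fun x hx i hi => ?_⟩
    rw [← hC x (δ, i) (hF x hx).2 (hδ.2.1.le.trans hγ)]
    exact hδ' x hx i hi
  · intro G hG g
    refine (hR.p3 G hG g).mono ?_
    intro n hn j hj
    rw [← hC (β, n) j le_rfl (hG j hj)]
    exact hn j hj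

end agree

end Pool.Agent.CpCH
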