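import Pool.Agent.CpCH.Space

/-!
# Closing off, and generic enumerations
-/

set_option autoImplicit false
open Set Topology

namespace Pool.Agent.CpCH

universe u

section closing
variable {Ω : Type u} [LinearOrder Ω]

lemma exists_gt_countable [Uncountable Ω] (hΩ : ∀ β : Ω, (Iio β).Countable) {S : Set Ω}
    (hS : S.Countable) : ∃ b, ∀ s ∈ S, s < b := by
  by_contra hcon
  push Not at hcon
  have h1 : (univ : Set Ω) ⊆ ⋃ s ∈ S, Iic s := by
    intro b _
    obtain ⟨s, hs, hbs⟩ := hcon b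
    exact mem_iUnion₂.2 ⟨s, hs, hbs⟩
  exact Set.not_countable_univ ((hS.biUnion fun s _ => countable_Iic' hΩ s).mono h1)

/-- closing off -/
lemma exists_closed [WellFoundedLT Ω] [Uncountable Ω] (hΩ : ∀ β : Ω, (Iio β).Countable)
    {I : Type*} (lv : I → Finset Ω) (hI : ∀ β, {ι | ∀ o ∈ lv ι, o < β}.Countable) (Φ : I → Ω)
    (γ₀ : Ω) : ∃ γ, γ₀ < γ ∧ ∀ ι, (∀ o ∈ lv ι, o < γ) → Φ ι < γ := by
  classical
  have h1 : ∀ β : Ω, ∃ b, β < b ∧ ∀ ι, (∀ o ∈ lv ι, o < β) → Φ ι < b := by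
    intro β
    obtain ⟨b, hb⟩ := exists_gt_countable hΩ (((hI β).image Φ).insert β)
    exact ⟨b, hb β (mem_insert _ _), fun ι hι => hb _ (mem_insert_of_mem _ ⟨ι, hι, rfl⟩)⟩
  choose f hf1 hf2 using h1
  let g : ℕ → Ω := fun n => Nat.rec γ₀ (fun _ b => f b) n
  have hg0 : g 0 = γ₀ := rfl
  have hgs : ∀ n, g (n + 1) = f (g n) := fun n => rfl
  have hmono : StrictMono g := strictMono_nat_of_lt_succ fun n => by rw [hgs]; exact hf1 _
  have hne : ({b | ∀ n, g n < b} : Set Ω).Nonempty := by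
    obtain ⟨b, hb⟩ := exists_gt_countable hΩ (countable_range g)
    exact ⟨b, fun n => hb _ (mem_range_self n)⟩
  obtain ⟨γ, hγ, hmin⟩ := WellFounded.has_min (wellFounded_lt (α := Ω)) _ hne
  have hγ' : ∀ n, g n < γ := hγ
  refine ⟨γ, hγ' 0, fun ι hι => ?_⟩
  have h2 : ∀ o ∈ lv ι, ∃ n, o < g n := by
    intro o ho
    by_contra hcon
    push Not at hcon
    have : o ∈ {b | ∀ n, g n < b} := fun n => (hmono (Nat.lt_succ_self n)).trans_le (hcon (n + 1))
    exact hmin o this (hι o ho)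
  choose! n hn using h2
  have h3 : ∀ o ∈ lv ι, o < g ((lv ι).sup n) := fun o ho =>
    (hn o ho).trans_le (hmono.monotone (Finset.le_sup ho))
  exact (hf2 _ ι h3).trans (by rw [← hgs]; exact hγ' ((lv ι).sup n + 1))

end closing

variable {Ω : Type u} [LinearOrder Ω] {h : Ω → Option (Task Ω)} {h' : Ω → ℕ → ℕ → Ω × ℕ}
  {C : Ω × ℕ → Ω × ℕ → Bool} (hC : ∀ β, Req h h' β C)
include hC

lemma extend_list {δ : Ω} (Φ : Finset ({x : Ω × ℕ // x.1 < δ} × ℕ)) (A : Sp δ)
    (l : List (Ω × ℕ)) (hl : l.Nodup) (t : ℕ) :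
    ∃ l' : List (Ω × ℕ), l <+: l' ∧ l'.length = l.length + t ∧ l'.Nodup ∧
      (∀ j ∈ l', j ∈ l ∨ j.1 = δ) ∧
      ∀ i, l.length ≤ i → ∀ hi : i < l'.length, ∀ z ∈ Φ, z.2 = i → C z.1 l'[i] = A z := by
  classical
  induction t with
  | zero =>
    exact ⟨l, List.prefix_refl l, rfl, hl, fun j hj => Or.inl hj, fun i h1 h2 =>
      absurd h2 (not_lt.2 h1)⟩
  | succ t ih =>
    obtain ⟨l', hpre, hlen, hnd, hmem, hval⟩ := ih
    let F : Finset (Ω × ℕ) := (Φ.filter fun z => z.2 = l'.length).image fun z => (z.1 : Ω × ℕ)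
    let F' : Finset (Ω × ℕ) :=
      (Φ.filter fun z => z.2 = l'.length ∧ A z = true).image fun z => (z.1 : Ω × ℕ)
    obtain ⟨i', hi', hF⟩ := exists_set hC δ F F' (by
      intro x hx
      obtain ⟨z, -, rfl⟩ := Finset.mem_image.1 hx
      exact z.1.2) (by
      intro x hx
      obtain ⟨z, -, rfl⟩ := Finset.mem_image.1 hx
      exact z.1.2) (l'.toFinset.sup (fun j => j.2) + 1)
    have hnot : ((δ, i') : Ω × ℕ) ∉ l' := by
      intro hmem'
      have : i' ≤ l'.toFinset.sup (fun j => j.2) :=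
        Finset.le_sup (f := fun j : Ω × ℕ => j.2) (List.mem_toFinset.2 hmem')
      omega
    refine ⟨l' ++ [(δ, i')], hpre.trans (List.prefix_append _ _), by simp [hlen]; omega, ?_, ?_, ?_⟩
    · rw [List.nodup_append]
      refine ⟨hnd, List.nodup_singleton _, ?_⟩
      intro a ha b hb hab
      rw [List.mem_singleton] at hb
      subst hb
      subst hab
      exact hnot ha
    · intro j hj
      rcases List.mem_append.1 hj with hj | hj
      · exact hmem j hj
      · rw [List.mem_singleton] at hj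
        exact Or.inr (by rw [hj])
    · intro i hi1 hi2 z hz hzi
      rcases lt_or_ge i l'.length with hlt | hge
      · rw [List.getElem_append_left hlt]
        exact hval i hi1 hlt z hz hzi
      · have hi : i = l'.length := by
          rw [List.length_append, List.length_singleton] at hi2
          omega
        subst hi
        have h1 : (l' ++ [((δ, i') : Ω × ℕ)])[l'.length] = (δ, i') := by simp
        rw [h1]
        have h2 := hF z.1 (Finset.mem_image.2 ⟨z, Finset.mem_filter.2 ⟨hz, hzi⟩, rfl⟩)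
        rw [h2]
        refine decide_eq_bool ?_
        simp only [F', Finset.mem_image, Finset.mem_filter]
        constructor
        · rintro ⟨z', ⟨hz', hz'2, hA⟩, hzz⟩
          have : z' = z := Prod.ext (Subtype.ext hzz) (hz'2.trans hzi.symm)
          rw [← this]; exact hA
        · intro hA
          exact ⟨z, ⟨hz, hzi, hA⟩, rfl⟩

lemma meet_list {δ : Ω} {O : Set (Sp δ)} (hO : O ∈ base h h' δ (bc h C δ))
    (l : List (Ω × ℕ)) (hl : l.Nodup) (hlδ : ∀ j ∈ l, δ ≤ j.1) :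
    ∃ l' : List (Ω × ℕ), l <+: l' ∧ l.length < l'.length ∧ l'.Nodup ∧
      (∀ j ∈ l', j ∈ l ∨ j.1 = δ) ∧
      ∀ e : ℕ → Ω × ℕ, (∀ i, ∀ hi : i < l'.length, e i = l'[i]) →
        (fun z : {x : Ω × ℕ // x.1 < δ} × ℕ => C z.1 (e z.2)) ∈ O := by
  classical
  obtain ⟨A, hA⟩ := s2_list hC hO l hl hlδ
  obtain ⟨Φ, hΦ⟩ := exists_finset_of_open (base_open_dense hO).1 hA
  obtain ⟨l', hpre, hlen, hnd, hmem, hval⟩ := extend_list hC Φ A l hl (Φ.sup (fun z => z.2) + 1)
  refine ⟨l', hpre, by omega, hnd, hmem, fun e he => hΦ _ fun z hz => ?_⟩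
  have hzl : z.2 < l'.length := by
    have : z.2 ≤ Φ.sup (fun z => z.2) := Finset.le_sup (f := fun z => z.2) hz
    omega
  show C z.1 (e z.2) = mrg C (fun i => l[i]?) A z
  rw [he z.2 hzl]
  rcases lt_or_ge z.2 l.length with hlt | hge
  · unfold mrg
    simp only [List.getElem?_eq_getElem hlt]
    rw [hpre.getElem hlt]
  · unfold mrg
    simp only [List.getElem?_eq_none hge]
    exact hval z.2 hge hzl z hz rfl

/-- A generic enumeration of a countable set of indices. -/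
theorem exists_enum {δ : Ω} {S : Set (Ω × ℕ)} (hS : S.Countable) (hSδ : ∀ j ∈ S, δ ≤ j.1)
    (hδS : ∀ i, ((δ, i) : Ω × ℕ) ∈ S) (l₀ : List (Ω × ℕ)) (hl₀ : l₀.Nodup)
    (hl₀S : ∀ j ∈ l₀, j ∈ S) (O : ℕ → Set (Sp δ)) (hO : ∀ k, O k ∈ base h h' δ (bc h C δ)) :
    ∃ e : ℕ → Ω × ℕ, Function.Injective e ∧ range e = S ∧
      (∀ i, ∀ hi : i < l₀.length, e i = l₀[i]) ∧
      ∀ k, (fun z : {x : Ω × ℕ // x.1 < δ} × ℕ => C z.1 (e z.2)) ∈ O k := by
  classical
  obtain ⟨u, hu⟩ := hS.exists_eq_range ⟨_, hδS 0⟩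
  have huS : ∀ n, u n ∈ S := fun n => by rw [hu]; exact mem_range_self n
  have step : ∀ n : ℕ, ∀ l : {l : List (Ω × ℕ) // l.Nodup ∧ ∀ j ∈ l, j ∈ S},
      ∃ l' : {l : List (Ω × ℕ) // l.Nodup ∧ ∀ j ∈ l, j ∈ S}, l.1 <+: l'.1 ∧
        l.1.length < l'.1.length ∧ u n ∈ l'.1 ∧
        ∀ e : ℕ → Ω × ℕ, (∀ i, ∀ hi : i < l'.1.length, e i = l'.1[i]) →
          (fun z : {x : Ω × ℕ // x.1 < δ} × ℕ => C z.1 (e z.2)) ∈ O n := by
    rintro n ⟨l, hl, hlS⟩
    obtain ⟨l₁, hpre₁, hnd₁, hmem₁, hu₁, hlen₁⟩ : ∃ l₁ : List (Ω × ℕ), l <+: l₁ ∧ l₁.Nodup ∧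
        (∀ j ∈ l₁, j ∈ S) ∧ u n ∈ l₁ ∧ l.length ≤ l₁.length := by
      by_cases hun : u n ∈ l
      · exact ⟨l, List.prefix_refl l, hl, hlS, hun, le_rfl⟩
      · refine ⟨l ++ [u n], List.prefix_append _ _, ?_, ?_, by simp, by simp⟩
        · rw [List.nodup_append]
          refine ⟨hl, List.nodup_singleton _, ?_⟩
          intro a ha b hb hab
          rw [List.mem_singleton] at hb
          subst hb
          subst hab
          exact hun ha
        · intro j hj
          rcases List.mem_append.1 hj with hj | hj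
          · exact hlS j hj
          · rw [List.mem_singleton] at hj
            rw [hj]; exact huS n
    obtain ⟨l', hpre, hlen, hnd, hmem, hval⟩ := meet_list hC (hO n) l₁ hnd₁
      (fun j hj => hSδ j (hmem₁ j hj))
    refine ⟨⟨l', hnd, fun j hj => ?_⟩, hpre₁.trans hpre, by simp only; omega, hpre.subset hu₁, hval⟩
    rcases hmem j hj with hj | hj
    · exact hmem₁ j hj
    · have : j = (δ, j.2) := Prod.ext hj rfl
      rw [this]; exact hδS _
  choose st hst1 hst2 hst3 hst4 using step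
  let L : ℕ → {l : List (Ω × ℕ) // l.Nodup ∧ ∀ j ∈ l, j ∈ S} :=
    fun n => Nat.rec ⟨l₀, hl₀, hl₀S⟩ (fun n l => st n l) n
  have hL0 : (L 0).1 = l₀ := rfl
  have hLs : ∀ n, L (n + 1) = st n (L n) := fun n => rfl
  have hpre : ∀ n, (L n).1 <+: (L (n + 1)).1 := fun n => by rw [hLs]; exact hst1 n (L n)
  have hlen : ∀ n, (L n).1.length < (L (n + 1)).1.length := fun n => by
    rw [hLs]; exact hst2 n (L n)
  have hpre' : ∀ m n, m ≤ n → (L m).1 <+: (L n).1 := by
    intro m n hmn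
    induction hmn with
    | refl => exact List.prefix_refl _
    | step _ ih => exact ih.trans (hpre _)
  have hlen' : ∀ n, n ≤ (L n).1.length := by
    intro n
    induction n with
    | zero => exact Nat.zero_le _
    | succ n ih => have := hlen n; omega
  have hi1 : ∀ i, i < (L (i + 1)).1.length := fun i => by have := hlen' (i + 1); omega
  let e : ℕ → Ω × ℕ := fun i => (L (i + 1)).1[i]'(hi1 i)
  have he : ∀ n i, ∀ hi : i < (L n).1.length, e i = (L n).1[i] := by
    intro n i hi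
    rcases le_total (i + 1) n with hle | hle
    · exact (hpre' _ _ hle).getElem (hi1 i)
    · exact ((hpre' _ _ hle).getElem hi).symm
  refine ⟨e, ?_, ?_, ?_, ?_⟩
  · intro i i' hii
    have h1 : i < (L (i + i' + 1)).1.length := by have := hlen' (i + i' + 1); omega
    have h2 : i' < (L (i + i' + 1)).1.length := by have := hlen' (i + i' + 1); omega
    rw [he (i + i' + 1) i h1, he (i + i' + 1) i' h2] at hii
    exact ((L (i + i' + 1)).2.1.getElem_inj_iff).1 hii
  · refine Subset.antisymm ?_ ?_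
    · rintro _ ⟨i, rfl⟩
      exact (L (i + 1)).2.2 _ (List.getElem_mem _)
    · rw [hu]
      rintro _ ⟨n, rfl⟩
      have h1 : u n ∈ (L (n + 1)).1 := by rw [hLs]; exact hst3 n (L n)
      obtain ⟨i, hi, hui⟩ := List.getElem_of_mem h1
      exact ⟨i, (he (n + 1) i hi).trans hui⟩
  · intro i hi
    exact he 0 i hi
  · intro k
    have h1 : ∀ i, ∀ hi : i < (L (k + 1)).1.length, e i = (L (k + 1)).1[i] := he (k + 1)
    exact hst4 k (L k) e h1

end Pool.Agent.CpCH
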