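import Pool.Agent.CpCH.MA

/-!
# The three statements
-/

set_option autoImplicit false
open Set Topology TopologicalSpace

namespace Pool.Agent.CpCH

open Pool.Agent.CpPN (Cp CS separable_iff)

universe u

/-- countable spread of the finite powers passes to finite powers of finite powers -/
lemma spread_powers {X : Type u} [TopologicalSpace X]
    (hs : ∀ n : ℕ, ∀ D : Set (Fin n → X), DiscreteTopology D → D.Countable) (n k : ℕ)
    (D : Set (Fin k → Fin n → X)) (hD : DiscreteTopology D) : D.Countable := by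
  let ψ : (Fin k → Fin n → X) → (Fin (k * n) → X) := fun z j =>
    z (finProdFinEquiv.symm j).1 (finProdFinEquiv.symm j).2
  let ψ' : (Fin (k * n) → X) → (Fin k → Fin n → X) := fun w i j => w (finProdFinEquiv (i, j))
  have hψ' : Continuous ψ' := continuous_pi fun i => continuous_pi fun j => continuous_apply _
  have hψψ : ∀ z, ψ' (ψ z) = z := by
    intro z
    funext i j
    show z (finProdFinEquiv.symm (finProdFinEquiv (i, j))).1
      (finProdFinEquiv.symm (finProdFinEquiv (i, j))).2 = z i j
    rw [Equiv.symm_apply_apply]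
  have hinj : Function.Injective ψ := fun z z' h => by rw [← hψψ z, ← hψψ z', h]
  let g : (ψ '' D : Set _) → D := fun w => ⟨ψ' w.1, by
    obtain ⟨z, hz, hzw⟩ := w.2
    rw [← hzw, hψψ]; exact hz⟩
  have hg : Continuous g := Continuous.subtype_mk (hψ'.comp continuous_subtype_val) _
  have hginj : Function.Injective g := by
    rintro ⟨_, z, hz, rfl⟩ ⟨_, z', hz', rfl⟩ h
    have h1 : ψ' (ψ z) = ψ' (ψ z') := congrArg Subtype.val h
    rw [hψψ, hψψ] at h1
    subst h1
    rfl
  have := hs (k * n) (ψ '' D) (DiscreteTopology.of_continuous_injective hg hginj)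
  exact countable_of_injective_of_countable_image hinj.injOn this

/-- In ZFC: for a counterexample all finite powers of `X` are hereditarily separable and some
finite power is not Lindelof. -/
theorem strong_sspace (X : Type u) [TopologicalSpace X] [T35Space X]
    (hP : PerfectlyNormalSpace (Cp (Cp X)))
    (hS : ¬ ∀ S : Set (Cp (Cp (Cp X))), SeparableSpace S) :
    (∀ k, ∀ S : Set (Fin k → X), SeparableSpace S) ∧ ∃ n : ℕ, ¬ LindelofSpace (Fin n → X) ∧
      ∀ k, ∀ S : Set (Fin k → Fin n → X), SeparableSpace S := by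
  obtain ⟨hs, htfae⟩ := Pool.Agent.CpPN.main X hP
  have h1 : ¬ ∀ n : ℕ, LindelofSpace (Fin n → X) := fun h => hS ((htfae.out 0 2).2 h)
  push Not at h1
  obtain ⟨n, hn⟩ := h1
  have hn' : ¬ IsLindelof (univ : Set (Fin n → X)) := fun h => hn ⟨h⟩
  have h2 := hs_of_not_hl (T := Fin n → X) (spread_powers hs n) hn'
  refine ⟨fun k S => ?_, n, hn, h2⟩
  -- `n` is positive
  rcases Nat.eq_zero_or_pos n with rfl | hpos
  · exact absurd (inferInstance : LindelofSpace (Fin 0 → X)) hn
  · let φ : (Fin k → Fin n → X) → (Fin k → X) := fun z i => z i ⟨0, hpos⟩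
    have hφ : Continuous φ := continuous_pi fun i => (continuous_apply _).comp (continuous_apply i)
    let σ : (Fin k → X) → (Fin k → Fin n → X) := fun z i _ => z i
    obtain ⟨D, hDS, hDc, hD⟩ := (separable_iff (σ '' S)).1 (h2 k (σ '' S))
    rw [separable_iff]
    refine ⟨φ '' D, ?_, hDc.image φ, ?_⟩
    · rintro _ ⟨d, hd, rfl⟩
      obtain ⟨s, hs', rfl⟩ := hDS hd
      exact hs'
    · intro s hs'
      exact image_closure_subset_closure_image hφ ⟨σ s, hD ⟨s, hs', rfl⟩, rfl⟩

/-- Under Martin's axiom the answer is yes. -/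
theorem yes_of_MA (hMA : MA1) (X : Type u) [TopologicalSpace X] [T35Space X]
    (hP : PerfectlyNormalSpace (Cp (Cp X))) (S : Set (Cp (Cp (Cp X)))) : SeparableSpace S := by
  by_contra hcon
  obtain ⟨-, n, hn, hHS⟩ := strong_sspace X hP (fun h => hcon (h S))
  exact hn ⟨lindelof_of_MA hMA hHS univ⟩

end Pool.Agent.CpCH
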