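import Pool.Agent.CpCH.Enum
import Pool.Agent.CpPN.Powers

/-!
# Open sets of `C_p(X)^ω` are countable unions of boxes
-/

set_option autoImplicit false
open Set Topology

namespace Pool.Agent.CpCH

open Pool.Agent.CpPN (Cp)

universe u

/-- neighbourhoods in `C_p(Y)^ω` -/
lemma exists_nhd_seq {Y : Type u} [TopologicalSpace Y] {W : Set (ℕ → Cp Y)} (hW : IsOpen W)
    {w : ℕ → Cp Y} (hw : w ∈ W) : ∃ F : Finset Y, ∃ N : ℕ, ∃ ε : ℝ, 0 < ε ∧
      ∀ w' : ℕ → Cp Y, (∀ x ∈ F, ∀ k < N, |(w' k).1 x - (w k).1 x| < ε) → w' ∈ W := by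
  classical
  rw [isOpen_pi_iff] at hW
  obtain ⟨I, u, hu, hI⟩ := hW w hw
  have h1 : ∀ k, ∃ F : Finset Y, ∃ ε : ℝ, 0 < ε ∧ (k ∈ I → ∀ g : Cp Y,
      (∀ q ∈ F, |g.1 q - (w k).1 q| < ε) → g ∈ u k) := by
    intro k
    by_cases hk : k ∈ I
    · obtain ⟨F, ε, hε, hF⟩ := Pool.Agent.CpPN.exists_fin_eps_one (hu k hk).1 (hu k hk).2
      exact ⟨F, ε, hε, fun _ => hF⟩
    · exact ⟨∅, 1, one_pos, fun h => absurd h hk⟩
  choose F ε hε hF using h1
  obtain ⟨δ, hδ, hδε⟩ : ∃ δ : ℝ, 0 < δ ∧ ∀ k ∈ I, δ ≤ ε k := by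
    rcases I.eq_empty_or_nonempty with he | hne
    · exact ⟨1, one_pos, fun k hk => by rw [he] at hk; exact absurd hk (Finset.notMem_empty k)⟩
    · refine ⟨I.inf' hne ε, ?_, fun k hk => Finset.inf'_le _ hk⟩
      rw [Finset.lt_inf'_iff]
      exact fun k _ => hε k
  refine ⟨I.biUnion F, I.sup id + 1, δ, hδ, fun w' hw' => hI fun k hk => ?_⟩
  refine hF k hk (w' k) fun q hq => ?_
  have hkN : k < I.sup id + 1 := Nat.lt_succ_of_le (Finset.le_sup (f := id) hk)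
  exact (hw' q (Finset.mem_biUnion.2 ⟨k, hk, hq⟩) k hkN).trans_le (hδε k hk)

variable {Ω : Type u} [LinearOrder Ω] {h : Ω → Option (Task Ω)} {h' : Ω → ℕ → ℕ → Ω × ℕ}
  {C : Ω × ℕ → Ω × ℕ → Bool}

/-- `w` lies in the box -/
def inbox (b : Box Ω) (w : Ω × ℕ → ℕ → ℝ) : Prop :=
  ∀ c ∈ b, ((c.2.2.1 : ℚ) : ℝ) < w c.1 c.2.1 ∧ w c.1 c.2.1 < ((c.2.2.2 : ℚ) : ℝ)

/-- a sequence of continuous functions as a function of two variables -/
def val (w : ℕ → Cp (Xs h C)) : Ω × ℕ → ℕ → ℝ := fun x k => (w k).1 (Xs.mk x)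

/-- auxiliary information -/
abbrev Info (Ω : Type u) :=
  Box Ω × Finset (Ω × ℕ) × ℕ × Finset (ℕ × (Ω × ℕ)) × Finset (ℕ × ℕ × ℚ × ℚ)

open Classical in
/-- the box given by the information and a tuple -/
noncomputable def bx (ι : Info Ω) (z : ℕ → Ω × ℕ) : Box Ω :=
  ι.1 ∪ ι.2.2.2.2.image fun c => (z c.1, c.2.1, c.2.2.1, c.2.2.2)

/-- a valid tuple -/
def valid (W : Set (ℕ → Cp (Xs h C))) (ι : Info Ω) (z : ℕ → Ω × ℕ) : Prop :=
  (∀ a < ι.2.2.1, ∀ j ∈ ι.2.1, Bv h C (z a) j = decide ((a, j) ∈ ι.2.2.2.1)) ∧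
    ∀ w : ℕ → Cp (Xs h C), inbox (bx ι z) (val w) → w ∈ W

/-- there are valid tuples arbitrarily far -/
def unb (W : Set (ℕ → Cp (Xs h C))) (ι : Info Ω) : Prop :=
  ∀ δ : Ω, ∃ z : ℕ → Ω × ℕ, (∀ a < ι.2.2.1, δ ≤ (z a).1) ∧
    (∀ a < ι.2.2.1, ∀ a' < ι.2.2.1, z a = z a' → a = a') ∧ valid W ι z

open Classical in
/-- the levels of an information -/
noncomputable def lvI (ι : Info Ω) : Finset Ω :=
  (ι.1.image fun c => c.1.1) ∪ (ι.2.1.image Prod.fst) ∪ (ι.2.2.2.1.image fun c => c.2.1)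

lemma countable_box (hΩ : ∀ β : Ω, (Iio β).Countable) (β : Ω) :
    {b : Box Ω | ∀ c ∈ b, c.1.1 < β}.Countable := by
  have h1 : {c : (Ω × ℕ) × ℕ × ℚ × ℚ | c.1.1 < β}.Countable := by
    have : {c : (Ω × ℕ) × ℕ × ℚ × ℚ | c.1.1 < β} ⊆ {x : Ω × ℕ | x.1 < β} ×ˢ
        (univ : Set (ℕ × ℚ × ℚ)) := fun c hc => ⟨hc, mem_univ _⟩
    exact ((countable_lt hΩ β).prod (Set.to_countable _)).mono this
  exact (countable_finset h1).mono fun b hb c hc => hb c hc

lemma countable_info (hΩ : ∀ β : Ω, (Iio β).Countable) (β : Ω) :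
    {ι : Info Ω | ∀ o ∈ lvI ι, o < β}.Countable := by
  classical
  have h2 : {G : Finset (Ω × ℕ) | ∀ c ∈ G, c ∈ {x : Ω × ℕ | x.1 < β}}.Countable :=
    countable_finset (countable_lt hΩ β)
  have h3 : {P : Finset (ℕ × (Ω × ℕ)) | ∀ c ∈ P, c ∈ {c : ℕ × (Ω × ℕ) | c.2.1 < β}}.Countable := by
    refine countable_finset ?_
    have : {c : ℕ × (Ω × ℕ) | c.2.1 < β} ⊆ (univ : Set ℕ) ×ˢ {x : Ω × ℕ | x.1 < β} :=
      fun c hc => ⟨mem_univ _, hc⟩
    exact ((Set.to_countable _).prod (countable_lt hΩ β)).mono this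
  have h4 := (countable_box hΩ β).prod (h2.prod ((Set.to_countable (univ : Set ℕ)).prod
    (h3.prod (Set.to_countable (univ : Set (Finset (ℕ × ℕ × ℚ × ℚ)))))))
  refine h4.mono ?_
  intro ι hι
  refine ⟨fun c hc => hι _ ?_, fun c hc => hι _ ?_, mem_univ _, fun c hc => hι _ ?_, mem_univ _⟩
  · exact Finset.mem_union_left _ (Finset.mem_union_left _ (Finset.mem_image.2 ⟨c, hc, rfl⟩))
  · exact Finset.mem_union_left _ (Finset.mem_union_right _ (Finset.mem_image.2 ⟨c, hc, rfl⟩))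
  · exact Finset.mem_union_right _ (Finset.mem_image.2 ⟨c, hc, rfl⟩)

lemma exists_T [Uncountable Ω] (hΩ : ∀ β : Ω, (Iio β).Countable) {W : Set (ℕ → Cp (Xs h C))}
    {ι : Info Ω} (hι : unb W ι) (γ₀ : Ω) : ∃ T : ℕ → ℕ → Ω × ℕ, (∀ i, valid W ι (T i)) ∧
      ∀ i a i' a', a < ι.2.2.1 → a' < ι.2.2.1 → T i a = T i' a' → i = i' ∧ a = a' := by
  classical
  choose z hz1 hz2 hz3 using hι
  have h1 : ∀ δ : Ω, ∃ b, δ < b ∧ ∀ a, (z δ a).1 < b := by
    intro δ
    obtain ⟨b, hb⟩ := exists_gt_countable hΩ ((countable_range fun a => (z δ a).1).insert δ)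
    exact ⟨b, hb δ (mem_insert _ _), fun a => hb _ (mem_insert_of_mem _ (mem_range_self a))⟩
  choose f hf1 hf2 using h1
  let g : ℕ → Ω := fun n => Nat.rec γ₀ (fun _ b => f b) n
  have hgs : ∀ n, g (n + 1) = f (g n) := fun n => rfl
  have hmono : StrictMono g := strictMono_nat_of_lt_succ fun n => by rw [hgs]; exact hf1 _
  have hlt : ∀ i i' a a', i < i' → a' < ι.2.2.1 → (z (g i) a).1 < (z (g i') a').1 := by
    intro i i' a a' hii ha'
    have h2 : g (i + 1) ≤ g i' := hmono.monotone hii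
    exact (hf2 (g i) a).trans_le (h2.trans (hz1 (g i') a' ha'))
  refine ⟨fun i => z (g i), fun i => hz3 _, fun i a i' a' ha ha' heq => ?_⟩
  have heq' : z (g i) a = z (g i') a' := heq
  rcases lt_trichotomy i i' with h3 | h3 | h3
  · have := hlt i i' a a' h3 ha'
    rw [heq'] at this
    exact absurd this (lt_irrefl _)
  · subst h3
    exact ⟨rfl, hz2 _ a ha a' ha' heq⟩
  · have := hlt i' i a' a h3 ha
    rw [heq'] at this
    exact absurd this (lt_irrefl _)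

/-- rational interval around a real number -/
lemma exists_rat_interval (r ε : ℝ) (hε : 0 < ε) :
    ∃ p q : ℚ, (p : ℝ) < r ∧ r < (q : ℝ) ∧ (q : ℝ) - p < ε := by
  obtain ⟨p, hp1, hp2⟩ := exists_rat_btwn (show r - ε / 2 < r by linarith)
  obtain ⟨q, hq1, hq2⟩ := exists_rat_btwn (show r < r + ε / 2 by linarith)
  exact ⟨p, q, hp2, hq1, by linarith⟩

/-- Open sets are countable unions of boxes. -/
theorem exists_K [WellFoundedLT Ω] [Uncountable Ω] (hΩ : ∀ β : Ω, (Iio β).Countable)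
    (hh' : Function.Surjective h') (hC : ∀ β, Req h h' β C) (W : Set (ℕ → Cp (Xs h C)))
    (hW : IsOpen W) : ∃ K : ℕ → Box Ω, ∀ w, w ∈ W ↔ ∃ i, inbox (K i) (val w) := by
  classical
  obtain ⟨γ₀⟩ : Nonempty Ω := inferInstance
  have hΦ : ∀ ι : Info Ω, ∃ b : Ω, (unb W ι → ∃ T : ℕ → ℕ → Ω × ℕ, ∃ t, h' t = T ∧ t < b ∧
      (∀ i a, (T i a).1 < b) ∧ (∀ i, valid W ι (T i)) ∧
      ∀ i a i' a', a < ι.2.2.1 → a' < ι.2.2.1 → T i a = T i' a' → i = i' ∧ a = a') ∧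
      (¬ unb W ι → ¬ ∃ z : ℕ → Ω × ℕ, (∀ a < ι.2.2.1, b ≤ (z a).1) ∧
        (∀ a < ι.2.2.1, ∀ a' < ι.2.2.1, z a = z a' → a = a') ∧ valid W ι z) := by
    intro ι
    by_cases hu : unb W ι
    · obtain ⟨T, hT1, hT2⟩ := exists_T hΩ hu γ₀
      obtain ⟨t, ht⟩ := hh' T
      obtain ⟨b, hb⟩ := exists_gt_countable hΩ
        ((countable_range fun c : ℕ × ℕ => (T c.1 c.2).1).insert t)
      exact ⟨b, fun _ => ⟨T, t, ht, hb t (mem_insert _ _),
        fun i a => hb _ (mem_insert_of_mem _ ⟨(i, a), rfl⟩), hT1, hT2⟩, fun h => absurd hu h⟩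
    · have hu' := hu
      unfold unb at hu'
      push Not at hu'
      obtain ⟨δ, hδ⟩ := hu'
      refine ⟨δ, fun h => absurd h hu, fun _ => ?_⟩
      rintro ⟨z, hz1, hz2, hz3⟩
      exact hδ z hz1 hz2 hz3
  choose Φ hΦ1 hΦ2 using hΦ
  obtain ⟨γ, hγ₀, hγ⟩ := exists_closed hΩ lvI (countable_info hΩ) Φ γ₀
  let 𝒦 : Set (Box Ω) := {b | (∀ c ∈ b, c.1.1 < γ) ∧
    ∀ w : ℕ → Cp (Xs h C), inbox b (val w) → w ∈ W}
  have h𝒦c : 𝒦.Countable := (countable_box hΩ γ).mono fun b hb => hb.1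
  have h𝒦ne : 𝒦.Nonempty := by
    refine ⟨{((γ₀, 0), 0, 1, 0)}, fun c hc => ?_, fun w hw => ?_⟩
    · rw [Finset.mem_singleton.1 hc]; exact hγ₀
    · have := hw _ (Finset.mem_singleton_self _)
      have h1 := this.1.trans this.2
      norm_num at h1
  obtain ⟨K, hK⟩ := h𝒦c.exists_eq_range h𝒦ne
  refine ⟨K, fun w => ⟨fun hw => ?_, ?_⟩⟩
  swap
  · rintro ⟨i, hi⟩
    have : K i ∈ 𝒦 := by rw [hK]; exact mem_range_self i
    exact this.2 w hi
  -- the main direction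
  suffices hs : ∃ b ∈ 𝒦, inbox b (val w) by
    obtain ⟨b, hb, hbw⟩ := hs
    rw [hK] at hb
    obtain ⟨i, rfl⟩ := hb
    exact ⟨i, hbw⟩
  obtain ⟨F, N, ε, hε, hF⟩ := exists_nhd_seq hW hw
  choose p q hp hq hpq using fun (x : Ω × ℕ) (k : ℕ) => exists_rat_interval (val w x k) ε hε
  have hnear : ∀ w' : ℕ → Cp (Xs h C), (∀ x ∈ F, ∀ k < N, (p x.pt k : ℝ) < val w' x.pt k ∧
      val w' x.pt k < (q x.pt k : ℝ)) → w' ∈ W := by
    intro w' hw'
    refine hF w' fun x hx k hk => ?_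
    obtain ⟨h1, h2⟩ := hw' x hx k hk
    have h3 := hp x.pt k
    have h4 := hq x.pt k
    have h5 := hpq x.pt k
    show |val w' x.pt k - val w x.pt k| < ε
    rw [abs_lt]
    constructor <;> linarith
  -- supports
  have hsupp : ∀ x : Xs h C, ∃ G : Finset (Ω × ℕ), ∀ y : Xs h C,
      (∀ j ∈ G, Bv h C y.pt j = Bv h C x.pt j) → ∀ k < N,
        (p x.pt k : ℝ) < val w y.pt k ∧ val w y.pt k < (q x.pt k : ℝ) := by
    intro x
    have h1 : IsOpen {y : Xs h C | ∀ k < N, (p x.pt k : ℝ) < val w y.pt k ∧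
        val w y.pt k < (q x.pt k : ℝ)} := by
      have : {y : Xs h C | ∀ k < N, (p x.pt k : ℝ) < val w y.pt k ∧
          val w y.pt k < (q x.pt k : ℝ)} = ⋂ k ∈ Finset.range N,
          ({y : Xs h C | (p x.pt k : ℝ) < (w k).1 y} ∩ {y | (w k).1 y < (q x.pt k : ℝ)}) := by
        ext y
        simp only [mem_ofPred_eq, mem_iInter, Finset.mem_range, mem_inter_iff]
        rfl
      rw [this]
      exact isOpen_biInter_finset fun k _ => (isOpen_lt continuous_const (w k).2).inter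
        (isOpen_lt (w k).2 continuous_const)
    exact exists_finset_nhd h1 fun k _ => ⟨hp x.pt k, hq x.pt k⟩
  choose Gs hGs using hsupp
  let F₀ : Finset (Ω × ℕ) := (F.image Xs.pt).filter fun x => x.1 < γ
  let F₁ : Finset (Ω × ℕ) := (F.image Xs.pt).filter fun x => γ ≤ x.1
  let G : Finset (Ω × ℕ) := F₁.biUnion fun x => Gs (Xs.mk x)
  let l : List (Ω × ℕ) := F₁.toList
  let lH : List (Ω × ℕ) := (G.filter fun j => γ ≤ j.1).toList
  let z : ℕ → Ω × ℕ := fun a => l.getD a (γ₀, 0)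
  have hz : ∀ a (ha : a < l.length), z a = l[a] := fun a ha => by
    simp only [z, List.getD_eq_getElem?_getD, List.getElem?_eq_getElem ha, Option.getD_some]
  have hzF : ∀ a, a < l.length → z a ∈ F₁ := fun a ha => by
    rw [hz a ha]; exact Finset.mem_toList.1 (List.getElem_mem ha)
  let ι : Info Ω := (
    (F₀ ×ˢ Finset.range N).image (fun c => (c.1, c.2, p c.1 c.2, q c.1 c.2)),
    G.filter (fun j => j.1 < γ), l.length,
    (Finset.range l.length ×ˢ (G.filter fun j => j.1 < γ)).filter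
      (fun c => Bv h C (z c.1) c.2 = true),
    (Finset.range l.length ×ˢ Finset.range N).image
      (fun c => (c.1, c.2, p (z c.1) c.2, q (z c.1) c.2)))
  have hlvι : ∀ o ∈ lvI ι, o < γ := by
    intro o ho
    simp only [lvI, Finset.mem_union] at ho
    rcases ho with (ho | ho) | ho
    · obtain ⟨c, hc, rfl⟩ := Finset.mem_image.1 ho
      obtain ⟨c', hc', rfl⟩ := Finset.mem_image.1 hc
      exact (Finset.mem_filter.1 (Finset.mem_product.1 hc').1).2
    · obtain ⟨c, hc, rfl⟩ := Finset.mem_image.1 ho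
      exact (Finset.mem_filter.1 hc).2
    · obtain ⟨c, hc, rfl⟩ := Finset.mem_image.1 ho
      exact (Finset.mem_filter.1 (Finset.mem_product.1 (Finset.mem_filter.1 hc).1).2).2
  -- membership in W from values
  have hbxW : ∀ w' : ℕ → Cp (Xs h C), inbox (bx ι z) (val w') → w' ∈ W := by
    intro w' hw'
    refine hnear w' fun x hx k hk => ?_
    rcases lt_or_ge x.pt.1 γ with hlt | hge
    · exact hw' (x.pt, k, p x.pt k, q x.pt k) (Finset.mem_union_left _ (Finset.mem_image.2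
        ⟨(x.pt, k), Finset.mem_product.2 ⟨Finset.mem_filter.2 ⟨Finset.mem_image_of_mem _ hx, hlt⟩,
          Finset.mem_range.2 hk⟩, rfl⟩))
    · have hxl : x.pt ∈ l := Finset.mem_toList.2
        (Finset.mem_filter.2 ⟨Finset.mem_image_of_mem _ hx, hge⟩)
      obtain ⟨a, ha, hax⟩ := List.getElem_of_mem hxl
      have hza : z a = x.pt := (hz a ha).trans hax
      have := hw' (z a, k, p (z a) k, q (z a) k) (Finset.mem_union_right _ (Finset.mem_image.2
        ⟨(a, k, p (z a) k, q (z a) k), Finset.mem_image.2 ⟨(a, k), Finset.mem_product.2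
          ⟨Finset.mem_range.2 ha, Finset.mem_range.2 hk⟩, rfl⟩, rfl⟩))
      rw [hza] at this
      exact this
  have hvalid : valid W ι z := by
    refine ⟨fun a ha j hj => (decide_eq_bool ?_).symm, hbxW⟩
    simp only [ι, Finset.mem_filter, Finset.mem_product, Finset.mem_range]
    exact ⟨fun h => h.2, fun h => ⟨⟨ha, Finset.mem_filter.1 hj⟩, h⟩⟩
  have hzinj : ∀ a < ι.2.2.1, ∀ a' < ι.2.2.1, z a = z a' → a = a' := by
    intro a ha a' ha' haa
    have ha₁ : a < l.length := ha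
    have ha₂ : a' < l.length := ha'
    rw [hz a ha₁, hz a' ha₂] at haa
    exact (F₁.nodup_toList.getElem_inj_iff).1 haa
  have hunb : unb W ι := by
    by_contra hu
    refine hΦ2 ι hu ⟨z, fun a ha => ?_, hzinj, hvalid⟩
    exact (hγ ι hlvι).le.trans (Finset.mem_filter.1 (hzF a ha)).2
  obtain ⟨T, t, hT, htb, hTb, hTv, hTi⟩ := hΦ1 ι hunb
  have htγ : t < γ := htb.trans (hγ ι hlvι)
  have hTγ : ∀ i a, (T i a).1 < γ := fun i a => (hTb i a).trans (hγ ι hlvι)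
  let S : Finset (ℕ × ℕ) := (Finset.range l.length ×ˢ Finset.range lH.length).filter
    fun c => Bv h C (z c.1) (lH.getD c.2 (γ₀, 0)) = true
  have hO : {A : Sp γ | ∃ i : ℕ, ∀ a < l.length, ∀ m < lH.length, ev A (h' t i a) m =
      decide ((a, m) ∈ S)} ∈ base h h' γ (bc h C γ) := by
    refine Or.inr ⟨t, l.length, lH.length, S, htγ, ?_, ?_, rfl⟩
    · rw [hT]; exact hTγ
    · rw [hT]; exact hTi
  obtain ⟨A, i, hi⟩ := s2_list hC hO lH (Finset.nodup_toList _)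
    (fun j hj => (Finset.mem_filter.1 (Finset.mem_toList.1 hj)).2)
  rw [hT] at hi
  have hmatch : ∀ a < l.length, ∀ j ∈ G, Bv h C (T i a) j = Bv h C (z a) j := by
    intro a ha j hj
    rcases lt_or_ge j.1 γ with hlt | hge
    · have hjG : j ∈ ι.2.1 := Finset.mem_filter.2 ⟨hj, hlt⟩
      rw [(hTv i).1 a ha j hjG, hvalid.1 a ha j hjG]
    · have hjl : j ∈ lH := Finset.mem_toList.2 (Finset.mem_filter.2 ⟨hj, hge⟩)
      obtain ⟨m, hm, hmj⟩ := List.getElem_of_mem hjl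
      have h1 := hi a ha m hm
      rw [ev_of_lt _ (hTγ i a)] at h1
      have h2 : mrg C (fun i => lH[i]?) A (⟨T i a, hTγ i a⟩, m) = C (T i a) j := by
        unfold mrg
        simp only [List.getElem?_eq_getElem hm, hmj]
      rw [h2] at h1
      rw [Bv_of_le ((hTγ i a).le.trans hge), h1]
      refine decide_eq_bool ?_
      simp only [S, Finset.mem_filter, Finset.mem_product, Finset.mem_range,
        List.getD_eq_getElem?_getD, List.getElem?_eq_getElem hm, hmj, Option.getD_some]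
      exact ⟨fun h => h.2, fun h => ⟨⟨ha, hm⟩, h⟩⟩
  refine ⟨bx ι (T i), ⟨?_, (hTv i).2⟩, ?_⟩
  · intro c hc
    rcases Finset.mem_union.1 hc with hc | hc
    · obtain ⟨c', hc', rfl⟩ := Finset.mem_image.1 hc
      exact (Finset.mem_filter.1 (Finset.mem_product.1 hc').1).2
    · obtain ⟨c', hc', rfl⟩ := Finset.mem_image.1 hc
      exact hTγ i _
  · intro c hc
    rcases Finset.mem_union.1 hc with hc | hc
    · obtain ⟨c', hc', rfl⟩ := Finset.mem_image.1 hc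
      exact ⟨hp _ _, hq _ _⟩
    · obtain ⟨c', hc', rfl⟩ := Finset.mem_image.1 hc
      obtain ⟨c'', hc'', rfl⟩ := Finset.mem_image.1 hc'
      obtain ⟨ha, hk⟩ := Finset.mem_product.1 hc''
      have ha' := Finset.mem_range.1 ha
      have hk' := Finset.mem_range.1 hk
      exact hGs (Xs.mk (z c''.1)) (Xs.mk (T i c''.1)) (fun j hj => hmatch c''.1 ha' j
        (Finset.mem_biUnion.2 ⟨z c''.1, hzF _ ha', hj⟩)) c''.2 hk'

end Pool.Agent.CpCH
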