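import Pool.Agent.CpCH.CH
import Pool.Agent.CpPN.Final

/-!
# Strong S-spaces and Martin's axiom
-/

set_option autoImplicit false
open Set Topology TopologicalSpace

namespace Pool.Agent.CpCH

open Pool.Agent.CpPN (Cp CS separable_iff)

universe u v

/-- A recursion of length `ω₁` depending only on the set of the previous values. -/
lemma exists_rec_set {A : Type*} (R : Set A → A → Prop)
    (hR : ∀ C : Set A, C.Countable → ∃ a, R C a) :
    ∃ f : Om → A, ∀ α, R (f '' Iio α) (f α) := by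
  classical
  obtain ⟨a0, -⟩ := hR ∅ countable_empty
  let F : ∀ α : Om, (∀ β : Om, β < α → A) → A := fun α ih =>
    if h : ∃ a, R {a | ∃ β, ∃ hβ : β < α, ih β hβ = a} a then h.choose else a0
  let f : Om → A := (wellFounded_lt (α := Om)).fix F
  have hf : ∀ α, f α = F α fun β _ => f β := fun α =>
    (wellFounded_lt (α := Om)).fix_eq F α
  refine ⟨f, fun α => ?_⟩
  have h1 : {a | ∃ β, ∃ _ : β < α, f β = a} = f '' Iio α := by
    ext a
    constructor
    · rintro ⟨β, hβ, rfl⟩; exact ⟨β, hβ, rfl⟩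
    · rintro ⟨β, hβ, rfl⟩; exact ⟨β, hβ, rfl⟩
  have h2 : ∃ a, R {a | ∃ β, ∃ _ : β < α, f β = a} a := by
    rw [h1]; exact hR _ ((countable_Om α).image f)
  have h3 : f α = h2.choose := by
    rw [hf α]
    show (if h : ∃ a, R {a | ∃ β, ∃ _ : β < α, f β = a} a then h.choose else a0) = _
    rw [dif_pos h2]
  have h4 := h2.choose_spec
  rw [← h3] at h4
  rw [← h1]
  exact h4

/-- A right-separated sequence. -/
lemma exists_rs {T : Type u} [TopologicalSpace T] {S : Set T} (hS : ¬ IsLindelof S) :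
    ∃ (y : Om → T) (U : Om → Set T), (∀ α, IsOpen (U α) ∧ y α ∈ U α ∧ y α ∈ S) ∧
      ∀ α β, α < β → y β ∉ U α := by
  have h1 : ∃ (ι : Type u) (U : ι → Set T), (∀ i, IsOpen (U i)) ∧ S ⊆ ⋃ i, U i ∧
      ∀ r : Set ι, r.Countable → ¬ S ⊆ ⋃ i ∈ r, U i := by
    by_contra h
    push Not at h
    exact hS (isLindelof_of_countable_subcover fun {ι} U hU hSU => h ι U hU hSU)
  obtain ⟨ι, U, hU, hSU, hno⟩ := h1
  obtain ⟨f, hf⟩ := exists_rec_set (A := T × ι)
    (fun C a => a.1 ∈ S ∧ a.1 ∈ U a.2 ∧ ∀ c ∈ C, a.1 ∉ U c.2) (by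
      intro C hC
      have h2 := hno _ (hC.image Prod.snd)
      rw [not_subset] at h2
      obtain ⟨y, hyS, hy⟩ := h2
      obtain ⟨i, hi⟩ := mem_iUnion.1 (hSU hyS)
      refine ⟨(y, i), hyS, hi, fun c hc hyc => hy ?_⟩
      exact mem_iUnion₂.2 ⟨c.2, ⟨c, hc, rfl⟩, hyc⟩)
  refine ⟨fun α => (f α).1, fun α => U (f α).2, fun α => ⟨hU _, (hf α).2.1, (hf α).1⟩, ?_⟩
  intro α β hαβ
  exact (hf β).2.2 (f α) ⟨α, hαβ, rfl⟩

/-- If all finite powers have countable spread and the space is not hereditarily Lindelof, then all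
finite powers are hereditarily separable. -/
theorem hs_of_not_hl {T : Type u} [TopologicalSpace T]
    (hs : ∀ k, ∀ D : Set (Fin k → T), DiscreteTopology D → D.Countable) {S : Set T}
    (hS : ¬ IsLindelof S) (k : ℕ) (L : Set (Fin k → T)) : SeparableSpace L := by
  classical
  obtain ⟨y, U, hU, hyU⟩ := exists_rs hS
  by_contra hL
  rw [separable_iff] at hL
  push Not at hL
  obtain ⟨f, hf⟩ := exists_rec_set (A := Fin k → T)
    (fun C a => a ∈ L ∧ a ∉ closure (C ∩ L)) (by
      intro C hC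
      have := hL (C ∩ L) inter_subset_right (hC.mono inter_subset_left)
      rw [not_subset] at this
      obtain ⟨a, ha, ha'⟩ := this
      exact ⟨a, ha, ha'⟩)
  have hf' : ∀ α, f α ∉ closure (f '' Iio α) := by
    intro α hα
    refine (hf α).2 (closure_mono ?_ hα)
    rintro _ ⟨β, hβ, rfl⟩
    exact ⟨⟨β, hβ, rfl⟩, (hf β).1⟩
  let g : Om → (Fin (k + 1) → T) := fun α => Fin.cons (y α) (f α)
  have hg0 : ∀ α, g α 0 = y α := fun α => rfl
  have hgs : ∀ α, Fin.tail (g α) = f α := fun α => Fin.tail_cons _ _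
  have htail : Continuous (Fin.tail : (Fin (k + 1) → T) → (Fin k → T)) :=
    continuous_pi fun i => continuous_apply _
  have key : ∀ α β, y β ∈ U α → f β ∉ closure (f '' Iio α) → β = α := by
    intro α β h1 h2
    rcases lt_trichotomy β α with h | h | h
    · have h3 : f β ∈ f '' Iio α := ⟨β, h, rfl⟩
      exact absurd (subset_closure h3) h2
    · exact h
    · exact absurd h1 (hyU α β h)
  have hdisc : DiscreteTopology (range g) := by
    rw [discreteTopology_iff_isOpen_singleton]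
    rintro ⟨_, α, rfl⟩
    rw [isOpen_induced_iff]
    refine ⟨{z | z 0 ∈ U α} ∩ {z | Fin.tail z ∈ (closure (f '' Iio α))ᶜ},
      ((hU α).1.preimage (continuous_apply 0)).inter
        (isClosed_closure.isOpen_compl.preimage htail), ?_⟩
    ext ⟨_, β, rfl⟩
    simp only [mem_preimage, mem_singleton_iff, Subtype.mk.injEq]
    constructor
    · rintro ⟨h1, h2⟩
      have h2' : Fin.tail (g β) ∉ closure (f '' Iio α) := h2
      rw [hgs] at h2'
      rw [key α β h1 h2']
    · intro h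
      rw [h]
      refine ⟨(hU α).2.1, ?_⟩
      show Fin.tail (g α) ∉ closure (f '' Iio α)
      rw [hgs]
      exact hf' α
  have hinj : Function.Injective g := by
    intro α β hαβ
    have h1 : y α = y β := by rw [← hg0, ← hg0, hαβ]
    have h2 : f α = f β := by rw [← hgs, ← hgs, hαβ]
    refine (key α β ?_ ?_).symm
    · rw [← h1]; exact (hU α).2.1
    · rw [← h2]; exact hf' α
  have h5 := hs (k + 1) _ hdisc
  have h6 : (univ : Set Om).Countable := by
    rw [← image_univ] at h5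
    exact countable_of_injective_of_countable_image hinj.injOn h5
  exact not_countable_univ h6

section kunen

variable {T : Type u} [TopologicalSpace T]
  (hHS : ∀ k, ∀ S : Set (Fin k → T), SeparableSpace S)
  (y : Om → T) (U V : Om → Set T)
  (hV : ∀ α, IsOpen (V α)) (hyV : ∀ α, y α ∈ V α) (hVU : ∀ α, closure (V α) ⊆ U α)
  (hsep : ∀ α β, α < β → y β ∉ U α)

/-- the finite sets of indices on which the neighbourhoods separate -/
def Good (F : Finset Om) : Prop := ∀ α ∈ F, ∀ β ∈ F, α ≠ β → y β ∉ V α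

omit [TopologicalSpace T] in
lemma Good.mono {F G : Finset Om} (hG : Good y V G) (h : F ⊆ G) : Good y V F :=
  fun α hα β hβ => hG α (h hα) β (h hβ)

include hHS hVU hsep in
open Classical in
/-- The countable chain condition. -/
theorem ccc (A : Set (Finset Om)) (hA : ∀ F ∈ A, Good y V F) (hAc : ¬ A.Countable) :
    ∃ F ∈ A, ∃ G ∈ A, F ≠ G ∧ Good y V (F ∪ G) := by
  -- fixed cardinality
  obtain ⟨k, hk⟩ : ∃ k : ℕ, ¬ {F ∈ A | F.card = k}.Countable := by
    by_contra hcon
    push Not at hcon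
    refine hAc ((countable_iUnion hcon).mono ?_)
    intro F hF
    exact mem_iUnion.2 ⟨F.card, hF, rfl⟩
  let A' : Set (Finset Om) := {F ∈ A | F.card = k}
  -- root
  obtain ⟨R, hR, hRmax⟩ : ∃ R : Finset Om, ¬ {F ∈ A' | R ⊆ F}.Countable ∧
      ∀ α, α ∉ R → {F ∈ A' | insert α R ⊆ F}.Countable := by
    have hbd : ∀ R : Finset Om, ¬ {F ∈ A' | R ⊆ F}.Countable → R.card ≤ k := by
      intro R hR
      have hne : {F ∈ A' | R ⊆ F}.Nonempty := by
        rw [nonempty_iff_ne_empty]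
        intro h
        rw [h] at hR
        exact hR countable_empty
      obtain ⟨F, hF, hRF⟩ := hne
      rw [← hF.2]
      exact Finset.card_le_card hRF
    by_contra hcon
    push Not at hcon
    have h1 : ∀ n : ℕ, ∃ R : Finset Om, ¬ {F ∈ A' | R ⊆ F}.Countable ∧ R.card = n := by
      intro n
      induction n with
      | zero =>
        refine ⟨∅, ?_, rfl⟩
        have : {F ∈ A' | (∅ : Finset Om) ⊆ F} = A' := by
          ext F; simp
        rw [this]
        exact hk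
      | succ n ih =>
        obtain ⟨R, hR, hRn⟩ := ih
        obtain ⟨α, hα, h2⟩ := hcon R hR
        exact ⟨insert α R, h2, by rw [Finset.card_insert_of_notMem hα, hRn]⟩
    obtain ⟨R, hR, hRn⟩ := h1 (k + 1)
    have := hbd R hR
    omega
  let B : Set (Finset Om) := {F ∈ A' | R ⊆ F}
  have hBδ : ∀ δ : Om, ∃ F ∈ B, F ≠ R ∧ ∀ α ∈ F, α ∉ R → δ ≤ α := by
    intro δ
    by_contra hcon
    push Not at hcon
    refine hR ((((countable_Om δ).biUnion (t := fun α _ => {F ∈ A' | α ∉ R ∧ insert α R ⊆ F})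
      fun α _ => ?_).union (countable_singleton R)).mono ?_)
    · by_cases hα : α ∈ R
      · have : {F ∈ A' | α ∉ R ∧ insert α R ⊆ F} = ∅ := by
          ext F; simp [hα]
        rw [this]; exact countable_empty
      · refine (hRmax α hα).mono ?_
        intro F hF
        exact ⟨hF.1, hF.2.2⟩
    · intro F hF
      by_cases hFR : F = R
      · exact Or.inr hFR
      · obtain ⟨α, hα, hαR, hαδ⟩ := hcon F hF hFR
        refine Or.inl (mem_iUnion₂.2 ⟨α, hαδ, hF.1, hαR, ?_⟩)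
        intro β hβ
        rcases Finset.mem_insert.1 hβ with rfl | hβ
        · exact hα
        · exact hF.2 hβ
  -- enumerations
  have hen : ∀ F : Finset Om, F ∈ B → ∃ e : Fin (k - R.card) → Om, range e = ((F \ R : Finset Om) : Set Om) := by
    intro F hF
    have h1 : (F \ R).card = k - R.card := by
      rw [Finset.card_sdiff_of_subset hF.2, hF.1.2]
    exact ⟨(F \ R).orderEmbOfFin h1, Finset.range_orderEmbOfFin _ h1⟩
  choose! e he using hen
  let Z : Set (Fin (k - R.card) → T) := (fun F i => y (e F i)) '' B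
  obtain ⟨D, hDZ, hDc, hD⟩ := (separable_iff Z).1 (hHS _ Z)
  have h2 : ∀ d ∈ D, ∃ F ∈ B, (fun i => y (e F i)) = d := fun d hd => hDZ hd
  choose! Fd hFdB hFd using h2
  obtain ⟨δ, hδ⟩ := exists_gt_countable countable_Om (S := ⋃ d ∈ D, ((Fd d : Finset Om) : Set Om))
    (hDc.biUnion fun d _ => Finset.countable_toSet _)
  obtain ⟨F₁, hF₁, hF₁R, hF₁δ⟩ := hBδ δ
  obtain ⟨δ₂, hδ₂⟩ := exists_gt_countable countable_Om (S := ((F₁ : Finset Om) : Set Om))
    (Finset.countable_toSet _)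
  obtain ⟨F₂, hF₂, -, hF₂δ⟩ := hBδ δ₂
  let W : Set (Fin (k - R.card) → T) := {z | ∀ i, ∀ α ∈ F₁, z i ∉ closure (V α)}
  have hW : IsOpen W := by
    have : W = ⋂ i, ⋂ α ∈ F₁, (fun z : Fin (k - R.card) → T => z i) ⁻¹' (closure (V α))ᶜ := by
      ext z
      simp only [W, mem_ofPred_eq, mem_iInter, mem_preimage, mem_compl_iff]
    rw [this]
    exact isOpen_iInter_of_finite fun i => isOpen_biInter_finset fun α _ =>
      isClosed_closure.isOpen_compl.preimage (continuous_apply i)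
  have hzW : (fun i => y (e F₂ i)) ∈ W := by
    intro i α hα hcon
    have h3 : e F₂ i ∈ ((F₂ \ R : Finset Om) : Set Om) := by
      rw [← he F₂ hF₂]; exact mem_range_self i
    rw [Finset.mem_coe, Finset.mem_sdiff] at h3
    have h4 := hF₂δ _ h3.1 h3.2
    exact hsep α (e F₂ i) ((hδ₂ α hα).trans_le h4) (hVU α hcon)
  obtain ⟨d, hdW, hdD⟩ := mem_closure_iff.1 (hD ⟨F₂, hF₂, rfl⟩) W hW hzW
  have hne : ∃ γ ∈ F₁, γ ∉ R := by
    by_contra hcon
    push Not at hcon
    exact hF₁R (Finset.Subset.antisymm hcon hF₁.2)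
  have hdlt : ∀ α ∈ Fd d, α < δ := fun α hα => hδ α (mem_iUnion₂.2 ⟨d, hdD, hα⟩)
  refine ⟨Fd d, (hFdB d hdD).1.1, F₁, hF₁.1.1, ?_, ?_⟩
  · intro heq
    obtain ⟨γ, hγ, hγR⟩ := hne
    exact absurd (hdlt γ (heq ▸ hγ)) (not_lt.2 (hF₁δ γ hγ hγR))
  · intro α hα β hβ hαβ
    rcases Finset.mem_union.1 hα with hα | hα <;> rcases Finset.mem_union.1 hβ with hβ | hβ
    · exact hA _ (hFdB d hdD).1.1 α hα β hβ hαβ
    · by_cases hβR : β ∈ R
      · exact hA _ (hFdB d hdD).1.1 α hα β ((hFdB d hdD).2 hβR) hαβ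
      · have h3 : α < β := (hdlt α hα).trans_le (hF₁δ β hβ hβR)
        exact fun h4 => hsep α β h3 (hVU α (subset_closure h4))
    · by_cases hβR : β ∈ R
      · exact hA _ hF₁.1.1 α hα β (hF₁.2 hβR) hαβ
      · have h3 : β ∈ range (e (Fd d)) := by
          rw [he _ (hFdB d hdD), Finset.mem_coe, Finset.mem_sdiff]
          exact ⟨hβ, hβR⟩
        obtain ⟨i, hi⟩ := h3
        have h4 := hdW i α hα
        have h5 : d i = y β := by
          have h6 : y (e (Fd d) i) = d i := congrFun (hFd d hdD) i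
          rw [← h6, hi]
        rw [h5] at h4
        exact fun h6 => h4 (subset_closure h6)
    · exact hA _ hF₁.1.1 α hα β hβ hαβ

/-- Martin's axiom for `ℵ₁` dense sets. -/
def MA1 : Prop := ∀ (P : Type) [PartialOrder P] [Nonempty P],
  (∀ A : Set P, (∀ a ∈ A, ∀ b ∈ A, a ≠ b → ¬ ∃ c, c ≤ a ∧ c ≤ b) → A.Countable) →
  ∀ 𝒟 : Set (Set P), Cardinal.mk 𝒟 ≤ Cardinal.aleph 1 → (∀ D ∈ 𝒟, ∀ p, ∃ q ∈ D, q ≤ p) →
    ∃ G : Set P, (∀ p ∈ G, ∀ q, p ≤ q → q ∈ G) ∧ (∀ p ∈ G, ∀ q ∈ G, ∃ r ∈ G, r ≤ p ∧ r ≤ q) ∧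
      ∀ D ∈ 𝒟, ∃ p ∈ G, p ∈ D

include hHS hVU hsep hV hyV in
open Classical in
/-- Under Martin's axiom there is no such sequence (Kunen). -/
theorem false_of_MA (hMA : MA1) : False := by
  have hccc := ccc hHS y U V hVU hsep
  have hsing : ∀ α, Good y V {α} := by
    intro α β hβ γ hγ hne
    rw [Finset.mem_singleton] at hβ hγ
    exact absurd (hβ.trans hγ.symm) hne
  -- a condition below which everything is unbounded
  let bad : Finset Om → Om → Prop := fun q α => Good y V q ∧ ∀ r, Good y V r → q ⊆ r →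
    ∀ β ∈ r, β < α
  obtain ⟨p₀, hp₀, hp₀'⟩ : ∃ p₀, Good y V p₀ ∧ ∀ q, Good y V q → p₀ ⊆ q → ∀ α,
      ∃ r, Good y V r ∧ q ⊆ r ∧ ∃ β ∈ r, α ≤ β := by
    by_contra hcon
    push Not at hcon
    have hbad : ∀ p, Good y V p → ∃ q, p ⊆ q ∧ ∃ α, bad q α := by
      intro p hp
      obtain ⟨q, hq, hpq, α, hα⟩ := hcon p hp
      exact ⟨q, hpq, α, hq, hα⟩
    have hC : ∃ C : Set (Finset Om), C.Countable ∧ (∀ c ∈ C, ∃ α, bad c α) ∧
        ∀ q α, bad q α → ∃ c ∈ C, Good y V (c ∪ q) := by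
      by_contra hno
      push Not at hno
      obtain ⟨f, hf⟩ := exists_rec_set (A := Finset Om)
        (fun C a => (∀ c ∈ C, ∃ α, bad c α) → (∃ α, bad a α) ∧ ∀ c ∈ C, ¬ Good y V (c ∪ a)) (by
          intro C hC
          by_cases h : ∀ c ∈ C, ∃ α, bad c α
          · obtain ⟨q, α, hq, hq'⟩ := hno C hC h
            exact ⟨q, fun _ => ⟨⟨α, hq⟩, hq'⟩⟩
          · exact ⟨∅, fun h' => absurd h' h⟩)
      have hfbad : ∀ α, ∃ β, bad (f α) β := by
        intro α
        induction α using WellFoundedLT.induction with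
        | ind α ih =>
          exact (hf α (by rintro _ ⟨β, hβ, rfl⟩; exact ih β hβ)).1
      have hfinc : ∀ α β, α < β → ¬ Good y V (f α ∪ f β) := by
        intro α β hαβ
        exact (hf β (by rintro _ ⟨γ, _, rfl⟩; exact hfbad γ)).2 (f α) ⟨α, hαβ, rfl⟩
      have hfg : ∀ α, Good y V (f α) := fun α => by
        obtain ⟨β, hβ⟩ := hfbad α
        exact hβ.1
      have hinj : Function.Injective f := by
        intro α β hαβ
        rcases lt_trichotomy α β with h | h | h
        · refine absurd ?_ (hfinc α β h)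
          rw [hαβ, Finset.union_self]; exact hfg β
        · exact h
        · refine absurd ?_ (hfinc β α h)
          rw [hαβ, Finset.union_self]; exact hfg β
      obtain ⟨F, ⟨α, rfl⟩, G, ⟨β, rfl⟩, hne, hG⟩ := hccc (range f) (by
        rintro _ ⟨α, rfl⟩; exact hfg α) (by
        intro hc
        rw [← image_univ] at hc
        exact not_countable_univ (countable_of_injective_of_countable_image hinj.injOn hc))
      rcases lt_trichotomy α β with h | h | h
      · exact hfinc α β h hG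
      · exact hne (by rw [h])
      · rw [Finset.union_comm] at hG
        exact hfinc β α h hG
    obtain ⟨C, hCc, hCb, hCm⟩ := hC
    choose! a ha using hCb
    obtain ⟨δ, hδ⟩ := exists_gt_countable countable_Om (S := a '' C) (hCc.image a)
    obtain ⟨q, hq, α, hqα⟩ := hbad {δ} (hsing δ)
    obtain ⟨c, hcC, hcq⟩ := hCm q α hqα
    have h1 := (ha c hcC).2 (c ∪ q) hcq Finset.subset_union_left δ
      (Finset.mem_union_right _ (hq (Finset.mem_singleton_self δ)))
    exact lt_asymm h1 (hδ _ ⟨c, hcC, rfl⟩)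
  -- the poset
  let P : Type := {F : (Finset Om)ᵒᵈ // Good y V (OrderDual.ofDual F) ∧ p₀ ⊆ OrderDual.ofDual F}
  have hPne : Nonempty P := ⟨⟨OrderDual.toDual p₀, hp₀, Finset.Subset.refl _⟩⟩
  have hle : ∀ p q : P, p ≤ q ↔ OrderDual.ofDual q.1 ⊆ OrderDual.ofDual p.1 := fun p q => Iff.rfl
  obtain ⟨G, hGup, hGdir, hGD⟩ := hMA P (by
    intro A hA
    by_contra hAc
    let A' : Set (Finset Om) := (fun p : P => OrderDual.ofDual p.1) '' A
    have hinj : Function.Injective (fun p : P => OrderDual.ofDual p.1) := by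
      intro p q hpq
      exact Subtype.ext hpq
    obtain ⟨_, ⟨p, hp, rfl⟩, _, ⟨q, hq, rfl⟩, hne, hG⟩ := hccc A' (by
      rintro _ ⟨p, _, rfl⟩; exact p.2.1) (fun hc =>
        hAc (countable_of_injective_of_countable_image hinj.injOn hc))
    refine hA p hp q hq (fun h => hne (by rw [h])) ⟨⟨OrderDual.toDual _, hG, ?_⟩, ?_, ?_⟩
    · exact p.2.2.trans Finset.subset_union_left
    · rw [hle]; exact Finset.subset_union_left
    · rw [hle]; exact Finset.subset_union_right)
    (range fun α : Om => {p : P | ∃ β ∈ OrderDual.ofDual p.1, α ≤ β}) (by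
      refine Cardinal.mk_range_le.trans ?_
      rw [mk_Om]) (by
      rintro _ ⟨α, rfl⟩ p
      obtain ⟨r, hr, hpr, β, hβ, hαβ⟩ := hp₀' (OrderDual.ofDual p.1) p.2.1 p.2.2 α
      exact ⟨⟨OrderDual.toDual r, hr, p.2.2.trans hpr⟩, ⟨β, hβ, hαβ⟩, (hle _ _).2 hpr⟩)
  let S : Set Om := {α | ∃ p ∈ G, α ∈ OrderDual.ofDual p.1}
  have hS : ∀ α, ∃ β ∈ S, α ≤ β := by
    intro α
    obtain ⟨p, hp, β, hβ, hαβ⟩ := hGD _ ⟨α, rfl⟩
    exact ⟨β, ⟨p, hp, hβ⟩, hαβ⟩
  have hSV : ∀ α ∈ S, ∀ β ∈ S, α ≠ β → y β ∉ V α := by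
    rintro α ⟨p, hp, hα⟩ β ⟨q, hq, hβ⟩ hne
    obtain ⟨r, -, hrp, hrq⟩ := hGdir p hp q hq
    exact r.2.1 α ((hle _ _).1 hrp hα) β ((hle _ _).1 hrq hβ) hne
  let g : Om → (Fin 1 → T) := fun α _ => y α
  obtain ⟨D, hDS, hDc, hD⟩ := (separable_iff (g '' S)).1 (hHS 1 _)
  have hSD : g '' S ⊆ D := by
    rintro _ ⟨α, hα, rfl⟩
    obtain ⟨d, hdV, hdD⟩ := mem_closure_iff.1 (hD ⟨α, hα, rfl⟩) {z | z 0 ∈ V α}
      ((hV α).preimage (continuous_apply 0)) (hyV α)
    obtain ⟨β, hβ, rfl⟩ := hDS hdD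
    by_cases h : α = β
    · rw [h]; exact hdD
    · exact absurd hdV (hSV α hα β hβ h)
  have hinj : InjOn g S := by
    intro α hα β hβ hαβ
    by_contra hne
    have h1 : y α = y β := congrFun hαβ 0
    exact hSV α hα β hβ hne (h1 ▸ hyV α)
  have hSc : S.Countable := countable_of_injective_of_countable_image hinj (hDc.mono hSD)
  obtain ⟨δ, hδ⟩ := exists_gt_countable countable_Om hSc
  obtain ⟨β, hβ, hδβ⟩ := hS δ
  exact absurd (hδ β hβ) (not_lt.2 hδβ)

end kunen

/-- Kunen: under Martin's axiom a regular space all of whose finite powers are hereditarily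
separable is hereditarily Lindelof. -/
theorem lindelof_of_MA (hMA : MA1) {T : Type u} [TopologicalSpace T] [RegularSpace T]
    (hHS : ∀ k, ∀ S : Set (Fin k → T), SeparableSpace S) (S : Set T) : IsLindelof S := by
  by_contra hS
  obtain ⟨y, U, hU, hyU⟩ := exists_rs hS
  have h1 : ∀ α, ∃ V : Set T, IsOpen V ∧ y α ∈ V ∧ closure V ⊆ U α := by
    intro α
    obtain ⟨K, hK, hKc, hKU⟩ := exists_mem_nhds_isClosed_subset ((hU α).1.mem_nhds (hU α).2.1)
    refine ⟨interior K, isOpen_interior, mem_interior_iff_mem_nhds.2 hK, ?_⟩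
    exact (closure_minimal interior_subset hKc).trans hKU
  choose V hV hyV hVU using h1
  exact false_of_MA hHS y U V hV hyV hVU hyU hMA

end Pool.Agent.CpCH
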