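import Pool.Agent.CpCH.Lind

/-!
# Tasks satisfied by a continuous function are not meagre
-/

set_option autoImplicit false
open Set Topology

namespace Pool.Agent.CpCH

open Pool.Agent.CpPN (Cp)

universe u

variable {Ω : Type u} [LinearOrder Ω]

lemma exists_closure (hΩ : ∀ β : Ω, (Iio β).Countable) (δ : Ω) {S₀ : Set (Ω × ℕ)}
    (hS₀ : S₀.Countable) (Ψ : Finset (Ω × ℕ) → Finset (Ω × ℕ) → Set (Ω × ℕ))
    (hΨ : ∀ P P', (Ψ P P').Countable) : ∃ S : Set (Ω × ℕ), S₀ ⊆ S ∧ S.Countable ∧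
      (∀ j ∈ S, j ∈ S₀ ∨ δ ≤ j.1) ∧ ∀ P P' : Finset (Ω × ℕ), P' ⊆ P →
        (∀ j ∈ P, j.1 < δ ∨ j ∈ S) → ∀ j ∈ Ψ P P', δ ≤ j.1 → j ∈ S := by
  classical
  let stp : Set (Ω × ℕ) → Set (Ω × ℕ) := fun S => S ∪ {j | δ ≤ j.1 ∧ ∃ P P' : Finset (Ω × ℕ),
    P' ⊆ P ∧ (∀ j ∈ P, j.1 < δ ∨ j ∈ S) ∧ j ∈ Ψ P P'}
  have hstp : ∀ S : Set (Ω × ℕ), S.Countable → (stp S).Countable := by
    intro S hS
    refine hS.union ?_
    have h1 : ({x : Ω × ℕ | x.1 < δ} ∪ S).Countable := (countable_lt hΩ δ).union hS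
    have h2 := countable_finset h1
    refine ((h2.prod h2).biUnion fun p _ => hΨ p.1 p.2).mono ?_
    rintro j ⟨-, P, P', hPP, hP, hj⟩
    refine mem_iUnion₂.2 ⟨(P, P'), ⟨fun x hx => ?_, fun x hx => ?_⟩, hj⟩
    · exact hP x hx
    · exact hP x (hPP hx)
  let S : ℕ → Set (Ω × ℕ) := fun n => Nat.rec S₀ (fun _ S => stp S) n
  have hS0 : S 0 = S₀ := rfl
  have hSs : ∀ n, S (n + 1) = stp (S n) := fun n => rfl
  have hmono : Monotone S := monotone_nat_of_le_succ fun n => by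
    rw [hSs]; exact subset_union_left
  refine ⟨⋃ n, S n, subset_iUnion S 0, countable_iUnion fun n => ?_, ?_, ?_⟩
  · induction n with
    | zero => exact hS₀
    | succ n ih => rw [hSs]; exact hstp _ ih
  · intro j hj
    obtain ⟨n, hn⟩ := mem_iUnion.1 hj
    induction n with
    | zero => exact Or.inl hn
    | succ n ih =>
      rw [hSs] at hn
      rcases hn with hn | hn
      · exact ih hn
      · exact Or.inr hn.1
  · intro P P' hPP hP j hj hδj
    have h1 : ∀ x ∈ P, ∃ n, x.1 < δ ∨ x ∈ S n := by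
      intro x hx
      rcases hP x hx with h | h
      · exact ⟨0, Or.inl h⟩
      · obtain ⟨n, hn⟩ := mem_iUnion.1 h
        exact ⟨n, Or.inr hn⟩
    choose! n hn using h1
    refine mem_iUnion.2 ⟨P.sup n + 1, ?_⟩
    rw [hSs]
    refine Or.inr ⟨hδj, P, P', hPP, fun x hx => ?_, hj⟩
    rcases hn x hx with h | h
    · exact Or.inl h
    · exact Or.inr (hmono (Finset.le_sup hx) h)

variable {h : Ω → Option (Task Ω)} {h' : Ω → ℕ → ℕ → Ω × ℕ} {C : Ω × ℕ → Ω × ℕ → Bool}

theorem not_meagre (hΩ : ∀ β : Ω, (Iio β).Countable) (hC : ∀ β, Req h h' β C) {δ : Ω}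
    {t : Task Ω} (hδ : h δ = some t) (w : ℕ → Cp (Xs h C)) (l₀ : List (Ω × ℕ)) (hl₀ : l₀.Nodup)
    (hl₀δ : ∀ j ∈ l₀, δ ≤ j.1)
    (hSat : ∀ e : ℕ → Ω × ℕ, (∀ i, δ ≤ (e i).1) → (∀ i, ∀ hi : i < l₀.length, e i = l₀[i]) →
      Sat δ (bc h C δ) (fun z => C z.1 (e z.2)) (val w) t) :
    ¬ IsMeagre (Pset h δ (bc h C δ) t) := by
  classical
  intro hM
  have hsup : ∀ (y : Xs h C) (k m : ℕ), ∃ G : Finset (Ω × ℕ), ∀ y' : Xs h C,
      (∀ j ∈ G, Bv h C y'.pt j = Bv h C y.pt j) → |(w k).1 y' - (w k).1 y| < 1 / ((m : ℝ) + 1) :=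
    fun y k m => continuous_iff_finset.1 (w k).2 y _ (by positivity)
  choose Gs hGs using hsup
  have hpt : ∀ P P' : Finset (Ω × ℕ), ∃ x : Ω × ℕ,
      (∃ x' : Ω × ℕ, δ ≤ x'.1 ∧ ∀ j ∈ P, Bv h C x' j = decide (j ∈ P')) →
      (δ ≤ x.1 ∧ ∀ j ∈ P, Bv h C x j = decide (j ∈ P')) := by
    intro P P'
    by_cases hx : ∃ x' : Ω × ℕ, δ ≤ x'.1 ∧ ∀ j ∈ P, Bv h C x' j = decide (j ∈ P')
    · obtain ⟨x, hx⟩ := hx
      exact ⟨x, fun _ => hx⟩
    · exact ⟨(δ, 0), fun h => absurd h hx⟩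
  choose pt hpt using hpt
  let Ψ : Finset (Ω × ℕ) → Finset (Ω × ℕ) → Set (Ω × ℕ) := fun P P' =>
    (⋃ y ∈ {y : Ω × ℕ | y.1 < δ}, ⋃ k, ⋃ m, (Gs (Xs.mk y) k m : Set (Ω × ℕ))) ∪
      ⋃ k, ⋃ m, (Gs (Xs.mk (pt P P')) k m : Set (Ω × ℕ))
  have hΨ : ∀ P P', (Ψ P P').Countable := by
    intro P P'
    refine ((countable_lt hΩ δ).biUnion fun y _ => ?_).union ?_
    · exact countable_iUnion fun k => countable_iUnion fun m => Finset.countable_toSet _
    · exact countable_iUnion fun k => countable_iUnion fun m => Finset.countable_toSet _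
  obtain ⟨S, hS₀S, hSc, hSδ, hScl⟩ := exists_closure hΩ δ (S₀ := {j | j ∈ l₀} ∪
    range fun i : ℕ => ((δ, i) : Ω × ℕ)) ((List.finite_toSet l₀).countable.union
    (countable_range _)) Ψ hΨ
  have hSδ' : ∀ j ∈ S, δ ≤ j.1 := by
    intro j hj
    rcases hSδ j hj with (h | ⟨i, rfl⟩) | h
    · exact hl₀δ j h
    · exact le_rfl
    · exact h
  obtain ⟨e, hinj, hran, hel, heO⟩ := exists_enum hC hSc hSδ'
    (fun i => hS₀S (Or.inr ⟨i, rfl⟩)) l₀ hl₀ (fun j hj => hS₀S (Or.inl hj))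
    (fun k => mgO (Pset h δ (bc h C δ) t) k)
    (fun k => Or.inl (Or.inl (Or.inl ⟨t, hδ, hM, k, rfl⟩)))
  have heδ : ∀ i, δ ≤ (e i).1 := fun i => hSδ' _ (by rw [← hran]; exact mem_range_self i)
  let A : Sp δ := fun z => C z.1 (e z.2)
  have hevA : ∀ y : Ω × ℕ, y.1 < δ → ∀ i, ev A y i = Bv h C y (e i) := by
    intro y hy i
    rw [ev_of_lt _ hy, Bv_of_le (hy.le.trans (heδ i))]
  -- matching on a finite set of indices
  have hmatch : ∀ (Q : Finset (Ω × ℕ)), (∀ j ∈ Q, δ ≤ j.1 → j ∈ S) → ∀ (s : Ω × ℕ → Bool)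
      (y : Ω × ℕ), y.1 < δ → (∀ j ∈ Q.filter (fun j => j.1 < δ), bc h C δ y j = s j) →
      (∀ i ∈ (Q.filter fun j => δ ≤ j.1).preimage e hinj.injOn, ev A y i = s (e i)) →
      ∀ j ∈ Q, Bv h C y j = s j := by
    intro Q hQ s y hy h1 h2 j hj
    rcases lt_or_ge j.1 δ with hlt | hge
    · rw [← h1 j (Finset.mem_filter.2 ⟨hj, hlt⟩), bc_of_lt hy hlt]
    · have hjS := hQ j hj hge
      rw [← hran] at hjS
      obtain ⟨i, rfl⟩ := hjS
      rw [← h2 i (Finset.mem_preimage.2 (Finset.mem_filter.2 ⟨hj, hge⟩)), hevA y hy]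
  have hRel : Rel h δ (bc h C δ) A (val w) := by
    constructor
    · intro y hy k m
      have hQ : ∀ j ∈ Gs (Xs.mk y) k m, δ ≤ j.1 → j ∈ S := by
        intro j hj hjδ
        refine hScl ∅ ∅ (Finset.Subset.refl _) (fun j hj => absurd hj (Finset.notMem_empty j)) j
          (Or.inl ?_) hjδ
        exact mem_iUnion₂.2 ⟨y, hy, mem_iUnion.2 ⟨k, mem_iUnion.2 ⟨m, hj⟩⟩⟩
      refine ⟨(Gs (Xs.mk y) k m).filter fun j => j.1 < δ, fun j hj => (Finset.mem_filter.1 hj).2,
        ((Gs (Xs.mk y) k m).filter fun j => δ ≤ j.1).preimage e hinj.injOn, fun y' hy' => ?_⟩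
      refine hGs (Xs.mk y) k m (Xs.mk y') ?_
      refine hmatch _ hQ (Bv h C y) y' hy'.1 (fun j hj => ?_) (fun i hi => ?_)
      · rw [hy'.2.1 j hj, bc_of_lt hy (Finset.mem_filter.1 hj).2]
      · rw [hy'.2.2 i hi, hevA y hy]
    · intro G g H u k m hG hgA
      let P : Finset (Ω × ℕ) := G ∪ H.image e
      let P' : Finset (Ω × ℕ) := (G.filter fun j => g j = true) ∪
        (H.filter fun i => u i = true).image e
      have hPP : P' ⊆ P := Finset.union_subset_union (Finset.filter_subset _ _)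
        (Finset.image_subset_image (Finset.filter_subset _ _))
      have hGP : ∀ j ∈ G, (j ∈ P' ↔ g j = true) := by
        intro j hj
        constructor
        · intro h
          rcases Finset.mem_union.1 h with h | h
          · exact (Finset.mem_filter.1 h).2
          · obtain ⟨i, -, hi⟩ := Finset.mem_image.1 h
            have := heδ i
            rw [hi] at this
            exact absurd (hG j hj) (not_lt.2 this)
        · intro h
          exact Finset.mem_union_left _ (Finset.mem_filter.2 ⟨hj, h⟩)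
      have hHP : ∀ i ∈ H, (e i ∈ P' ↔ u i = true) := by
        intro i hi
        constructor
        · intro h
          rcases Finset.mem_union.1 h with h | h
          · exact absurd (hG _ (Finset.mem_filter.1 h).1) (not_lt.2 (heδ i))
          · obtain ⟨i', hi', hii⟩ := Finset.mem_image.1 h
            rw [← hinj hii]
            exact (Finset.mem_filter.1 hi').2
        · intro h
          exact Finset.mem_union_right _ (Finset.mem_image.2 ⟨i, Finset.mem_filter.2 ⟨hi, h⟩, rfl⟩)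
      obtain ⟨hxδ, hxP⟩ := hpt P P' (exists_point hC δ P (fun j => decide (j ∈ P')) (by
        intro j hj hjδ hjA
        rcases Finset.mem_union.1 hj with hjG | hjH
        · have h1 := hgA j hjG hjA
          rw [decide_eq_bool (hGP j hjG), h1]
        · obtain ⟨i, -, rfl⟩ := Finset.mem_image.1 hjH
          exact absurd hjδ (not_lt.2 (heδ i))))
      let Q : Finset (Ω × ℕ) := Gs (Xs.mk (pt P P')) k (2 * m + 1)
      have hQ : ∀ j ∈ Q, δ ≤ j.1 → j ∈ S := by
        intro j hj hjδ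
        refine hScl P P' hPP (fun j hj => ?_) j (Or.inr ?_) hjδ
        · rcases Finset.mem_union.1 hj with hjG | hjH
          · exact Or.inl (hG j hjG)
          · obtain ⟨i, -, rfl⟩ := Finset.mem_image.1 hjH
            exact Or.inr (by rw [← hran]; exact mem_range_self i)
        · exact mem_iUnion.2 ⟨k, mem_iUnion.2 ⟨2 * m + 1, hj⟩⟩
      refine ⟨G ∪ Q.filter (fun j => j.1 < δ), Bv h C (pt P P'),
        H ∪ (Q.filter fun j => δ ≤ j.1).preimage e hinj.injOn, fun i => Bv h C (pt P P') (e i),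
        Finset.subset_union_left, Finset.subset_union_left, ?_, ?_, ?_, ?_, ?_⟩
      · intro j hj
        rcases Finset.mem_union.1 hj with hj | hj
        · exact hG j hj
        · exact (Finset.mem_filter.1 hj).2
      · intro j hj hjA
        refine Bv_of_none hjA ?_
        rcases Finset.mem_union.1 hj with hj | hj
        · exact (hG j hj).trans_le hxδ
        · exact (Finset.mem_filter.1 hj).2.trans_le hxδ
      · intro j hj
        rw [hxP j (Finset.mem_union_left _ hj)]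
        exact decide_eq_bool (hGP j hj)
      · intro i hi
        show Bv h C (pt P P') (e i) = u i
        rw [hxP (e i) (Finset.mem_union_right _ (Finset.mem_image_of_mem _ hi))]
        exact decide_eq_bool (hHP i hi)
      · have hy : ∀ y : Ω × ℕ, mt δ (bc h C δ) A (G ∪ Q.filter (fun j => j.1 < δ))
            (Bv h C (pt P P')) (H ∪ (Q.filter fun j => δ ≤ j.1).preimage e hinj.injOn)
            (fun i => Bv h C (pt P P') (e i)) y →
            |(w k).1 (Xs.mk y) - (w k).1 (Xs.mk (pt P P'))| < 1 / (((2 * m + 1 : ℕ) : ℝ) + 1) := by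
          intro y hy
          refine hGs (Xs.mk (pt P P')) k (2 * m + 1) (Xs.mk y) ?_
          exact hmatch Q hQ (Bv h C (pt P P')) y hy.1
            (fun j hj => hy.2.1 j (Finset.mem_union_right _ hj))
            (fun i hi => hy.2.2 i (Finset.mem_union_right _ hi))
        intro y y' h1 h2
        have h3 := hy y h1
        have h4 := hy y' h2
        have h5 : 1 / (((2 * m + 1 : ℕ) : ℝ) + 1) + 1 / (((2 * m + 1 : ℕ) : ℝ) + 1) =
            1 / ((m : ℝ) + 1) := by
          push_cast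
          field_simp
          ring
        show |(w k).1 (Xs.mk y) - (w k).1 (Xs.mk y')| < _
        rw [← h5]
        rw [abs_lt] at h3 h4 ⊢
        constructor <;> linarith [h3.1, h3.2, h4.1, h4.2]
  have hAP : A ∈ Pset h δ (bc h C δ) t := ⟨val w, hRel, hSat e heδ hel⟩
  obtain ⟨k, hk⟩ := (mgO_spec hM).2 A hAP
  exact hk (heO k)

end Pool.Agent.CpCH
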