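import Pool.Agent.CpPN.Powers

/-!
# Perfect normality of `C_p(E)` from separability of closed subspaces of finite powers of `E`
-/

set_option autoImplicit false
open Set Topology TopologicalSpace

namespace Pool.Agent.CpCH

open Pool.Agent.CpPN (Cp CS)

universe u

variable {E : Type u} [TopologicalSpace E]

/-- a basic open set -/
def cyl {n : ℕ} (e : Fin n → E) (O : Fin n → ℚ × ℚ) : Set (Cp E) :=
  {φ | ∀ i, ((O i).1 : ℝ) < φ.1 (e i) ∧ φ.1 (e i) < ((O i).2 : ℝ)}

lemma open_eq_union (hE : ∀ n, CS (Fin n → E)) {W : Set (Cp E)} (hW : IsOpen W) :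
    ∃ S : Set (Σ n : ℕ, (Fin n → E) × (Fin n → ℚ × ℚ)), S.Countable ∧
      W = ⋃ c ∈ S, cyl c.2.1 c.2.2 := by
  classical
  let K : ∀ n : ℕ, (Fin n → ℚ × ℚ) → Set (Fin n → E) := fun n O => {e | cyl e O ⊆ W}
  have hK : ∀ n O, IsClosed (K n O) := by
    intro n O
    rw [← isOpen_compl_iff, isOpen_iff_mem_nhds]
    intro e he
    have h1 : ∃ ψ, ψ ∈ cyl e O ∧ ψ ∉ W := by
      by_contra hcon
      push Not at hcon
      exact he hcon
    obtain ⟨ψ, hψ, hψW⟩ := h1
    have h2 : IsOpen {e' : Fin n → E | ∀ i, ((O i).1 : ℝ) < ψ.1 (e' i) ∧ ψ.1 (e' i) < ((O i).2 : ℝ)} := by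
      have : {e' : Fin n → E | ∀ i, ((O i).1 : ℝ) < ψ.1 (e' i) ∧ ψ.1 (e' i) < ((O i).2 : ℝ)} =
          ⋂ i, ({e' : Fin n → E | ((O i).1 : ℝ) < ψ.1 (e' i)} ∩ {e' | ψ.1 (e' i) < ((O i).2 : ℝ)}) := by
        ext e'; simp
      rw [this]
      exact isOpen_iInter_of_finite fun i =>
        (isOpen_lt continuous_const (ψ.2.comp (continuous_apply i))).inter
          (isOpen_lt (ψ.2.comp (continuous_apply i)) continuous_const)
    refine Filter.mem_of_superset (h2.mem_nhds hψ) fun e' he' hK' => ?_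
    exact hψW (hK' he')
  choose D hDK hDc hD using fun (n : ℕ) (O : Fin n → ℚ × ℚ) => hE n (K n O) (hK n O)
  refine ⟨⋃ n, ⋃ O : Fin n → ℚ × ℚ, (fun e => ⟨n, e, O⟩) '' D n O,
    countable_iUnion fun n => countable_iUnion fun O => (hDc n O).image _, ?_⟩
  refine Subset.antisymm ?_ ?_
  · intro φ hφ
    obtain ⟨F, ε, hε, hF⟩ := Pool.Agent.CpPN.exists_fin_eps_one hW hφ
    have hrat : ∀ x : E, ∃ c : ℚ × ℚ, (c.1 : ℝ) < φ.1 x ∧ φ.1 x < (c.2 : ℝ) ∧
        (c.2 : ℝ) - c.1 < ε := by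
      intro x
      obtain ⟨p, hp1, hp2⟩ := exists_rat_btwn (show φ.1 x - ε / 2 < φ.1 x by linarith)
      obtain ⟨q, hq1, hq2⟩ := exists_rat_btwn (show φ.1 x < φ.1 x + ε / 2 by linarith)
      exact ⟨(p, q), hp2, hq1, by simp only; linarith⟩
    choose c hc1 hc2 hc3 using hrat
    let e : Fin F.toList.length → E := fun i => F.toList[i]
    let O : Fin F.toList.length → ℚ × ℚ := fun i => c (e i)
    have heK : e ∈ K _ O := by
      intro ψ hψ
      refine hF ψ fun x hx => ?_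
      obtain ⟨i, hi, hix⟩ := List.getElem_of_mem (Finset.mem_toList.2 hx)
      have h1 := hψ ⟨i, hi⟩
      have h2 : e ⟨i, hi⟩ = x := hix
      simp only [O, h2] at h1
      have h3 := hc1 x
      have h4 := hc2 x
      have h5 := hc3 x
      rw [abs_lt]
      constructor <;> linarith [h1.1, h1.2]
    have h2 : IsOpen {e' : Fin F.toList.length → E |
        ∀ i, ((O i).1 : ℝ) < φ.1 (e' i) ∧ φ.1 (e' i) < ((O i).2 : ℝ)} := by
      have : {e' : Fin F.toList.length → E |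
          ∀ i, ((O i).1 : ℝ) < φ.1 (e' i) ∧ φ.1 (e' i) < ((O i).2 : ℝ)} =
          ⋂ i, ({e' : Fin F.toList.length → E | ((O i).1 : ℝ) < φ.1 (e' i)} ∩
            {e' | φ.1 (e' i) < ((O i).2 : ℝ)}) := by
        ext e'; simp
      rw [this]
      exact isOpen_iInter_of_finite fun i =>
        (isOpen_lt continuous_const (φ.2.comp (continuous_apply i))).inter
          (isOpen_lt (φ.2.comp (continuous_apply i)) continuous_const)
    have h3 := hD _ O heK
    rw [mem_closure_iff] at h3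
    obtain ⟨e', he', heD⟩ := h3 _ h2 (fun i => ⟨hc1 _, hc2 _⟩)
    refine mem_iUnion₂.2 ⟨⟨_, e', O⟩, mem_iUnion.2 ⟨_, mem_iUnion.2 ⟨O, ⟨e', heD, rfl⟩⟩⟩, ?_⟩
    exact he'
  · refine iUnion₂_subset fun c hc => ?_
    obtain ⟨n, hc⟩ := mem_iUnion.1 hc
    obtain ⟨O, hc⟩ := mem_iUnion.1 hc
    obtain ⟨e, he, rfl⟩ := hc
    exact hDK n O he

/-- every open set is a cozero set -/
lemma open_eq_cozero (hE : ∀ n, CS (Fin n → E)) {W : Set (Cp E)} (hW : IsOpen W) :
    ∃ g : Cp E → ℝ, Continuous g ∧ (∀ φ, 0 ≤ g φ) ∧ ∀ φ, φ ∈ W ↔ 0 < g φ := by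
  classical
  obtain ⟨S, hSc, hS⟩ := open_eq_union hE hW
  rcases S.eq_empty_or_nonempty with he | hne
  · refine ⟨fun _ => 0, continuous_const, fun _ => le_rfl, fun φ => ?_⟩
    rw [hS, he]
    simp
  obtain ⟨c, hc⟩ := hSc.exists_eq_range hne
  let f : ∀ k : ℕ, Cp E → ℝ := fun k φ => ∏ i : Fin (c k).1,
    max 0 (min (φ.1 ((c k).2.1 i) - ((c k).2.2 i).1) (((c k).2.2 i).2 - φ.1 ((c k).2.1 i)))
  have hf : ∀ k, Continuous (f k) := fun k => continuous_finsetProd _ fun i _ =>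
    continuous_const.max (((Pool.Agent.CpPN.continuous_eval _).sub continuous_const).min
      (continuous_const.sub (Pool.Agent.CpPN.continuous_eval _)))
  have hf0 : ∀ k φ, 0 ≤ f k φ := fun k φ => Finset.prod_nonneg fun i _ => le_max_left _ _
  have hfpos : ∀ k φ, 0 < f k φ ↔ φ ∈ cyl (c k).2.1 (c k).2.2 := by
    intro k φ
    constructor
    · intro h i
      have h1 : max 0 (min (φ.1 ((c k).2.1 i) - ((c k).2.2 i).1)
          (((c k).2.2 i).2 - φ.1 ((c k).2.1 i))) ≠ 0 := by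
        intro h0
        have : f k φ = 0 := Finset.prod_eq_zero (Finset.mem_univ i) h0
        rw [this] at h
        exact lt_irrefl _ h
      have h2 : 0 < min (φ.1 ((c k).2.1 i) - ((c k).2.2 i).1)
          (((c k).2.2 i).2 - φ.1 ((c k).2.1 i)) := by
        by_contra h3
        exact h1 (max_eq_left (not_lt.1 h3))
      have h3 := lt_min_iff.1 h2
      exact ⟨by linarith [h3.1], by linarith [h3.2]⟩
    · intro h
      refine Finset.prod_pos fun i _ => ?_
      have := h i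
      exact lt_max_of_lt_right (lt_min (by linarith [this.1]) (by linarith [this.2]))
  let t : ℕ → Cp E → ℝ := fun k φ => min 1 (f k φ) * (1 / 2) ^ k
  have ht0 : ∀ k φ, 0 ≤ t k φ := fun k φ =>
    mul_nonneg (le_min zero_le_one (hf0 k φ)) (by positivity)
  have htb : ∀ k φ, ‖t k φ‖ ≤ (1 / 2 : ℝ) ^ k := by
    intro k φ
    rw [Real.norm_of_nonneg (ht0 k φ)]
    calc min 1 (f k φ) * (1 / 2) ^ k ≤ 1 * (1 / 2) ^ k :=
          mul_le_mul_of_nonneg_right (min_le_left _ _) (by positivity)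
      _ = (1 / 2) ^ k := one_mul _
  have hsum : Summable fun k : ℕ => (1 / 2 : ℝ) ^ k := summable_geometric_two
  have hsφ : ∀ φ, Summable fun k => t k φ := fun φ =>
    Summable.of_norm_bounded hsum fun k => htb k φ
  refine ⟨fun φ => ∑' k, t k φ, ?_, fun φ => tsum_nonneg fun k => ht0 k φ, fun φ => ?_⟩
  · exact continuous_tsum (fun k => (continuous_const.min (hf k)).mul continuous_const) hsum htb
  · rw [hS, hc]
    constructor
    · intro h
      obtain ⟨c', hc', hφ⟩ := mem_iUnion₂.1 h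
      obtain ⟨k, rfl⟩ := hc'
      have h1 : 0 < t k φ := mul_pos (lt_min one_pos ((hfpos k φ).2 hφ)) (by positivity)
      exact (hsφ φ).tsum_pos (fun k => ht0 k φ) k h1
    · intro h
      by_contra hcon
      have h1 : ∀ k, t k φ = 0 := by
        intro k
        have h2 : ¬ 0 < f k φ := by
          intro h3
          exact hcon (mem_iUnion₂.2 ⟨c k, mem_range_self k, (hfpos k φ).1 h3⟩)
        have h3 : f k φ = 0 := le_antisymm (not_lt.1 h2) (hf0 k φ)
        simp only [t, h3]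
        simp
      simp only [h1, tsum_zero] at h
      exact lt_irrefl _ h

/-- Perfect normality. -/
theorem perfectlyNormal_of_CS (hE : ∀ n, CS (Fin n → E)) : PerfectlyNormalSpace (Cp E) := by
  have key : ∀ F : Set (Cp E), IsClosed F → ∃ g : Cp E → ℝ, Continuous g ∧ (∀ φ, 0 ≤ g φ) ∧
      ∀ φ, φ ∈ F ↔ g φ = 0 := by
    intro F hF
    obtain ⟨g, hg, hg0, hgF⟩ := open_eq_cozero hE hF.isOpen_compl
    refine ⟨g, hg, hg0, fun φ => ?_⟩
    have := hgF φ
    constructor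
    · intro h
      by_contra h1
      exact (this.2 (lt_of_le_of_ne (hg0 φ) (Ne.symm h1))) h
    · intro h
      by_contra h1
      have := this.1 h1
      rw [h] at this
      exact lt_irrefl _ this
  have hN : NormalSpace (Cp E) := by
    constructor
    intro F₁ F₂ hF₁ hF₂ hd
    obtain ⟨g₁, hg₁, hg₁0, hg₁F⟩ := key F₁ hF₁
    obtain ⟨g₂, hg₂, hg₂0, hg₂F⟩ := key F₂ hF₂
    refine ⟨{φ | g₁ φ < g₂ φ}, {φ | g₂ φ < g₁ φ}, isOpen_lt hg₁ hg₂, isOpen_lt hg₂ hg₁, ?_, ?_, ?_⟩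
    · intro φ hφ
      show g₁ φ < g₂ φ
      rw [(hg₁F φ).1 hφ]
      refine lt_of_le_of_ne (hg₂0 φ) fun h => ?_
      exact Set.disjoint_left.1 hd hφ ((hg₂F φ).2 h.symm)
    · intro φ hφ
      show g₂ φ < g₁ φ
      rw [(hg₂F φ).1 hφ]
      refine lt_of_le_of_ne (hg₁0 φ) fun h => ?_
      exact Set.disjoint_left.1 hd ((hg₁F φ).2 h.symm) hφ
    · rw [Set.disjoint_left]
      intro φ h1 h2
      exact lt_asymm (show g₁ φ < g₂ φ from h1) h2
  refine { hN with closed_gdelta := fun F hF => ?_ }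
  obtain ⟨g, hg, hg0, hgF⟩ := key F hF
  have : F = ⋂ n : ℕ, {φ | g φ < 1 / ((n : ℝ) + 1)} := by
    ext φ
    rw [hgF φ, mem_iInter]
    constructor
    · intro h n
      show g φ < _
      rw [h]; positivity
    · intro h
      refine le_antisymm ?_ (hg0 φ)
      refine le_of_forall_pos_le_add fun ε hε => ?_
      obtain ⟨n, hn⟩ := exists_nat_one_div_lt hε
      have h1 : g φ < 1 / ((n : ℝ) + 1) := h n
      linarith
  rw [this]
  exact IsGδ.iInter_of_isOpen fun n => isOpen_lt hg continuous_const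

end Pool.Agent.CpCH
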