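import Pool.Agent.CpCH.Comb

/-!
# The space
-/

set_option autoImplicit false
open Set Topology

namespace Pool.Agent.CpCH

universe u

variable {Ω : Type u} [LinearOrder Ω]

/-- The space: the set of points `Ω × ℕ` with the topology generated by the clopen sets. -/
def Xs (_h : Ω → Option (Task Ω)) (_C : Ω × ℕ → Ω × ℕ → Bool) : Type u := Ω × ℕ

variable {h : Ω → Option (Task Ω)} {h' : Ω → ℕ → ℕ → Ω × ℕ} {C : Ω × ℕ → Ω × ℕ → Bool}

/-- a point as a pair -/
def Xs.pt (x : Xs h C) : Ω × ℕ := x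

/-- a pair as a point -/
def Xs.mk (x : Ω × ℕ) : Xs h C := x

noncomputable instance : TopologicalSpace (Xs h C) :=
  TopologicalSpace.induced (fun x j => Bv h C x.pt j) inferInstance

lemma isInducing_Xs : IsInducing (fun (x : Xs h C) j => Bv h C x.pt j) := ⟨rfl⟩

lemma isOpen_Bv (j : Ω × ℕ) (b : Bool) : IsOpen {x : Xs h C | Bv h C x.pt j = b} :=
  (isOpen_coord j b).preimage isInducing_Xs.continuous

lemma exists_finset_nhd {U : Set (Xs h C)} (hU : IsOpen U) {x : Xs h C} (hx : x ∈ U) :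
    ∃ G : Finset (Ω × ℕ), ∀ y : Xs h C, (∀ j ∈ G, Bv h C y.pt j = Bv h C x.pt j) → y ∈ U := by
  obtain ⟨V, hV, rfl⟩ := isInducing_Xs.isOpen_iff.1 hU
  obtain ⟨G, hG⟩ := exists_finset_of_open hV hx
  exact ⟨G, fun y hy => hG _ hy⟩

lemma isOpen_nhd (G : Finset (Ω × ℕ)) (s : Ω × ℕ → Bool) :
    IsOpen {y : Xs h C | ∀ j ∈ G, Bv h C y.pt j = s j} := by
  have : {y : Xs h C | ∀ j ∈ G, Bv h C y.pt j = s j} =
      ⋂ j ∈ G, {y : Xs h C | Bv h C y.pt j = s j} := by
    ext y; simp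
  rw [this]
  exact isOpen_biInter_finset fun j _ => isOpen_Bv j _

lemma continuous_iff_finset {f : Xs h C → ℝ} : Continuous f ↔ ∀ x : Xs h C, ∀ ε > 0,
    ∃ G : Finset (Ω × ℕ), ∀ y : Xs h C, (∀ j ∈ G, Bv h C y.pt j = Bv h C x.pt j) →
      |f y - f x| < ε := by
  constructor
  · intro hf x ε hε
    have h1 : IsOpen {y | |f y - f x| < ε} := isOpen_lt ((hf.sub continuous_const).abs)
      continuous_const
    exact exists_finset_nhd h1 (by simpa using hε)
  · intro hf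
    rw [continuous_iff_continuousAt]
    intro x
    rw [ContinuousAt, Metric.tendsto_nhds]
    intro ε hε
    obtain ⟨G, hG⟩ := hf x ε hε
    refine Filter.mem_of_superset ((isOpen_nhd G (Bv h C x.pt)).mem_nhds fun j _ => rfl) fun y hy => ?_
    show dist (f y) (f x) < ε
    rw [Real.dist_eq]
    exact hG y hy

section facts
variable (hC : ∀ β, Req h h' β C) (hA : ∀ β, ∃ β', β < β' ∧ h β' = none)
  (hΩ : ∀ β : Ω, (Iio β).Countable)
include hC hA

lemma injective_Xs : Function.Injective (fun (x : Xs h C) j => Bv h C x.pt j) := by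
  classical
  intro x y hxy
  by_contra hne
  obtain ⟨β, hβ, hβA⟩ := hA (max x.pt.1 y.pt.1)
  have hx : x.pt.1 < β := (le_max_left _ _).trans_lt hβ
  have hy : y.pt.1 < β := (le_max_right _ _).trans_lt hβ
  obtain ⟨i, -, hi⟩ := exists_set hC β {x.pt, y.pt} {x.pt} (by
    intro z hz
    rcases Finset.mem_insert.1 hz with rfl | hz
    · exact hx
    · rw [Finset.mem_singleton.1 hz]; exact hy) (by
    intro z hz
    rw [Finset.mem_singleton.1 hz]; exact hx) 0
  have h1 := hi x.pt (by simp)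
  have h2 := hi y.pt (by simp)
  have h3 : Bv h C x.pt (β, i) = Bv h C y.pt (β, i) := congrFun hxy (β, i)
  rw [Bv_of_le (show x.pt.1 ≤ ((β, i) : Ω × ℕ).1 from hx.le),
    Bv_of_le (show y.pt.1 ≤ ((β, i) : Ω × ℕ).1 from hy.le), h1, h2] at h3
  have h4 : y.pt ∉ ({x.pt} : Finset (Ω × ℕ)) := by
    intro h5
    exact hne (Finset.mem_singleton.1 h5).symm
  simp at h3
  exact hne h3.symm

lemma t35_Xs : T35Space (Xs h C) :=
  Topology.IsEmbedding.t35Space ⟨isInducing_Xs, injective_Xs hC hA⟩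

include hΩ in
lemma locallyCountable_Xs (x : Xs h C) : ∃ U : Set (Xs h C), IsOpen U ∧ x ∈ U ∧ U.Countable := by
  classical
  obtain ⟨β, hβ, hβA⟩ := hA x.pt.1
  obtain ⟨i, -, hi⟩ := exists_set hC β {x.pt} {x.pt} (by
    intro z hz
    rw [Finset.mem_singleton.1 hz]; exact hβ) (by
    intro z hz
    rw [Finset.mem_singleton.1 hz]; exact hβ) 0
  refine ⟨{y | Bv h C y.pt (β, i) = true}, isOpen_Bv _ _, ?_, ?_⟩
  · show Bv h C x.pt (β, i) = true
    rw [Bv_of_le (show x.pt.1 ≤ ((β, i) : Ω × ℕ).1 from hβ.le), hi x.pt (by simp)]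
    simp
  · refine Set.Countable.mono ?_ (countable_le hΩ β)
    intro y hy
    show y.pt.1 ≤ β
    by_contra hcon
    have h1 : Bv h C y.pt (β, i) = true := hy
    rw [Bv_of_none hβA (not_le.1 hcon)] at h1
    exact absurd h1 (by simp)

end facts

/-- Extension by continuity. -/
lemma exists_extension {X J : Type*} (B : X → J → Bool) (D : Set X) (J' : Set J) (f : X → ℝ)
    (h1 : ∀ x, ∀ ε > 0, ∃ G : Finset J, (∀ j ∈ G, j ∈ J') ∧ ∀ y ∈ D, ∀ y' ∈ D,
      (∀ j ∈ G, B y j = B x j) → (∀ j ∈ G, B y' j = B x j) → |f y - f y'| < ε)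
    (h2 : ∀ x, ∀ G : Finset J, (∀ j ∈ G, j ∈ J') → ∃ y ∈ D, ∀ j ∈ G, B y j = B x j) :
    ∃ F : X → ℝ, (∀ x ∈ D, F x = f x) ∧
      (∀ x, ∀ ε > 0, ∃ G : Finset J, (∀ j ∈ G, j ∈ J') ∧ ∀ x', (∀ j ∈ G, B x' j = B x j) →
        |F x' - F x| ≤ ε) ∧
      ∀ x, ∀ G : Finset J, (∀ j ∈ G, j ∈ J') → ∀ p q : ℝ,
        (∀ y ∈ D, (∀ j ∈ G, B y j = B x j) → p ≤ f y ∧ f y ≤ q) → p ≤ F x ∧ F x ≤ q := by
  classical
  have h3 : ∀ x, ∃ r : ℝ, ∀ ε > 0, ∃ G : Finset J, (∀ j ∈ G, j ∈ J') ∧ ∀ y ∈ D,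
      (∀ j ∈ G, B y j = B x j) → |f y - r| ≤ ε := by
    intro x
    choose G hGJ hG using fun m : ℕ => h1 x (1 / ((m : ℝ) + 1)) (by positivity)
    choose y hyD hy using fun m : ℕ => h2 x ((Finset.range (m + 1)).biUnion G) (by
      intro j hj
      obtain ⟨i, -, hji⟩ := Finset.mem_biUnion.1 hj
      exact hGJ i j hji)
    have hyG : ∀ m m', m ≤ m' → ∀ j ∈ G m, B (y m') j = B x j := fun m m' hmm j hj =>
      hy m' j (Finset.mem_biUnion.2 ⟨m, Finset.mem_range.2 (by omega), hj⟩)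
    have hc : CauchySeq fun m => f (y m) := by
      rw [Metric.cauchySeq_iff']
      intro ε hε
      obtain ⟨N, hN⟩ := exists_nat_one_div_lt hε
      refine ⟨N, fun n hn => ?_⟩
      rw [Real.dist_eq]
      exact (hG N _ (hyD n) _ (hyD N) (hyG N n hn) (hyG N N le_rfl)).trans hN
    obtain ⟨r, hr⟩ := cauchySeq_tendsto_of_complete hc
    refine ⟨r, fun ε hε => ?_⟩
    obtain ⟨N, hN⟩ := exists_nat_one_div_lt hε
    refine ⟨G N, hGJ N, fun z hz hzG => ?_⟩
    have h4 : Filter.Tendsto (fun m => |f z - f (y m)|) Filter.atTop (nhds |f z - r|) :=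
      (tendsto_const_nhds.sub hr).abs
    refine le_of_tendsto h4 (Filter.eventually_atTop.2 ⟨N, fun m hm => ?_⟩)
    exact ((hG N z hz _ (hyD m) hzG (hyG N m hm)).trans hN).le
  choose F hF using h3
  have hpq : ∀ x, ∀ G : Finset J, (∀ j ∈ G, j ∈ J') → ∀ p q : ℝ,
        (∀ y ∈ D, (∀ j ∈ G, B y j = B x j) → p ≤ f y ∧ f y ≤ q) → p ≤ F x ∧ F x ≤ q := by
    intro x G hG p q hpq
    have key : ∀ ε > 0, p - ε ≤ F x ∧ F x ≤ q + ε := by
      intro ε hε
      obtain ⟨G', hG', hG''⟩ := hF x ε hε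
      obtain ⟨y, hy, hyG⟩ := h2 x (G ∪ G') (by
        intro j hj
        rcases Finset.mem_union.1 hj with h | h
        · exact hG j h
        · exact hG' j h)
      have h5 := hpq y hy fun j hj => hyG j (Finset.mem_union_left _ hj)
      have h6 := abs_le.1 (hG'' y hy fun j hj => hyG j (Finset.mem_union_right _ hj))
      constructor <;> linarith [h5.1, h5.2, h6.1, h6.2]
    constructor
    · exact le_of_forall_pos_le_add fun ε hε => by linarith [(key ε hε).1]
    · exact le_of_forall_pos_le_add fun ε hε => (key ε hε).2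
  refine ⟨F, fun x hx => ?_, fun x ε hε => ?_, hpq⟩
  · have key : ∀ ε > 0, |F x - f x| ≤ ε := by
      intro ε hε
      obtain ⟨G, -, hG⟩ := hF x ε hε
      rw [abs_sub_comm]
      exact hG x hx fun _ _ => rfl
    have h4 : |F x - f x| ≤ 0 := le_of_forall_pos_le_add fun ε hε => by
      rw [zero_add]; exact key ε hε
    have h5 := abs_nonpos_iff.1 h4
    linarith
  · obtain ⟨G, hGJ, hG⟩ := hF x ε hε
    refine ⟨G, hGJ, fun x' hx' => ?_⟩
    have h4 := hpq x' G hGJ (F x - ε) (F x + ε) (by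
      intro y hy hyG
      have h5 := abs_le.1 (hG y hy fun j hj => (hyG j hj).trans (hx' j hj))
      constructor <;> linarith [h5.1, h5.2])
    rw [abs_le]
    constructor <;> linarith [h4.1, h4.2]

/-- The continuous extension of a solution. -/
theorem exists_W (hC : ∀ β, Req h h' β C) {β : Ω} (hβ : ∃ β', β' < β)
    (hS : ∃ w, Sol h β (bc h C β) (ee C β) w) :
    ∃ W : ℕ → Xs h C → ℝ, (∀ k, Continuous (W k)) ∧
      (∀ k x, x.pt.1 < β → W k x = Wf h β (bc h C β) (ee C β) x.pt k) ∧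
      ∀ k x, ∀ G : Finset (Ω × ℕ), (∀ j ∈ G, j.1 ≤ β) → ∀ p q : ℝ,
        (∀ y : Ω × ℕ, y.1 < β → (∀ j ∈ G, Bv h C y j = Bv h C x.pt j) →
          p ≤ Wf h β (bc h C β) (ee C β) y k ∧ Wf h β (bc h C β) (ee C β) y k ≤ q) →
        p ≤ W k x ∧ W k x ≤ q := by
  classical
  obtain ⟨t, ht, -, hRel, -⟩ := Wf_spec hS
  have hA : h β ≠ none := by rw [ht]; simp
  have key := fun k : ℕ => exists_extension (Bv h C) {x : Ω × ℕ | x.1 < β} {j : Ω × ℕ | j.1 ≤ β}
    (fun x => Wf h β (bc h C β) (ee C β) x k) ?_ ?_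
  · choose W hW1 hW2 hW3 using key
    refine ⟨fun k x => W k x.pt, fun k => ?_, fun k x hx => hW1 k x.pt hx, fun k x G hG p q hpq =>
      hW3 k x.pt G hG p q fun y hy hyG => hpq y hy hyG⟩
    rw [continuous_iff_finset]
    intro x ε hε
    obtain ⟨G, -, hG⟩ := hW2 k x.pt (ε / 2) (half_pos hε)
    exact ⟨G, fun y hy => (hG y.pt hy).trans_lt (half_lt_self hε)⟩
  · intro x ε hε
    obtain ⟨m, hm⟩ := exists_nat_one_div_lt (half_pos hε)
    rcases lt_or_ge x.1 β with hx | hx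
    · obtain ⟨G, hG, H, hH⟩ := hRel.cont x hx k m
      refine ⟨G ∪ H.image fun i => (β, i), ?_, ?_⟩
      · intro j hj
        rcases Finset.mem_union.1 hj with h1 | h1
        · exact (hG j h1).le
        · obtain ⟨i, -, rfl⟩ := Finset.mem_image.1 h1
          exact le_rfl
      · have hy : ∀ y : Ω × ℕ, y.1 < β → (∀ j ∈ G ∪ H.image fun i => (β, i),
            Bv h C y j = Bv h C x j) →
            |Wf h β (bc h C β) (ee C β) y k - Wf h β (bc h C β) (ee C β) x k| < ε / 2 := by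
          intro y hy hyG
          refine (hH y ⟨hy, fun j hj => ?_, fun i hi => ?_⟩).trans hm
          · rw [bc_of_lt hy (hG j hj), bc_of_lt hx (hG j hj)]
            exact hyG j (Finset.mem_union_left _ hj)
          · have h1 := hyG (β, i) (Finset.mem_union_right _ (Finset.mem_image.2 ⟨i, hi, rfl⟩))
            rw [Bv_of_ne (show h ((β, i) : Ω × ℕ).1 ≠ none from hA),
              Bv_of_ne (show h ((β, i) : Ω × ℕ).1 ≠ none from hA)] at h1
            rw [ev_ee hy, ev_ee hx, h1]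
        intro y hyD y' hyD' hyG hyG'
        have h1 := hy y hyD hyG
        have h2 := hy y' hyD' hyG'
        rw [abs_lt] at h1 h2 ⊢
        constructor <;> linarith [h1.1, h1.2, h2.1, h2.2]
    · obtain ⟨G, hG, hG'⟩ := (hC x.1).p1 β hx hS x.2 k m
      refine ⟨G, hG, fun y hy y' hy' h1 h2 => ?_⟩
      have h3 := hG' y y' hy hy' h1 h2
      exact h3.trans (hm.trans (half_lt_self hε))
  · intro x G hG
    obtain ⟨y, hy, hyG⟩ := exists_old_point hC hβ x G hG
    exact ⟨y, hy, hyG⟩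

end Pool.Agent.CpCH
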