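import Pool.Agent.CpCH.StepB

/-!
# The construction
-/

set_option autoImplicit false
open Set Topology

namespace Pool.Agent.CpCH

universe u

variable {Ω : Type u} [LinearOrder Ω] (hΩ : ∀ β : Ω, (Iio β).Countable)
include hΩ

/-- the new points -/
theorem exists_p {h : Ω → Option (Task Ω)} {h' : Ω → ℕ → ℕ → Ω × ℕ} {β : Ω}
    {C : Ω × ℕ → Ω × ℕ → Bool} (hIH : ∀ γ < β, Req h h' γ C) (E : Sp β) :
    ∃ p : Np β,
      (∀ γ ≤ β, (∃ w, Sol h γ (bc h C γ) (eo C E γ) w) → ∀ n k m, p ∈ Tprom h C E γ n k m) ∧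
      (∀ γ ≤ β, ∀ β₀ ≤ β, ∀ β₁ ≤ β, {δ | β₀ < δ ∧ δ < γ ∧ h δ = h β₁}.Infinite →
        ∀ F : Finset (Ω × ℕ), (∀ x ∈ F, γ ≤ x.1 ∧ x.1 ≤ β) → ∀ m : ℕ,
        ∀ S : Finset ((Ω × ℕ) × ℕ), (∀ z ∈ S, z.1.1 ≤ β) → ∀ Δ : Finset Ω, (∀ δ ∈ Δ, δ ≤ β) →
        ∃ δ, (β₀ < δ ∧ δ < γ ∧ h δ = h β₁) ∧ δ ∉ Δ ∧
          (∀ x ∈ F, x.1 < β → ∀ i < m, C x (δ, i) = decide ((x, i) ∈ S)) ∧
          ∀ x ∈ F, x.1 = β → ∀ i < m, pv p x.2 (δ, i) = decide ((x, i) ∈ S)) ∧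
      ∀ (M : ℕ) (G G' : Finset (Ω × ℕ)), (∀ j ∈ G, j.1 ≤ β) → (∀ j ∈ G', j.1 ≤ β) →
        ∃ n, M ≤ n ∧ ∀ j ∈ G, pv p n j = decide (j ∈ G') := by
  classical
  have hcI := countable_Iic' hΩ β
  have hcF : {F : Finset (Ω × ℕ) | ∀ x ∈ F, x ∈ {x : Ω × ℕ | x.1 ≤ β}}.Countable :=
    countable_finset (countable_le hΩ β)
  have hcS : {S : Finset ((Ω × ℕ) × ℕ) | ∀ z ∈ S, z ∈ {z : (Ω × ℕ) × ℕ | z.1.1 ≤ β}}.Countable := by
    refine countable_finset ?_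
    have : {z : (Ω × ℕ) × ℕ | z.1.1 ≤ β} ⊆ {x : Ω × ℕ | x.1 ≤ β} ×ˢ (univ : Set ℕ) :=
      fun z hz => ⟨hz, mem_univ _⟩
    exact ((countable_le hΩ β).prod (Set.to_countable _)).mono this
  have hcD : {Δ : Finset Ω | ∀ δ ∈ Δ, δ ∈ Iic β}.Countable := countable_finset hcI
  have h1 : ∀ᶠ p : Np β in residual (Np β), ∀ γ ∈ Iic β,
      (∃ w, Sol h γ (bc h C γ) (eo C E γ) w) → ∀ n k m, p ∈ Tprom h C E γ n k m := by
    rw [eventually_countable_ball hcI]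
    intro γ hγ
    by_cases hS : ∃ w, Sol h γ (bc h C γ) (eo C E γ) w
    · have h2 : ∀ᶠ p : Np β in residual (Np β), ∀ n k m, p ∈ Tprom h C E γ n k m := by
        rw [eventually_countable_forall]; intro n
        rw [eventually_countable_forall]; intro k
        rw [eventually_countable_forall]; intro m
        exact residual_P1 hγ hS n k m
      exact h2.mono fun p hp _ => hp
    · exact Filter.Eventually.of_forall fun p h => absurd h hS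
  have h2 : ∀ᶠ p : Np β in residual (Np β), ∀ γ ∈ Iic β, ∀ β₀ ∈ Iic β, ∀ β₁ ∈ Iic β,
      ∀ F ∈ {F : Finset (Ω × ℕ) | ∀ x ∈ F, x ∈ {x : Ω × ℕ | x.1 ≤ β}}, ∀ m : ℕ,
      ∀ S ∈ {S : Finset ((Ω × ℕ) × ℕ) | ∀ z ∈ S, z ∈ {z : (Ω × ℕ) × ℕ | z.1.1 ≤ β}},
      ∀ Δ ∈ {Δ : Finset Ω | ∀ δ ∈ Δ, δ ∈ Iic β},
      {δ | β₀ < δ ∧ δ < γ ∧ h δ = h β₁}.Infinite → (∀ x ∈ F, γ ≤ x.1) →
        ∃ δ, (β₀ < δ ∧ δ < γ ∧ h δ = h β₁) ∧ δ ∉ Δ ∧
          (∀ x ∈ F, x.1 < β → ∀ i < m, C x (δ, i) = decide ((x, i) ∈ S)) ∧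
          ∀ x ∈ F, x.1 = β → ∀ i < m, pv p x.2 (δ, i) = decide ((x, i) ∈ S) := by
    rw [eventually_countable_ball hcI]; intro γ hγ
    rw [eventually_countable_ball hcI]; intro β₀ hβ₀
    rw [eventually_countable_ball hcI]; intro β₁ hβ₁
    rw [eventually_countable_ball hcF]; intro F hF
    rw [eventually_countable_forall]; intro m
    rw [eventually_countable_ball hcS]; intro S hS
    rw [eventually_countable_ball hcD]; intro Δ hΔ
    by_cases hinf : {δ | β₀ < δ ∧ δ < γ ∧ h δ = h β₁}.Infinite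
    swap
    · exact Filter.Eventually.of_forall fun p h => absurd h hinf
    by_cases hFγ : ∀ x ∈ F, γ ≤ x.1
    swap
    · exact Filter.Eventually.of_forall fun p _ h => absurd h hFγ
    let s : Ω × ℕ → ℕ → Bool := fun x i => decide ((x, i) ∈ S)
    let Fo := F.filter fun x => x.1 < β
    let L' : Set Ω := {δ | (β₀ < δ ∧ δ < γ ∧ h δ = h β₁) ∧ ∀ x ∈ Fo, ∀ i < m, C x (δ, i) = s x i}
    have hL' : L'.Infinite := by
      rcases Fo.eq_empty_or_nonempty with he | hne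
      · refine hinf.mono fun δ hδ => ⟨hδ, fun x hx => ?_⟩
        rw [he] at hx
        exact absurd hx (Finset.notMem_empty x)
      · obtain ⟨x₀, hx₀, hmax⟩ := Fo.exists_max_image (fun x => x.1) hne
        have hx₀' := Finset.mem_filter.1 hx₀
        exact (hIH x₀.1 hx₀'.2).p2 γ (hFγ x₀ hx₀'.1) β₀ β₁ hinf Fo
          (fun x hx => ⟨hFγ x (Finset.mem_filter.1 hx).1, hmax x hx⟩) m s
    refine Filter.mem_of_superset (residual_P2 L' (fun δ hδ => (hδ.1.2.1.le.trans hγ)) hL' Δ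
      (F.filter fun x => x.1 = β) m s (fun x hx => (Finset.mem_filter.1 hx).2)) ?_
    rintro p ⟨δ, hδ, hδΔ, hδF⟩ _ _
    exact ⟨δ, hδ.1, hδΔ, fun x hx hxβ => hδ.2 x (Finset.mem_filter.2 ⟨hx, hxβ⟩),
      fun x hx hxβ => hδF x (Finset.mem_filter.2 ⟨hx, hxβ⟩)⟩
  have h3 : ∀ᶠ p : Np β in residual (Np β), ∀ M : ℕ,
      ∀ G ∈ {F : Finset (Ω × ℕ) | ∀ x ∈ F, x ∈ {x : Ω × ℕ | x.1 ≤ β}},
      ∀ G' ∈ {F : Finset (Ω × ℕ) | ∀ x ∈ F, x ∈ {x : Ω × ℕ | x.1 ≤ β}},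
        ∃ n, M ≤ n ∧ ∀ j ∈ G, pv p n j = decide (j ∈ G') := by
    rw [eventually_countable_forall]; intro M
    rw [eventually_countable_ball hcF]; intro G hG
    rw [eventually_countable_ball hcF]; intro G' hG'
    exact residual_P3 M G _ hG
  obtain ⟨p, ⟨hp1, hp2⟩, hp3⟩ := exists_of_residual ((h1.and h2).and h3)
  refine ⟨p, fun γ hγ => hp1 γ hγ, ?_, fun M G G' hG hG' => hp3 M G hG G' hG'⟩
  intro γ hγ β₀ hβ₀ β₁ hβ₁ hinf F hF m S hS Δ hΔ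
  exact hp2 γ hγ β₀ hβ₀ β₁ hβ₁ F (fun x hx => (hF x hx).2) m S hS Δ hΔ hinf
    (fun x hx => (hF x hx).1)

/-- one step -/
theorem exists_step {h : Ω → Option (Task Ω)} {h' : Ω → ℕ → ℕ → Ω × ℕ} {β : Ω}
    {C : Ω × ℕ → Ω × ℕ → Bool} (hIH : ∀ γ < β, Req h h' γ C) :
    ∃ C' : Ω × ℕ → Ω × ℕ → Bool, (∀ x j, x.1 < β → j.1 < β → C' x j = C x j) ∧
      Req h h' β C' := by
  classical
  obtain ⟨E, hE1, hE2, hE3⟩ := exists_E hΩ hIH
  obtain ⟨p, hp1, hp2, hp3⟩ := exists_p hΩ hIH E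
  refine ⟨newC C E p, fun x j hx hj => newC_old hx hj, ?_⟩
  constructor
  · intro t ht
    rw [bc_newC h le_rfl, ee_newC]
    exact hE1 t ht
  · intro γ hγ O hO e hfin he hinj
    rw [bc_newC h hγ] at hO
    have h1 := hE2 γ hγ O hO e hfin he hinj
    have h2 : ∀ A : Sp γ, mrg (newC C E p) e A = mrg2 C E e A := by
      intro A
      funext z
      unfold mrg mrg2
      rcases hez : e z.2 with _ | j
      · rfl
      · by_cases hj : j.1 = β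
        · simp only [hj, if_true]
          exact newC_set (z.1.2.trans_le hγ) hj
        · simp only [hj, if_false]
          exact newC_old (z.1.2.trans_le hγ) (lt_of_le_of_ne (he _ _ hez).2 hj)
    simp only [h2]
    exact h1
  · rw [bc_newC h le_rfl, ee_newC]
    exact hE3
  · intro γ hγ hS n k m
    rw [bc_newC h hγ, ee_newC' hγ] at hS ⊢
    exact hp1 γ hγ hS n k m
  · intro γ hγ β₀ β₁ hinf F hF m s
    obtain ⟨δ₁, h1, h2, h3⟩ := hinf.nonempty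
    have hinf' : {δ | β₀ < δ ∧ δ < γ ∧ h δ = h δ₁}.Infinite := by rw [h3]; exact hinf
    intro hfin
    let S : Finset ((Ω × ℕ) × ℕ) := (F ×ˢ Finset.range m).filter fun z => s z.1 z.2 = true
    have hS : ∀ x ∈ F, ∀ i < m, decide ((x, i) ∈ S) = s x i := by
      intro x hx i hi
      simp [S, hx, hi]
    obtain ⟨δ, hδ, hδΔ, ho, hn⟩ := hp2 γ hγ β₀ (h1.le.trans (h2.le.trans hγ)) δ₁ (h2.le.trans hγ)
      hinf' F hF m S (fun z hz => (hF _ (Finset.mem_product.1 (Finset.mem_filter.1 hz).1).1).2)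
      hfin.toFinset (fun δ hδ => by
        have := hfin.mem_toFinset.1 hδ
        exact this.1.2.1.le.trans hγ)
    refine hδΔ (hfin.mem_toFinset.2 ⟨⟨hδ.1, hδ.2.1, hδ.2.2.trans h3⟩, fun x hx i hi => ?_⟩)
    have hδβ : δ < β := hδ.2.1.trans_le hγ
    rcases (hF x hx).2.lt_or_eq with hlt | heq
    · rw [newC_old (j := (δ, i)) hlt hδβ, ho x hx hlt i hi, hS x hx i hi]
    · rw [newC_pt (j := (δ, i)) heq hδβ.le, hn x hx heq i hi, hS x hx i hi]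
  · intro G hG g hfin
    obtain ⟨M, hM⟩ := hfin.bddAbove
    obtain ⟨n, hn, hnG⟩ := hp3 (M + 1) G (G.filter fun j => g j = true) hG
      (fun j hj => hG j (Finset.mem_filter.1 hj).1)
    have : n ∈ {n : ℕ | ∀ j ∈ G, newC C E p (β, n) j = g j} := by
      intro j hj
      rw [newC_pt' n (hG j hj), hnG j hj]
      simp [hj]
    have := hM this
    omega

/-- The matrix. -/
theorem exists_matrix [WellFoundedLT Ω] (h : Ω → Option (Task Ω)) (h' : Ω → ℕ → ℕ → Ω × ℕ) :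
    ∃ C : Ω × ℕ → Ω × ℕ → Bool, ∀ β, Req h h' β C := by
  have h1 : ∀ β (c c' : (Ω × ℕ) × (Ω × ℕ) → Bool), (∀ a, lvl a ≤ β → c a = c' a) →
      Req h h' β (fun x j => c (x, j)) → Req h h' β (fun x j => c' (x, j)) := by
    intro β c c' hcc hR
    refine Req_congr (fun x j hx hj => ?_) hR
    exact hcc (x, j) (max_le hx hj)
  have h2 : ∀ β (c : (Ω × ℕ) × (Ω × ℕ) → Bool), (∀ γ < β, Req h h' γ (fun x j => c (x, j))) →
      ∃ c' : (Ω × ℕ) × (Ω × ℕ) → Bool, (∀ a, lvl a < β → c' a = c a) ∧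
        Req h h' β (fun x j => c' (x, j)) := by
    intro β c hIH
    obtain ⟨C', hC', hR⟩ := exists_step hΩ hIH
    exact ⟨fun a => C' a.1 a.2, fun a ha => hC' a.1 a.2 ((le_max_left _ _).trans_lt ha)
      ((le_max_right _ _).trans_lt ha), hR⟩
  obtain ⟨c, hc⟩ := exists_rec (lvl : (Ω × ℕ) × (Ω × ℕ) → Ω)
    (fun β (c : (Ω × ℕ) × (Ω × ℕ) → Bool) => Req h h' β (fun x j => c (x, j))) false h1 h2
  exact ⟨fun x j => c (x, j), hc⟩

end Pool.Agent.CpCH
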