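import Pool.Agent.CpCH.Base

/-!
# One step of the construction: the new sets
-/

set_option autoImplicit false
open Set Topology

namespace Pool.Agent.CpCH

universe u

variable {Ω : Type u} [LinearOrder Ω]

open Classical in
/-- merging with new sets `E` of level `β` -/
noncomputable def mrg2 {β γ : Ω} (C : Ω × ℕ → Ω × ℕ → Bool) (E : Sp β) (e : ℕ → Option (Ω × ℕ))
    (A : Sp γ) : Sp γ := fun z =>
  match e z.2 with
    | some j => if j.1 = β then ev E z.1 j.2 else C z.1 j
    | none => A z

lemma continuous_mrg {γ : Ω} (C : Ω × ℕ → Ω × ℕ → Bool) (e : ℕ → Option (Ω × ℕ)) :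
    Continuous fun A : Sp γ => mrg C e A := by
  refine continuous_pi fun z => ?_
  unfold mrg
  rcases e z.2 with _ | j
  · exact continuous_apply z
  · exact continuous_const

/-- the maximal level in a finitely supported partial function -/
lemma exists_max_level {β γ : Ω} {e : ℕ → Option (Ω × ℕ)} (hfin : {i | e i ≠ none}.Finite)
    (he : ∀ i j, e i = some j → γ ≤ j.1 ∧ j.1 < β) (hne : ∃ i, e i ≠ none) :
    ∃ β' < β, γ ≤ β' ∧ ∀ i j, e i = some j → j.1 ≤ β' := by
  classical
  let L : ℕ → Ω := fun i => (e i).elim γ Prod.fst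
  obtain ⟨i₁, hi₁⟩ := hne
  obtain ⟨i₀, hi₀, hmax⟩ := hfin.toFinset.exists_max_image L ⟨i₁, hfin.mem_toFinset.2 hi₁⟩
  rw [hfin.mem_toFinset] at hi₀
  obtain ⟨j₀, hj₀⟩ := Option.ne_none_iff_exists'.1 hi₀
  have hL : ∀ i j, e i = some j → L i = j.1 := by
    intro i j hij
    simp only [L, hij, Option.elim_some]
  refine ⟨j₀.1, (he i₀ j₀ hj₀).2, (he i₀ j₀ hj₀).1, fun i j hij => ?_⟩
  rw [← hL i j hij, ← hL i₀ j₀ hj₀]
  exact hmax i (hfin.mem_toFinset.2 (by rw [mem_ofPred_eq, hij]; simp))

variable (hΩ : ∀ β : Ω, (Iio β).Countable)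
include hΩ

lemma residual_A2 {h : Ω → Option (Task Ω)} {h' : Ω → ℕ → ℕ → Ω × ℕ} {β : Ω}
    {C : Ω × ℕ → Ω × ℕ → Bool} (hIH : ∀ γ < β, Req h h' γ C) {γ : Ω} (hγ : γ ≤ β)
    {O : Set (Sp γ)} (hO : O ∈ base h h' γ (bc h C γ)) {e : ℕ → Option (Ω × ℕ)}
    (hfin : {i | e i ≠ none}.Finite) (he : ∀ i j, e i = some j → γ ≤ j.1 ∧ j.1 ≤ β)
    (hinj : ∀ i i' j, e i = some j → e i' = some j → i = i') :
    {E : Sp β | Dense {A : Sp γ | mrg2 C E e A ∈ O}} ∈ residual (Sp β) := by
  classical
  have : Countable {x : Ω × ℕ // x.1 < γ} := (countable_lt hΩ γ).to_subtype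
  let eo : ℕ → Option (Ω × ℕ) := fun i => match e i with
    | some j => if j.1 = β then none else some j
    | none => none
  have heo : ∀ i j, eo i = some j → e i = some j ∧ j.1 ≠ β := by
    intro i j hij
    simp only [eo] at hij
    rcases hei : e i with _ | j'
    · rw [hei] at hij; exact absurd hij (by simp)
    · rw [hei] at hij
      by_cases hj' : j'.1 = β
      · simp [hj'] at hij
      · simp only [hj', if_false] at hij
        have := Option.some_injective _ hij
        subst this
        exact ⟨rfl, hj'⟩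
  have heo' : ∀ i, eo i ≠ none → e i ≠ none := by
    intro i hi
    obtain ⟨j, hj⟩ := Option.ne_none_iff_exists'.1 hi
    rw [(heo i j hj).1]; simp
  let O' : Set (Sp γ) := {A | mrg C eo A ∈ O}
  have hOod := base_open_dense hO
  have hO'o : IsOpen O' := hOod.1.preimage (continuous_mrg C eo)
  have hO'd : Dense O' := by
    by_cases hne : ∃ i, eo i ≠ none
    · have hfin' : {i | eo i ≠ none}.Finite := hfin.subset fun i hi => heo' i hi
      obtain ⟨β', hβ', hγβ', hmax⟩ := exists_max_level (β := β) (γ := γ) hfin' (fun i j hij =>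
        ⟨(he i j (heo i j hij).1).1, lt_of_le_of_ne (he i j (heo i j hij).1).2 (heo i j hij).2⟩) hne
      exact (hIH β' hβ').s2 γ hγβ' O hO eo hfin'
        (fun i j hij => ⟨(he i j (heo i j hij).1).1, hmax i j hij⟩)
        (fun i i' j h1 h2 => hinj i i' j (heo i j h1).1 (heo i' j h2).1)
    · push Not at hne
      have : O' = O := by
        ext A
        have : mrg C eo A = A := by
          funext z
          unfold mrg
          rw [hne z.2]
        rw [show (A ∈ O') = (mrg C eo A ∈ O) from rfl, this]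
      rw [this]
      exact hOod.2
  let σ : {x : Ω × ℕ // x.1 < γ} × ℕ → ({x : Ω × ℕ // x.1 < β} × ℕ) ⊕ ({x : Ω × ℕ // x.1 < γ} × ℕ) :=
    fun z => match e z.2 with
    | some j => if j.1 = β then Sum.inl (⟨z.1, z.1.2.trans_le hγ⟩, j.2) else Sum.inr z
    | none => Sum.inr z
  have hσ : Function.Injective σ := by
    intro z z' hzz
    simp only [σ] at hzz
    rcases h1 : e z.2 with _ | j
    · rw [h1] at hzz
      rcases h2 : e z'.2 with _ | j'
      · rw [h2] at hzz
        exact Sum.inr_injective hzz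
      · rw [h2] at hzz
        by_cases hj' : j'.1 = β
        · simp [hj'] at hzz
        · simp only [hj', if_false] at hzz
          exact Sum.inr_injective hzz
    · rw [h1] at hzz
      rcases h2 : e z'.2 with _ | j'
      · rw [h2] at hzz
        by_cases hj : j.1 = β
        · simp [hj] at hzz
        · simp only [hj, if_false] at hzz
          exact Sum.inr_injective hzz
      · rw [h2] at hzz
        by_cases hj : j.1 = β
        · by_cases hj' : j'.1 = β
          · simp only [hj, hj', if_true] at hzz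
            have h3 := Sum.inl_injective hzz
            obtain ⟨h4, h5⟩ := Prod.mk.inj h3
            have h6 : z.1.1 = z'.1.1 := by have := Subtype.mk.inj h4; exact this
            have h7 : j = j' := Prod.ext (hj.trans hj'.symm) h5
            subst h7
            exact Prod.ext (Subtype.ext h6) (hinj _ _ _ h1 h2)
          · simp [hj, hj'] at hzz
        · by_cases hj' : j'.1 = β
          · simp [hj, hj'] at hzz
          · simp only [hj, hj', if_false] at hzz
            exact Sum.inr_injective hzz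
  refine Filter.mem_of_superset (residual_section σ hσ hO'o hO'd) fun E hE => ?_
  have h1 : ∀ A : Sp γ, mrg C eo (fun z => Sum.elim E A (σ z)) = mrg2 C E e A := by
    intro A
    funext z
    unfold mrg mrg2
    simp only [eo, σ]
    rcases h1 : e z.2 with _ | j
    · simp
    · by_cases hj : j.1 = β
      · simp only [hj, if_true, Sum.elim_inl]
        rw [ev_of_lt E (z.1.2.trans_le hγ)]
      · simp only [hj, if_false]
  have h2 : {A : Sp γ | mrg2 C E e A ∈ O} = {A | (fun z => Sum.elim E A (σ z)) ∈ O'} := by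
    ext A
    rw [mem_ofPred_eq, mem_ofPred_eq, ← h1 A]
    rfl
  show Dense {A : Sp γ | mrg2 C E e A ∈ O}
  rw [h2]
  exact hE

/-- the new sets -/
theorem exists_E {h : Ω → Option (Task Ω)} {h' : Ω → ℕ → ℕ → Ω × ℕ} {β : Ω}
    {C : Ω × ℕ → Ω × ℕ → Bool} (hIH : ∀ γ < β, Req h h' γ C) :
    ∃ E : Sp β, (∀ t, h β = some t → ¬ IsMeagre (Pset h β (bc h C β) t) →
        E ∈ Pset h β (bc h C β) t) ∧
      (∀ γ ≤ β, ∀ O ∈ base h h' γ (bc h C γ), ∀ e : ℕ → Option (Ω × ℕ), {i | e i ≠ none}.Finite →
        (∀ i j, e i = some j → γ ≤ j.1 ∧ j.1 ≤ β) →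
        (∀ i i' j, e i = some j → e i' = some j → i = i') →
        Dense {A : Sp γ | mrg2 C E e A ∈ O}) ∧
      ∀ O ∈ base h h' β (bc h C β), E ∈ O := by
  have hG : ∀ᶠ E : Sp β in residual (Sp β),
      (∀ γ ∈ Iic β, ∀ O ∈ base h h' γ (bc h C γ),
        ∀ e ∈ {e : ℕ → Option (Ω × ℕ) | {i | e i ≠ none}.Finite ∧
          ∀ i j, e i = some j → j ∈ {j : Ω × ℕ | j.1 ≤ β}},
        (∀ i j, e i = some j → γ ≤ j.1 ∧ j.1 ≤ β) →
        (∀ i i' j, e i = some j → e i' = some j → i = i') →
        Dense {A : Sp γ | mrg2 C E e A ∈ O}) ∧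
      ∀ O ∈ base h h' β (bc h C β), E ∈ O := by
    refine Filter.Eventually.and ?_ ?_
    · rw [eventually_countable_ball (countable_Iic' hΩ β)]
      intro γ hγ
      rw [eventually_countable_ball (base_countable hΩ h h' γ _)]
      intro O hO
      rw [eventually_countable_ball (countable_fs (countable_le hΩ β))]
      rintro e ⟨hfin, -⟩
      by_cases he : ∀ i j, e i = some j → γ ≤ j.1 ∧ j.1 ≤ β
      · by_cases hinj : ∀ i i' j, e i = some j → e i' = some j → i = i'
        · refine Filter.mem_of_superset (residual_A2 hΩ hIH hγ hO hfin he hinj) fun E hE => ?_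
          intro _ _
          exact hE
        · exact Filter.Eventually.of_forall fun E _ h => absurd h hinj
      · exact Filter.Eventually.of_forall fun E h => absurd h he
    · rw [eventually_countable_ball (base_countable hΩ h h' β _)]
      intro O hO
      have := base_open_dense hO
      exact residual_of_dense_open this.1 this.2
  have hfinal : ∀ E : Sp β, ((∀ γ ∈ Iic β, ∀ O ∈ base h h' γ (bc h C γ),
        ∀ e ∈ {e : ℕ → Option (Ω × ℕ) | {i | e i ≠ none}.Finite ∧
          ∀ i j, e i = some j → j ∈ {j : Ω × ℕ | j.1 ≤ β}},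
        (∀ i j, e i = some j → γ ≤ j.1 ∧ j.1 ≤ β) →
        (∀ i i' j, e i = some j → e i' = some j → i = i') →
        Dense {A : Sp γ | mrg2 C E e A ∈ O}) ∧
      ∀ O ∈ base h h' β (bc h C β), E ∈ O) →
      (∀ γ ≤ β, ∀ O ∈ base h h' γ (bc h C γ), ∀ e : ℕ → Option (Ω × ℕ), {i | e i ≠ none}.Finite →
        (∀ i j, e i = some j → γ ≤ j.1 ∧ j.1 ≤ β) →
        (∀ i i' j, e i = some j → e i' = some j → i = i') →
        Dense {A : Sp γ | mrg2 C E e A ∈ O}) ∧
      ∀ O ∈ base h h' β (bc h C β), E ∈ O := fun E hE =>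
    ⟨fun γ hγ O hO e hfin he hinj => hE.1 γ hγ O hO e ⟨hfin, fun i j hij => (he i j hij).2⟩ he hinj,
      hE.2⟩
  rcases hh : h β with _ | t
  · obtain ⟨E, hE⟩ := exists_of_residual hG
    refine ⟨E, fun t ht => absurd ht (by simp), hfinal E hE⟩
  · by_cases hM : IsMeagre (Pset h β (bc h C β) t)
    · obtain ⟨E, hE⟩ := exists_of_residual hG
      refine ⟨E, fun t' ht' hnm => ?_, hfinal E hE⟩
      have : t = t' := Option.some_injective _ ht'
      subst this
      exact absurd hM hnm
    · obtain ⟨E, hE, hEP⟩ := exists_of_not_isMeagre hM hG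
      refine ⟨E, fun t' ht' _ => ?_, hfinal E hE⟩
      have : t = t' := Option.some_injective _ ht'
      subst this
      exact hEP

end Pool.Agent.CpCH
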