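import Pool.Agent.CpCH.StepA

/-!
# One step of the construction: the new points
-/

set_option autoImplicit false
open Set Topology

namespace Pool.Agent.CpCH

universe u

variable {Ω : Type u} [LinearOrder Ω]

/-- the space of rows of the new points -/
abbrev Np (β : Ω) := ℕ × {j : Ω × ℕ // j.1 ≤ β} → Bool

open Classical in
/-- extension by `false` -/
noncomputable def pv {β : Ω} (p : Np β) (n : ℕ) (j : Ω × ℕ) : Bool :=
  if hj : j.1 ≤ β then p (n, ⟨j, hj⟩) else false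

lemma pv_of_le {β : Ω} (p : Np β) (n : ℕ) {j : Ω × ℕ} (hj : j.1 ≤ β) :
    pv p n j = p (n, ⟨j, hj⟩) := by
  unfold pv
  rw [dif_pos hj]

lemma pv_congr {β : Ω} {p p' : Np β} {n : ℕ} {j : Ω × ℕ}
    (h : ∀ hj : j.1 ≤ β, p (n, ⟨j, hj⟩) = p' (n, ⟨j, hj⟩)) : pv p n j = pv p' n j := by
  unfold pv
  by_cases hj : j.1 ≤ β
  · rw [dif_pos hj, dif_pos hj, h hj]
  · rw [dif_neg hj, dif_neg hj]

open Classical in
/-- the new matrix -/
noncomputable def newC {β : Ω} (C : Ω × ℕ → Ω × ℕ → Bool) (E : Sp β) (p : Np β) :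
    Ω × ℕ → Ω × ℕ → Bool := fun x j =>
  if x.1 < β ∧ j.1 = β then ev E x j.2 else if x.1 = β ∧ j.1 ≤ β then pv p x.2 j else C x j

section newC
variable {β : Ω} {C : Ω × ℕ → Ω × ℕ → Bool} {E : Sp β} {p : Np β}

lemma newC_set {x j : Ω × ℕ} (hx : x.1 < β) (hj : j.1 = β) : newC C E p x j = ev E x j.2 := by
  unfold newC
  rw [if_pos ⟨hx, hj⟩]

lemma newC_pt {x j : Ω × ℕ} (hx : x.1 = β) (hj : j.1 ≤ β) : newC C E p x j = pv p x.2 j := by
  unfold newC
  rw [if_neg (fun h => absurd hx h.1.ne), if_pos ⟨hx, hj⟩]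

lemma newC_pt' (n : ℕ) {j : Ω × ℕ} (hj : j.1 ≤ β) : newC C E p (β, n) j = pv p n j :=
  newC_pt rfl hj

lemma newC_old {x j : Ω × ℕ} (hx : x.1 < β) (hj : j.1 < β) : newC C E p x j = C x j := by
  unfold newC
  rw [if_neg (fun h => absurd h.2 hj.ne), if_neg (fun h => absurd h.1 hx.ne)]

lemma bc_newC (h : Ω → Option (Task Ω)) {γ : Ω} (hγ : γ ≤ β) :
    bc h (newC C E p) γ = bc h C γ :=
  bc_congr fun _ _ hx hj => newC_old (hx.trans_le hγ) (hj.trans_le hγ)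

lemma ee_newC_lt {γ : Ω} (hγ : γ < β) : ee (newC C E p) γ = ee C γ :=
  ee_congr fun _ _ hx hj => newC_old (hx.trans hγ) (by rw [hj]; exact hγ)

lemma ee_newC : ee (newC C E p) β = E := by
  funext z
  show newC C E p z.1 (β, z.2) = E z
  rw [newC_set z.1.2 rfl, ev_of_lt E z.1.2]

/-- the sets of level `γ` below level `γ`, after the step -/
noncomputable def eo (C : Ω × ℕ → Ω × ℕ → Bool) (E : Sp β) (γ : Ω) : Sp γ :=
  ee (newC C E fun _ => false) γ

lemma ee_newC' {γ : Ω} (hγ : γ ≤ β) : ee (newC C E p) γ = eo C E γ := by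
  refine ee_congr fun x j hx hj => ?_
  rcases hγ.lt_or_eq with hlt | heq
  · rw [newC_old (hx.trans hlt) (by rw [hj]; exact hlt),
      newC_old (hx.trans hlt) (by rw [hj]; exact hlt)]
  · rw [newC_set (hx.trans_le hγ) (hj.trans heq), newC_set (hx.trans_le hγ) (hj.trans heq)]

lemma newC_eo {γ : Ω} (hγ : γ ≤ β) {y : Ω × ℕ} (hy : y.1 < γ) (i : ℕ) :
    newC C E p y (γ, i) = ev (eo C E γ) y i := by
  rw [ev_of_lt _ hy, ← ee_newC' (p := p) hγ]
  rfl

end newC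

/-- the rows needed for the promise -/
def Tprom (h : Ω → Option (Task Ω)) {β : Ω} (C : Ω × ℕ → Ω × ℕ → Bool) (E : Sp β) (γ : Ω)
    (n k m : ℕ) : Set (Np β) :=
  {p | ∃ G : Finset (Ω × ℕ), (∀ j ∈ G, j.1 ≤ γ) ∧ ∀ y y' : Ω × ℕ, y.1 < γ → y'.1 < γ →
      (∀ j ∈ G, Bv h (newC C E p) y j = Bv h (newC C E p) (β, n) j) →
      (∀ j ∈ G, Bv h (newC C E p) y' j = Bv h (newC C E p) (β, n) j) →
      |Wf h γ (bc h C γ) (eo C E γ) y k - Wf h γ (bc h C γ) (eo C E γ) y' k| < 1 / ((m : ℝ) + 1)}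

lemma Bv_newC_congr (h : Ω → Option (Task Ω)) {β : Ω} {C : Ω × ℕ → Ω × ℕ → Bool} {E : Sp β}
    {γ : Ω} (hγ : γ ≤ β) {p p' : Np β} {n : ℕ} {G : Finset (Ω × ℕ)} (hG : ∀ j ∈ G, j.1 ≤ γ)
    (hpp : ∀ c : ℕ × {j : Ω × ℕ // j.1 ≤ β}, c.1 = n → (c.2 : Ω × ℕ) ∈ G → p' c = p c)
    {y : Ω × ℕ} (hy : y.1 < γ)
    (hyp : ∀ j ∈ G, Bv h (newC C E p') y j = Bv h (newC C E p') (β, n) j) :
    ∀ j ∈ G, Bv h (newC C E p) y j = Bv h (newC C E p) (β, n) j := by
  intro j hj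
  have h1 : Bv h (newC C E p) y j = Bv h (newC C E p') y j := by
    refine Bv_congr ?_
    rcases ((hG j hj).trans hγ).lt_or_eq with hlt | heq
    · rw [newC_old (hy.trans_le hγ) hlt, newC_old (hy.trans_le hγ) hlt]
    · rw [newC_set (hy.trans_le hγ) heq, newC_set (hy.trans_le hγ) heq]
  have h2 : Bv h (newC C E p) (β, n) j = Bv h (newC C E p') (β, n) j := by
    refine Bv_congr ?_
    rw [newC_pt' n ((hG j hj).trans hγ), newC_pt' n ((hG j hj).trans hγ)]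
    exact pv_congr fun hj' => (hpp (n, ⟨j, hj'⟩) rfl hj).symm
  rw [h1, h2]
  exact hyp j hj

lemma residual_P1 {h : Ω → Option (Task Ω)} {β : Ω} {C : Ω × ℕ → Ω × ℕ → Bool} {E : Sp β}
    {γ : Ω} (hγ : γ ≤ β) (hS : ∃ w, Sol h γ (bc h C γ) (eo C E γ) w) (n k m : ℕ) :
    Tprom h C E γ n k m ∈ residual (Np β) := by
  classical
  refine mem_residual_of (isOpen_of_exists ?_) ?_
  · rintro p ⟨G, hG, hG'⟩
    refine ⟨G.attach.image fun j => (n, ⟨j.1, (hG j.1 j.2).trans hγ⟩), fun p' hp' =>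
      ⟨G, hG, fun y y' hy hy' h1 h2 => ?_⟩⟩
    have hpp : ∀ c : ℕ × {j : Ω × ℕ // j.1 ≤ β}, c.1 = n → (c.2 : Ω × ℕ) ∈ G → p' c = p c := by
      rintro ⟨n', j, hj'⟩ hc hj
      simp only at hc hj
      subst hc
      exact hp' _ (Finset.mem_image.2 ⟨⟨j, hj⟩, Finset.mem_attach _ _, rfl⟩)
    exact hG' y y' hy hy' (Bv_newC_congr h hγ hG hpp hy h1) (Bv_newC_congr h hγ hG hpp hy' h2)
  · intro F₁ v
    obtain ⟨t, ht, -, hRel, -⟩ := Wf_spec hS
    have hγA : h γ ≠ none := by rw [ht]; simp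
    let G₀ : Finset (Ω × ℕ) := (F₁.filter fun c => c.1 = n ∧ c.2.1.1 ≤ γ).image fun c => c.2.1
    have hG₀ : ∀ j, j ∈ G₀ ↔ ∃ c ∈ F₁, c.1 = n ∧ c.2.1.1 ≤ γ ∧ c.2.1 = j := by
      intro j
      simp only [G₀, Finset.mem_image, Finset.mem_filter]
      constructor
      · rintro ⟨c, ⟨h1, h2, h3⟩, h4⟩; exact ⟨c, h1, h2, h3, h4⟩
      · rintro ⟨c, h1, h2, h3, h4⟩; exact ⟨c, ⟨h1, h2, h3⟩, h4⟩
    let G : Finset (Ω × ℕ) := G₀.filter fun j => j.1 < γ
    let H : Finset ℕ := (G₀.filter fun j => j.1 = γ).image Prod.snd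
    let g : Ω × ℕ → Bool := fun j => if h j.1 = none then false else pv v n j
    let u : ℕ → Bool := fun i => pv v n (γ, i)
    obtain ⟨G', g', H', u', hGG, hHH, hG'l, hG'A, hgg, huu, hosc⟩ := hRel.ext G g H u k m
      (fun j hj => (Finset.mem_filter.1 hj).2) (fun j _ hA => by simp only [g, hA, if_true])
    let p : Np β := fun c =>
      if c.1 = n ∧ c.2.1 ∈ G' ∧ h c.2.1.1 ≠ none then g' c.2.1
      else if c.1 = n ∧ c.2.1.1 = γ ∧ c.2.1.2 ∈ H' then u' c.2.1.2 else v c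
    refine ⟨p, ⟨G' ∪ H'.image fun i => (γ, i), ?_, ?_⟩, ?_⟩
    · intro j hj
      rcases Finset.mem_union.1 hj with hj | hj
      · exact (hG'l j hj).le
      · obtain ⟨i, -, rfl⟩ := Finset.mem_image.1 hj
        exact le_rfl
    · have hmt : ∀ y : Ω × ℕ, y.1 < γ →
          (∀ j ∈ G' ∪ H'.image fun i => (γ, i),
            Bv h (newC C E p) y j = Bv h (newC C E p) (β, n) j) →
          mt γ (bc h C γ) (eo C E γ) G' g' H' u' y := by
        intro y hy hyj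
        refine ⟨hy, fun j hj => ?_, fun i hi => ?_⟩
        · have hjγ := hG'l j hj
          have h1 := hyj j (Finset.mem_union_left _ hj)
          have h2 : bc h C γ y j = Bv h (newC C E p) y j := by
            unfold bc
            rw [if_pos ⟨hy, hjγ⟩]
            exact (Bv_congr (newC_old (hy.trans_le hγ) (hjγ.trans_le hγ))).symm
          rw [h2, h1]
          by_cases hA : h j.1 = none
          · unfold Bv
            rw [if_pos ⟨hA, hjγ.trans_le hγ⟩, hG'A j hj hA]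
          · unfold Bv
            rw [if_neg (fun h => hA h.1), newC_pt' n (hjγ.le.trans hγ),
              pv_of_le _ _ (hjγ.le.trans hγ)]
            simp only [p]
            rw [if_pos ⟨trivial, hj, hA⟩]
        · have h1 := hyj (γ, i) (Finset.mem_union_right _ (Finset.mem_image.2 ⟨i, hi, rfl⟩))
          unfold Bv at h1
          rw [if_neg (fun h => hγA h.1), if_neg (fun h => hγA h.1), newC_eo hγ hy,
            newC_pt' n (j := (γ, i)) hγ, pv_of_le _ _ (j := (γ, i)) hγ] at h1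
          rw [h1]
          simp only [p]
          rw [if_neg (fun h => absurd (hG'l _ h.2.1) (lt_irrefl _)), if_pos ⟨trivial, trivial, hi⟩]
      intro y y' hy hy' h1 h2
      exact hosc y y' (hmt y hy h1) (hmt y' hy' h2)
    · rintro ⟨n', j, hj⟩ hc
      simp only [p]
      by_cases hn : n' = n
      · subst hn
        by_cases hjG : j ∈ G' ∧ h j.1 ≠ none
        · rw [if_pos ⟨rfl, hjG⟩]
          have hj' : j ∈ G := Finset.mem_filter.2
            ⟨(hG₀ j).2 ⟨_, hc, rfl, (hG'l j hjG.1).le, rfl⟩, hG'l j hjG.1⟩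
          rw [hgg j hj']
          simp only [g, hjG.2, if_false]
          exact pv_of_le _ _ hj
        · rw [if_neg (fun h => hjG h.2)]
          by_cases hjH : j.1 = γ ∧ j.2 ∈ H'
          · rw [if_pos ⟨rfl, hjH⟩]
            have hj' : j.2 ∈ H := Finset.mem_image.2 ⟨j, Finset.mem_filter.2
              ⟨(hG₀ j).2 ⟨_, hc, rfl, hjH.1.le, rfl⟩, hjH.1⟩, rfl⟩
            rw [huu j.2 hj']
            have h3 : ((γ, j.2) : Ω × ℕ) = j := Prod.ext hjH.1.symm rfl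
            show pv v n' (γ, j.2) = _
            rw [h3]
            exact pv_of_le _ _ hj
          · rw [if_neg (fun h => hjH h.2)]
      · rw [if_neg (fun h => hn h.1), if_neg (fun h => hn h.1)]

lemma residual_P2 {β : Ω} (L : Set Ω) (hLβ : ∀ δ ∈ L, δ ≤ β) (hL : L.Infinite) (Δ : Finset Ω)
    (F : Finset (Ω × ℕ)) (m : ℕ) (s : Ω × ℕ → ℕ → Bool) (hF : ∀ x ∈ F, x.1 = β) :
    {p : Np β | ∃ δ ∈ L, δ ∉ Δ ∧ ∀ x ∈ F, ∀ i < m, pv p x.2 (δ, i) = s x i} ∈
      residual (Np β) := by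
  classical
  refine mem_residual_of (isOpen_of_exists ?_) ?_
  · rintro p ⟨δ, hδ, hδΔ, hδF⟩
    have hδβ := hLβ δ hδ
    refine ⟨(F ×ˢ Finset.range m).image fun z => (z.1.2, ⟨(δ, z.2), hδβ⟩), fun p' hp' =>
      ⟨δ, hδ, hδΔ, fun x hx i hi => ?_⟩⟩
    rw [← hδF x hx i hi]
    refine pv_congr fun hj => ?_
    exact hp' _ (Finset.mem_image.2 ⟨(x, i), Finset.mem_product.2 ⟨hx, Finset.mem_range.2 hi⟩, rfl⟩)
  · intro F₁ v
    obtain ⟨δ, hδ, hδ'⟩ := hL.exists_notMem_finset (Δ ∪ F₁.image fun c => c.2.1.1)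
    rw [Finset.mem_union, not_or] at hδ'
    let p : Np β := fun c => if c.2.1.1 = δ then s (β, c.1) c.2.1.2 else v c
    refine ⟨p, ⟨δ, hδ, hδ'.1, fun x hx i hi => ?_⟩, fun c hc => ?_⟩
    · rw [pv_of_le _ _ (show ((δ, i) : Ω × ℕ).1 ≤ β from hLβ δ hδ)]
      simp only [p, if_true]
      rw [show ((β, x.2) : Ω × ℕ) = x from Prod.ext (hF x hx).symm rfl]
    · simp only [p]
      rw [if_neg]
      intro h
      exact hδ'.2 (Finset.mem_image.2 ⟨c, hc, h⟩)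

lemma residual_P3 {β : Ω} (M : ℕ) (G : Finset (Ω × ℕ)) (g : Ω × ℕ → Bool)
    (hG : ∀ j ∈ G, j.1 ≤ β) :
    {p : Np β | ∃ n, M ≤ n ∧ ∀ j ∈ G, pv p n j = g j} ∈ residual (Np β) := by
  classical
  refine mem_residual_of (isOpen_of_exists ?_) ?_
  · rintro p ⟨n, hn, hnG⟩
    refine ⟨G.attach.image fun j => (n, ⟨j.1, hG j.1 j.2⟩), fun p' hp' =>
      ⟨n, hn, fun j hj => ?_⟩⟩
    rw [← hnG j hj]
    refine pv_congr fun hj' => ?_
    exact hp' _ (Finset.mem_image.2 ⟨⟨j, hj⟩, Finset.mem_attach _ _, rfl⟩)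
  · intro F₁ v
    obtain ⟨n, hn, hn'⟩ : ∃ n, M ≤ n ∧ ∀ c ∈ F₁, c.1 ≠ n := by
      refine ⟨M + F₁.sup (fun z => z.1) + 1, by omega, fun z hz h => ?_⟩
      have : z.1 ≤ F₁.sup (fun z => z.1) := Finset.le_sup (f := fun z => z.1) hz
      omega
    refine ⟨fun c => if c.1 = n then g c.2.1 else v c, ⟨n, hn, fun j hj => ?_⟩, fun c hc => ?_⟩
    · rw [pv_of_le _ _ (hG j hj)]
      simp
    · simp only
      rw [if_neg (hn' c hc)]

end Pool.Agent.CpCH
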